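import Mathlib

/-! Pointwise ergodic theorem for bounded functions. -/

open MeasureTheory Filter Topology Function

namespace Pool.Agent.MP_79d3d7_an

variable {Ω : Type*}

/-- the maximal function, recursively -/
noncomputable def maxSum (S : Ω → Ω) (F : Ω → ℝ) : ℕ → Ω → ℝ
  | 0, _ => 0
  | (n + 1), ω => max 0 (F ω + maxSum S F n (S ω))

lemma maxSum_nonneg (S : Ω → Ω) (F : Ω → ℝ) (n : ℕ) (ω : Ω) : 0 ≤ maxSum S F n ω := by
  cases n with
  | zero => exact le_refl _
  | succ n => exact le_max_left _ _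

lemma maxSum_mono_succ (S : Ω → Ω) (F : Ω → ℝ) (n : ℕ) :
    ∀ ω, maxSum S F n ω ≤ maxSum S F (n + 1) ω := by
  induction n with
  | zero => intro ω; exact maxSum_nonneg S F 1 ω
  | succ n ih =>
    intro ω
    change max 0 (F ω + maxSum S F n (S ω)) ≤ max 0 (F ω + maxSum S F (n + 1) (S ω))
    exact max_le_max le_rfl (by linarith [ih (S ω)])

lemma birkhoffSum_le_maxSum (S : Ω → Ω) (F : Ω → ℝ) (n : ℕ) :
    ∀ ω, birkhoffSum S F n ω ≤ maxSum S F n ω := by
  induction n with
  | zero => intro ω; simp [maxSum]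
  | succ n ih =>
    intro ω
    rw [birkhoffSum_succ']
    refine le_trans ?_ (le_max_right _ _)
    linarith [ih (S ω)]

variable [MeasurableSpace Ω] {μ : Measure Ω}

lemma measurable_maxSum {S : Ω → Ω} (hS : Measurable S) {F : Ω → ℝ} (hF : Measurable F) (n : ℕ) :
    Measurable (maxSum S F n) := by
  induction n with
  | zero => exact measurable_const
  | succ n ih => exact measurable_const.max (hF.add (ih.comp hS))

omit [MeasurableSpace Ω] in
lemma maxSum_bound (S : Ω → Ω) (F : Ω → ℝ) (C : ℝ) (hC : 0 ≤ C) (hF : ∀ ω, |F ω| ≤ C) (n : ℕ) :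
    ∀ ω, maxSum S F n ω ≤ n * C := by
  induction n with
  | zero => intro ω; simp [maxSum]
  | succ n ih =>
    intro ω
    have h1 := ih (S ω)
    have h2 := (abs_le.mp (hF ω)).2
    push_cast
    apply max_le
    · positivity
    · linarith

/-- Maximal ergodic theorem (Garsia), finite horizon. -/
lemma maximal_finite [IsProbabilityMeasure μ] {S : Ω → Ω} (hS : MeasurePreserving S μ μ)
    {F : Ω → ℝ} (hF : Measurable F) (C : ℝ) (hC : 0 ≤ C) (hFC : ∀ ω, |F ω| ≤ C) (n : ℕ) :
    0 ≤ ∫ ω in {ω | 0 < maxSum S F n ω}, F ω ∂μ := by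
  cases n with
  | zero => simp [maxSum]
  | succ n =>
    set M := maxSum S F (n + 1) with hM
    have hMm : Measurable M := measurable_maxSum hS.measurable hF _
    have hMb : ∀ ω, |M ω| ≤ ((n + 1 : ℕ) : ℝ) * C := by
      intro ω
      rw [abs_of_nonneg (maxSum_nonneg S F _ ω)]
      exact maxSum_bound S F C hC hFC (n + 1) ω
    have hMi : Integrable M μ := Integrable.of_bound hMm.aestronglyMeasurable
      (((n + 1 : ℕ) : ℝ) * C) (ae_of_all _ fun ω => by rw [Real.norm_eq_abs]; exact hMb ω)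
    have hMSi : Integrable (M ∘ S) μ := hS.integrable_comp_of_integrable hMi
    have hFi : Integrable F μ := Integrable.of_bound hF.aestronglyMeasurable C
      (ae_of_all _ fun ω => by rw [Real.norm_eq_abs]; exact hFC ω)
    have hset : MeasurableSet {ω | 0 < M ω} := measurableSet_lt measurable_const hMm
    have h1 : ∫ ω, (M ω - M (S ω)) ∂μ ≤ ∫ ω in {ω | 0 < M ω}, F ω ∂μ := by
      rw [← integral_indicator hset]
      apply integral_mono (hMi.sub hMSi) (hFi.indicator hset)
      intro ω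
      by_cases h : 0 < M ω
      · rw [Set.indicator_of_mem (by exact h)]
        have h2 : M ω = F ω + maxSum S F n (S ω) := by
          have h3 : M ω = max 0 (F ω + maxSum S F n (S ω)) := rfl
          rcases max_choice 0 (F ω + maxSum S F n (S ω)) with h4 | h4
          · rw [h3, h4] at h; exact absurd h (lt_irrefl _)
          · rw [h3, h4]
        have h3 := maxSum_mono_succ S F n (S ω)
        change M ω - M (S ω) ≤ F ω
        rw [h2]
        linarith
      · rw [Set.indicator_of_notMem (by exact h)]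
        have h2 : M ω = 0 := le_antisymm (not_lt.mp h) (maxSum_nonneg S F _ ω)
        change M ω - M (S ω) ≤ 0
        rw [h2]
        have := maxSum_nonneg S F (n + 1) (S ω)
        linarith
    have h2 : ∫ ω, (M ω - M (S ω)) ∂μ = 0 := by
      have h4 : ∫ ω, (M ω - M (S ω)) ∂μ = ∫ ω, M ω ∂μ - ∫ ω, M (S ω) ∂μ := integral_sub hMi hMSi
      rw [h4]
      have h3 : ∫ ω, M (S ω) ∂μ = ∫ ω, M ω ∂μ := by
        have := integral_map (μ := μ) (φ := S) hS.measurable.aemeasurable (f := M)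
          (hMm.aestronglyMeasurable)
        rw [hS.map_eq] at this
        exact this.symm
      rw [h3, sub_self]
    linarith

/-- Maximal ergodic theorem for functions with some positive Birkhoff sum everywhere on an
invariant set and zero outside. -/
lemma maximal_invariant [IsProbabilityMeasure μ] {S : Ω → Ω} (hS : MeasurePreserving S μ μ)
    {F : Ω → ℝ} (hF : Measurable F) (C : ℝ) (hC : 0 ≤ C) (hFC : ∀ ω, |F ω| ≤ C)
    (A : Set Ω) (hzero : ∀ n ω, ω ∉ A → maxSum S F n ω = 0)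
    (hpos : ∀ ω ∈ A, ∃ n, 0 < birkhoffSum S F n ω) :
    0 ≤ ∫ ω in A, F ω ∂μ := by
  have hmono : Monotone (fun n => {ω | 0 < maxSum S F n ω}) := by
    apply monotone_nat_of_le_succ
    intro n ω hω
    exact lt_of_lt_of_le hω (maxSum_mono_succ S F n ω)
  have hunion : ⋃ n, {ω | 0 < maxSum S F n ω} = A := by
    ext ω
    simp only [Set.mem_iUnion, Set.mem_ofPred_eq]
    constructor
    · rintro ⟨n, hn⟩
      by_contra hcon
      rw [hzero n ω hcon] at hn
      exact lt_irrefl _ hn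
    · intro h
      obtain ⟨n, hn⟩ := hpos ω h
      exact ⟨n, lt_of_lt_of_le hn (birkhoffSum_le_maxSum S F n ω)⟩
  have hFi : Integrable F μ := Integrable.of_bound hF.aestronglyMeasurable C
    (ae_of_all _ fun ω => by rw [Real.norm_eq_abs]; exact hFC ω)
  have hlim := tendsto_setIntegral_of_monotone (μ := μ) (f := F)
    (fun n => measurableSet_lt measurable_const (measurable_maxSum hS.measurable hF n)) hmono
    hFi.integrableOn
  rw [hunion] at hlim
  exact ge_of_tendsto' hlim (fun n => maximal_finite hS hF C hC hFC n)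

/-- the upper Birkhoff limit -/
noncomputable def bLim (S : Ω → Ω) (h : Ω → ℝ) (ω : Ω) : ℝ :=
  limsup (fun n => birkhoffAverage ℝ S h n ω) atTop

omit [MeasurableSpace Ω] in
lemma abs_birkhoffAverage_le {S : Ω → Ω} {h : Ω → ℝ} {C : ℝ} (hC : 0 ≤ C) (hh : ∀ ω, |h ω| ≤ C)
    (n : ℕ) (ω : Ω) : |birkhoffAverage ℝ S h n ω| ≤ C := by
  unfold birkhoffAverage birkhoffSum
  rcases Nat.eq_zero_or_pos n with hn | hn
  · subst hn; simpa using hC
  · have hn' : (0 : ℝ) < n := by exact_mod_cast hn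
    rw [smul_eq_mul, abs_mul, abs_of_nonneg (by positivity), inv_mul_le_iff₀ hn']
    calc |∑ k ∈ Finset.range n, h (S^[k] ω)| ≤ ∑ k ∈ Finset.range n, |h (S^[k] ω)| :=
          Finset.abs_sum_le_sum_abs _ _
      _ ≤ ∑ k ∈ Finset.range n, C := Finset.sum_le_sum fun k _ => hh _
      _ = n * C := by simp

omit [MeasurableSpace Ω] in
lemma isBounded_le {S : Ω → Ω} {h : Ω → ℝ} {C : ℝ} (hC : 0 ≤ C) (hh : ∀ ω, |h ω| ≤ C) (ω : Ω) :
    IsBoundedUnder (· ≤ ·) atTop (fun n => birkhoffAverage ℝ S h n ω) :=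
  isBoundedUnder_of ⟨C, fun n => (abs_le.mp (abs_birkhoffAverage_le hC hh n ω)).2⟩

omit [MeasurableSpace Ω] in
lemma isBounded_ge {S : Ω → Ω} {h : Ω → ℝ} {C : ℝ} (hC : 0 ≤ C) (hh : ∀ ω, |h ω| ≤ C) (ω : Ω) :
    IsBoundedUnder (· ≥ ·) atTop (fun n => birkhoffAverage ℝ S h n ω) :=
  isBoundedUnder_of ⟨-C, fun n => (abs_le.mp (abs_birkhoffAverage_le hC hh n ω)).1⟩

omit [MeasurableSpace Ω] in
lemma bLim_comp {S : Ω → Ω} {h : Ω → ℝ} {C : ℝ} (hC : 0 ≤ C) (hh : ∀ ω, |h ω| ≤ C) (ω : Ω) :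
    bLim S h (S ω) = bLim S h ω := by
  unfold bLim
  have hlim : Tendsto (fun n => birkhoffAverage ℝ S h n (S ω) - birkhoffAverage ℝ S h n ω) atTop
      (𝓝 0) := by
    apply tendsto_birkhoffAverage_apply_sub_birkhoffAverage' ℝ
    rw [Metric.isBounded_range_iff]
    refine ⟨2 * C, fun x y => ?_⟩
    rw [Real.dist_eq]
    have h1 := abs_le.mp (hh x)
    have h2 := abs_le.mp (hh y)
    rw [abs_le]
    constructor <;> linarith [h1.1, h1.2, h2.1, h2.2]
  apply le_antisymm
  · have := limsup_add_le (f := atTop) (u := fun n => birkhoffAverage ℝ S h n (S ω) -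
      birkhoffAverage ℝ S h n ω) (v := fun n => birkhoffAverage ℝ S h n ω)
      (hlim.isBoundedUnder_ge) (hlim.isBoundedUnder_le)
      (isBounded_ge hC hh ω).isCoboundedUnder_le (isBounded_le hC hh ω)
    rw [hlim.limsup_eq, zero_add] at this
    refine le_trans (le_of_eq ?_) this
    congr 1
    funext n
    simp
  · have hlim' : Tendsto (fun n => birkhoffAverage ℝ S h n ω - birkhoffAverage ℝ S h n (S ω)) atTop
      (𝓝 0) := by
      have := hlim.neg
      simpa using this
    have := limsup_add_le (f := atTop) (u := fun n => birkhoffAverage ℝ S h n ω -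
      birkhoffAverage ℝ S h n (S ω)) (v := fun n => birkhoffAverage ℝ S h n (S ω))
      (hlim'.isBoundedUnder_ge) (hlim'.isBoundedUnder_le)
      (isBounded_ge hC hh (S ω)).isCoboundedUnder_le (isBounded_le hC hh (S ω))
    rw [hlim'.limsup_eq, zero_add] at this
    refine le_trans (le_of_eq ?_) this
    congr 1
    funext n
    simp

lemma measurable_birkhoffAverage {S : Ω → Ω} (hS : Measurable S) {h : Ω → ℝ} (hh : Measurable h)
    (n : ℕ) : Measurable (birkhoffAverage ℝ S h n) := by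
  have : Measurable (fun x => ((n : ℝ))⁻¹ * ∑ k ∈ Finset.range n, h (S^[k] x)) := by
    apply Measurable.const_mul
    apply Finset.measurable_fun_sum
    intro k _
    exact hh.comp (hS.iterate k)
  exact this

lemma measurable_bLim {S : Ω → Ω} (hS : Measurable S) {h : Ω → ℝ} (hh : Measurable h) :
    Measurable (bLim S h) :=
  Measurable.limsup fun n => measurable_birkhoffAverage hS hh n

omit [MeasurableSpace Ω] in
lemma bLim_le {S : Ω → Ω} {h : Ω → ℝ} {C : ℝ} (hC : 0 ≤ C) (hh : ∀ ω, |h ω| ≤ C) {b : ℝ}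
    (hb : ∀ ω, h ω ≤ b) (ω : Ω) : bLim S h ω ≤ b := by
  unfold bLim
  apply limsup_le_of_le (isBounded_ge hC hh ω).isCoboundedUnder_le
  filter_upwards [eventually_gt_atTop 0] with n hn
  have hn' : (0 : ℝ) < n := by exact_mod_cast hn
  unfold birkhoffAverage birkhoffSum
  rw [smul_eq_mul, inv_mul_le_iff₀ hn']
  calc ∑ k ∈ Finset.range n, h (S^[k] ω) ≤ ∑ k ∈ Finset.range n, b :=
        Finset.sum_le_sum fun k _ => hb _
    _ = n * b := by simp

omit [MeasurableSpace Ω] in
lemma le_bLim {S : Ω → Ω} {h : Ω → ℝ} {C : ℝ} (hC : 0 ≤ C) (hh : ∀ ω, |h ω| ≤ C) {b : ℝ}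
    (hb : ∀ ω, b ≤ h ω) (ω : Ω) : b ≤ bLim S h ω := by
  unfold bLim
  apply le_limsup_of_frequently_le _ (isBounded_le hC hh ω)
  apply Eventually.frequently
  filter_upwards [eventually_gt_atTop 0] with n hn
  have hn' : (0 : ℝ) < n := by exact_mod_cast hn
  unfold birkhoffAverage birkhoffSum
  rw [smul_eq_mul, le_inv_mul_iff₀ hn']
  calc n * b = ∑ k ∈ Finset.range n, b := by simp
    _ ≤ ∑ k ∈ Finset.range n, h (S^[k] ω) := Finset.sum_le_sum fun k _ => hb _

omit [MeasurableSpace Ω] in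
lemma iterate_inv {S : Ω → Ω} {φ : Ω → ℝ} (hφ : ∀ ω, φ (S ω) = φ ω) (k : ℕ) (ω : Ω) :
    φ (S^[k] ω) = φ ω := by
  induction k with
  | zero => rfl
  | succ k ih => rw [Function.iterate_succ_apply', hφ, ih]

/-- one-sided inequality -/
lemma integral_bLim_le [IsProbabilityMeasure μ] {S : Ω → Ω} (hS : MeasurePreserving S μ μ)
    {h : Ω → ℝ} (hh : Measurable h) {C : ℝ} (hC : 0 ≤ C) (hhC : ∀ ω, |h ω| ≤ C) :
    ∫ ω, bLim S h ω ∂μ ≤ ∫ ω, h ω ∂μ := by
  have hUm := measurable_bLim hS.measurable hh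
  have hUinv : ∀ ω, bLim S h (S ω) = bLim S h ω := bLim_comp hC hhC
  have hUb : ∀ ω, |bLim S h ω| ≤ C := fun ω => abs_le.mpr
    ⟨le_bLim hC hhC (fun ω => (abs_le.mp (hhC ω)).1) ω,
      bLim_le hC hhC (fun ω => (abs_le.mp (hhC ω)).2) ω⟩
  have hUi : Integrable (bLim S h) μ := Integrable.of_bound hUm.aestronglyMeasurable C
    (ae_of_all _ fun ω => by rw [Real.norm_eq_abs]; exact hUb ω)
  have hhi : Integrable h μ := Integrable.of_bound hh.aestronglyMeasurable C
    (ae_of_all _ fun ω => by rw [Real.norm_eq_abs]; exact hhC ω)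
  apply le_of_forall_pos_le_add
  intro ε hε
  set F : Ω → ℝ := fun ω => h ω - bLim S h ω + ε with hF
  have hFm : Measurable F := (hh.sub hUm).add_const ε
  have hFb : ∀ ω, |F ω| ≤ 2 * C + ε := by
    intro ω
    have h1 := abs_le.mp (hhC ω)
    have h2 := abs_le.mp (hUb ω)
    rw [abs_le]
    constructor <;> simp only [hF] <;> linarith [h1.1, h1.2, h2.1, h2.2]
  have hpos : ∀ ω ∈ (Set.univ : Set Ω), ∃ n, 0 < birkhoffSum S F n ω := by
    intro ω _
    have hfreq : ∃ᶠ n in atTop, bLim S h ω - ε < birkhoffAverage ℝ S h n ω :=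
      frequently_lt_of_lt_limsup (isBounded_ge hC hhC ω).isCoboundedUnder_le
        (by change bLim S h ω - ε < bLim S h ω; linarith)
    obtain ⟨n, hn1, hn2⟩ := (hfreq.and_eventually (eventually_gt_atTop 0)).exists
    refine ⟨n, ?_⟩
    have hn' : (0 : ℝ) < n := by exact_mod_cast hn2
    unfold birkhoffAverage at hn1
    rw [smul_eq_mul, lt_inv_mul_iff₀ hn'] at hn1
    have e1 : birkhoffSum S F n ω = birkhoffSum S h n ω - n * (bLim S h ω - ε) := by
      unfold birkhoffSum
      calc ∑ k ∈ Finset.range n, F (S^[k] ω)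
          = ∑ k ∈ Finset.range n, (h (S^[k] ω) - (bLim S h ω - ε)) := by
            apply Finset.sum_congr rfl
            intro k _
            simp only [hF]
            rw [iterate_inv hUinv k ω]
            ring
        _ = _ := by
            rw [Finset.sum_sub_distrib, Finset.sum_const, Finset.card_range, nsmul_eq_mul]
    rw [e1]
    linarith
  have hmax := maximal_invariant hS hFm (2 * C + ε) (by linarith) hFb Set.univ
    (fun n ω h => absurd (Set.mem_univ ω) h) hpos
  rw [setIntegral_univ] at hmax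
  have e1 : ∫ ω, F ω ∂μ = ∫ ω, h ω ∂μ - ∫ ω, bLim S h ω ∂μ + ε := by
    have e2 : ∫ ω, F ω ∂μ = ∫ ω, (h ω - bLim S h ω) ∂μ + ∫ _ω, ε ∂μ :=
      integral_add (hhi.sub hUi) (integrable_const ε)
    rw [e2, integral_sub hhi hUi]
    simp
  rw [e1] at hmax
  linarith

omit [MeasurableSpace Ω] in
lemma avg_neg (S : Ω → Ω) (h : Ω → ℝ) (n : ℕ) (ω : Ω) :
    birkhoffAverage ℝ S (fun ω => - h ω) n ω = - birkhoffAverage ℝ S h n ω :=
  congrFun (congrFun (birkhoffAverage_neg (R := ℝ) (f := S) (g := h)) n) ω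

/-- Pointwise ergodic theorem for bounded measurable functions. -/
theorem tendsto_bLim [IsProbabilityMeasure μ] {S : Ω → Ω} (hS : MeasurePreserving S μ μ)
    {h : Ω → ℝ} (hh : Measurable h) {C : ℝ} (hC : 0 ≤ C) (hhC : ∀ ω, |h ω| ≤ C) :
    ∀ᵐ ω ∂μ, Tendsto (fun n => birkhoffAverage ℝ S h n ω) atTop (𝓝 (bLim S h ω)) := by
  set h' : Ω → ℝ := fun ω => - h ω with hh'
  have hhC' : ∀ ω, |h' ω| ≤ C := fun ω => by simp only [hh', abs_neg]; exact hhC ω
  have hh'm : Measurable h' := hh.neg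
  have hbd : ∀ (g : Ω → ℝ), (∀ ω, |g ω| ≤ C) → ∀ ω, |bLim S g ω| ≤ C := fun g hg ω => abs_le.mpr
    ⟨le_bLim hC hg (fun ω => (abs_le.mp (hg ω)).1) ω,
      bLim_le hC hg (fun ω => (abs_le.mp (hg ω)).2) ω⟩
  have hUi : Integrable (bLim S h) μ := Integrable.of_bound
    (measurable_bLim hS.measurable hh).aestronglyMeasurable C
    (ae_of_all _ fun ω => by rw [Real.norm_eq_abs]; exact hbd h hhC ω)
  have hUi' : Integrable (bLim S h') μ := Integrable.of_bound
    (measurable_bLim hS.measurable hh'm).aestronglyMeasurable C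
    (ae_of_all _ fun ω => by rw [Real.norm_eq_abs]; exact hbd h' hhC' ω)
  have h1 := integral_bLim_le hS hh hC hhC
  have h2 := integral_bLim_le hS hh'm hC hhC'
  have h3 : ∫ ω, h' ω ∂μ = - ∫ ω, h ω ∂μ := integral_neg _
  rw [h3] at h2
  -- eventual bounds
  have hev1 : ∀ ω, ∀ ε > 0, ∀ᶠ n in atTop, birkhoffAverage ℝ S h n ω < bLim S h ω + ε := by
    intro ω ε hε
    apply eventually_lt_of_limsup_lt _ (isBounded_le hC hhC ω)
    change bLim S h ω < bLim S h ω + ε
    linarith
  have hev2 : ∀ ω, ∀ ε > 0, ∀ᶠ n in atTop, - bLim S h' ω - ε < birkhoffAverage ℝ S h n ω := by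
    intro ω ε hε
    have : ∀ᶠ n in atTop, birkhoffAverage ℝ S h' n ω < bLim S h' ω + ε := by
      apply eventually_lt_of_limsup_lt _ (isBounded_le hC hhC' ω)
      change bLim S h' ω < bLim S h' ω + ε
      linarith
    filter_upwards [this] with n hn
    rw [hh', avg_neg] at hn
    linarith
  have hnonneg : ∀ ω, 0 ≤ bLim S h ω + bLim S h' ω := by
    intro ω
    by_contra hcon
    push Not at hcon
    set δ := -(bLim S h ω + bLim S h' ω) with hδ
    have hδpos : 0 < δ := by linarith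
    obtain ⟨n, hn1, hn2⟩ := ((hev1 ω (δ / 4) (by linarith)).and
      (hev2 ω (δ / 4) (by linarith))).exists
    linarith
  have hint : ∫ ω, (bLim S h ω + bLim S h' ω) ∂μ = 0 := by
    apply le_antisymm
    · rw [integral_add hUi hUi']
      linarith
    · exact integral_nonneg hnonneg
  have hae := (integral_eq_zero_iff_of_nonneg hnonneg (hUi.add hUi')).mp hint
  filter_upwards [hae] with ω hω
  have hω' : bLim S h ω + bLim S h' ω = 0 := hω
  rw [Metric.tendsto_atTop]
  intro ε hε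
  have := (hev1 ω ε hε).and (hev2 ω ε hε)
  obtain ⟨N, hN⟩ := eventually_atTop.mp this
  refine ⟨N, fun n hn => ?_⟩
  obtain ⟨h4, h5⟩ := hN n hn
  rw [Real.dist_eq, abs_lt]
  constructor <;> linarith

lemma integral_birkhoffAverage [IsProbabilityMeasure μ] {S : Ω → Ω} (hS : MeasurePreserving S μ μ)
    {h : Ω → ℝ} (hh : Measurable h) {C : ℝ} (hhC : ∀ ω, |h ω| ≤ C) (n : ℕ)
    (hn : 0 < n) : ∫ ω, birkhoffAverage ℝ S h n ω ∂μ = ∫ ω, h ω ∂μ := by
  have hn' : (0 : ℝ) < n := by exact_mod_cast hn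
  have hhi : Integrable h μ := Integrable.of_bound hh.aestronglyMeasurable C
    (ae_of_all _ fun ω => by rw [Real.norm_eq_abs]; exact hhC ω)
  have e1 : ∫ ω, birkhoffAverage ℝ S h n ω ∂μ =
      (n : ℝ)⁻¹ * ∫ ω, ∑ k ∈ Finset.range n, h (S^[k] ω) ∂μ := by
    rw [← integral_const_mul]
    rfl
  rw [e1, integral_finsetSum]
  · have : ∀ k ∈ Finset.range n, ∫ ω, h (S^[k] ω) ∂μ = ∫ ω, h ω ∂μ := by
      intro k _
      have h1 := integral_map (μ := μ) (φ := S^[k]) (hS.iterate k).measurable.aemeasurable (f := h)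
          (hh.aestronglyMeasurable)
      rw [(hS.iterate k).map_eq] at h1
      exact h1.symm
    rw [Finset.sum_congr rfl this]
    simp only [Finset.sum_const, Finset.card_range, nsmul_eq_mul]
    field_simp
  · intro k _
    exact (hS.iterate k).integrable_comp_of_integrable hhi

/-- the upper Birkhoff limit has the same integral as the function -/
theorem integral_bLim [IsProbabilityMeasure μ] {S : Ω → Ω} (hS : MeasurePreserving S μ μ)
    {h : Ω → ℝ} (hh : Measurable h) {C : ℝ} (hC : 0 ≤ C) (hhC : ∀ ω, |h ω| ≤ C) :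
    ∫ ω, bLim S h ω ∂μ = ∫ ω, h ω ∂μ := by
  have hlim : Tendsto (fun n => ∫ ω, birkhoffAverage ℝ S h n ω ∂μ) atTop
      (𝓝 (∫ ω, bLim S h ω ∂μ)) := by
    apply tendsto_integral_of_dominated_convergence (fun _ => C)
    · intro n
      exact (measurable_birkhoffAverage hS.measurable hh n).aestronglyMeasurable
    · exact integrable_const C
    · intro n
      exact ae_of_all _ fun ω => by
        rw [Real.norm_eq_abs]; exact abs_birkhoffAverage_le hC hhC n ω
    · exact tendsto_bLim hS hh hC hhC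
  have hev : (fun n => ∫ ω, birkhoffAverage ℝ S h n ω ∂μ) =ᶠ[atTop] fun _ => ∫ ω, h ω ∂μ := by
    filter_upwards [eventually_gt_atTop 0] with n hn
    exact integral_birkhoffAverage hS hh hhC n hn
  exact tendsto_nhds_unique hlim ((tendsto_congr' hev).mpr tendsto_const_nhds)

omit [MeasurableSpace Ω] in
lemma birkhoffAverage_inv_mul {S : Ω → Ω} {φ h : Ω → ℝ} (hφ : ∀ ω, φ (S ω) = φ ω) (n : ℕ) (ω : Ω) :
    birkhoffAverage ℝ S (fun ω => φ ω * h ω) n ω = φ ω * birkhoffAverage ℝ S h n ω := by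
  unfold birkhoffAverage birkhoffSum
  have : ∀ k ∈ Finset.range n, φ (S^[k] ω) * h (S^[k] ω) = φ ω * h (S^[k] ω) := by
    intro k _
    rw [iterate_inv hφ]
  rw [Finset.sum_congr rfl this, ← Finset.mul_sum, smul_eq_mul, smul_eq_mul]
  ring

/-- the upper Birkhoff limit is a version of the conditional expectation -/
theorem integral_mul_bLim [IsProbabilityMeasure μ] {S : Ω → Ω} (hS : MeasurePreserving S μ μ)
    {h : Ω → ℝ} (hh : Measurable h) {C : ℝ} (hC : 0 ≤ C) (hhC : ∀ ω, |h ω| ≤ C)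
    {φ : Ω → ℝ} (hφm : Measurable φ) {D : ℝ} (hD : 0 ≤ D) (hφD : ∀ ω, |φ ω| ≤ D)
    (hφ : ∀ ω, φ (S ω) = φ ω) :
    ∫ ω, φ ω * bLim S h ω ∂μ = ∫ ω, φ ω * h ω ∂μ := by
  have hb : ∀ ω, |φ ω * h ω| ≤ D * C := by
    intro ω
    rw [abs_mul]
    exact mul_le_mul (hφD ω) (hhC ω) (abs_nonneg _) hD
  have hm : Measurable (fun ω => φ ω * h ω) := hφm.mul hh
  have h1 := integral_bLim (μ := μ) hS hm (by positivity : 0 ≤ D * C) hb
  rw [← h1]
  apply integral_congr_ae
  filter_upwards [tendsto_bLim (μ := μ) hS hh hC hhC,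
    tendsto_bLim (μ := μ) hS hm (by positivity : 0 ≤ D * C) hb] with ω h2 h3
  have h4 : Tendsto (fun n => birkhoffAverage ℝ S (fun ω => φ ω * h ω) n ω) atTop
      (𝓝 (φ ω * bLim S h ω)) := by
    have := h2.const_mul (φ ω)
    refine this.congr fun n => ?_
    rw [birkhoffAverage_inv_mul hφ]
  exact tendsto_nhds_unique h4 h3

end Pool.Agent.MP_79d3d7_an
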