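import Mathlib

/-! Bregman's theorem (Minc's conjecture) in logarithmic form, following Schrijver's proof. -/

open Finset

namespace Pool.Agent.MP_79d3d7_an

/-- `log (r!) / r` (equal to `0` for `r = 0`). -/
noncomputable def breg (r : ℕ) : ℝ := Real.log (r.factorial) / r

lemma breg_nonneg (r : ℕ) : 0 ≤ breg r := by
  unfold breg
  apply div_nonneg _ (Nat.cast_nonneg r)
  apply Real.log_nonneg
  exact_mod_cast Nat.succ_le_of_lt (Nat.factorial_pos r)

section

variable {ι κ : Type}

/-- the set of bijections compatible with `R` -/
def compat [Fintype ι] [Fintype κ] [DecidableEq ι] [DecidableEq κ]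
    (R : ι → Finset κ) : Finset (ι ≃ κ) :=
  univ.filter (fun σ => ∀ i, σ i ∈ R i)

lemma mem_compat [Fintype ι] [Fintype κ] [DecidableEq ι] [DecidableEq κ]
    {R : ι → Finset κ} {σ : ι ≃ κ} : σ ∈ compat R ↔ ∀ i, σ i ∈ R i := by
  simp [compat]

lemma jensen_step (s : Finset κ) (N : κ → ℕ) (M : ℕ) (hM : 0 < M) (hsum : ∑ k ∈ s, N k = M) :
    (M : ℝ) * Real.log M ≤ M * Real.log s.card + ∑ k ∈ s, (N k : ℝ) * Real.log (N k) := by
  have hs : s.Nonempty := by
    rw [Finset.nonempty_iff_ne_empty]
    rintro rfl
    simp at hsum
    omega
  have hc : (0 : ℝ) < s.card := by exact_mod_cast Finset.card_pos.mpr hs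
  have hMpos : (0 : ℝ) < M := by exact_mod_cast hM
  have h := Real.convexOn_mul_log.map_sum_le (t := s) (w := fun _ => (1 : ℝ) / s.card)
    (p := fun k => (N k : ℝ)) (fun _ _ => by positivity) (by simp; field_simp)
    (fun k _ => by simp)
  simp only [smul_eq_mul] at h
  rw [← Finset.mul_sum] at h
  have hsum' : ∑ k ∈ s, (N k : ℝ) = M := by exact_mod_cast hsum
  rw [hsum'] at h
  rw [← Finset.mul_sum] at h
  have h2 : 1 / (s.card : ℝ) * M * Real.log (1 / (s.card : ℝ) * M)
      = 1 / (s.card : ℝ) * (M * (Real.log M - Real.log s.card)) := by
    rw [Real.log_mul (by positivity) (by positivity), one_div, Real.log_inv]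
    ring
  rw [h2] at h
  have h3 := le_of_mul_le_mul_left h (by positivity)
  linarith

end

lemma removal (n : ℕ)
    (ih : ∀ (ι κ : Type) [Fintype ι] [Fintype κ] [DecidableEq ι] [DecidableEq κ]
      (R : ι → Finset κ), Fintype.card ι = n → 0 < (compat R).card →
      Real.log ((compat R).card) ≤ ∑ i, breg (R i).card)
    (ι κ : Type) [Fintype ι] [Fintype κ] [DecidableEq ι] [DecidableEq κ]
    (R : ι → Finset κ) (hn : Fintype.card ι = n + 1) (i : ι) (k : κ)
    (hpos : 0 < ((compat R).filter (fun σ => σ i = k)).card) :
    Real.log (((compat R).filter (fun σ => σ i = k)).card) ≤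
      ∑ j ∈ univ.erase i, breg ((R j).erase k).card := by
  classical
  set R' : {x : ι // x ≠ i} → Finset {y : κ // y ≠ k} := fun x => (R x.1).subtype (· ≠ k) with hR'
  -- the injection
  have hle : ((compat R).filter (fun σ => σ i = k)).card ≤ (compat R').card := by
    refine Finset.card_le_card_of_injOn
      (fun σ => if h : σ i = k then
        σ.subtypeEquiv (p := fun x => x ≠ i) (q := fun y => y ≠ k)
          (fun x => by rw [← h]; simp) else
        Classical.choice (by
          by_contra hne
          rw [Finset.card_pos] at hpos
          obtain ⟨τ, hτ⟩ := hpos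
          simp only [mem_filter] at hτ
          apply hne
          exact ⟨τ.subtypeEquiv (p := fun x => x ≠ i) (q := fun y => y ≠ k)
            (fun x => by rw [← hτ.2]; simp)⟩)) ?_ ?_
    · intro σ hσ
      simp only [coe_filter, Set.mem_ofPred_eq, mem_compat] at hσ
      simp only [hσ.2, dif_pos, Finset.mem_coe, mem_compat]
      intro x
      simp only [hR', Finset.mem_subtype, Equiv.subtypeEquiv_apply]
      exact hσ.1 x.1
    · intro σ hσ τ hτ hστ
      simp only [coe_filter, Set.mem_ofPred_eq, mem_compat] at hσ hτ
      simp only [hσ.2, hτ.2, dif_pos] at hστ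
      ext x
      by_cases hx : x = i
      · rw [hx, hσ.2, hτ.2]
      · have := congrArg (fun e => ((e ⟨x, hx⟩ : {y : κ // y ≠ k}) : κ)) hστ
        simpa using this
  have hcard : Fintype.card {x : ι // x ≠ i} = n := by
    rw [Fintype.card_subtype_compl, hn]
    simp
  have h1 := ih _ _ R' hcard (lt_of_lt_of_le hpos hle)
  have h2 : ∑ x : {x : ι // x ≠ i}, breg (R' x).card
      = ∑ j ∈ univ.erase i, breg ((R j).erase k).card := by
    rw [Finset.sum_subtype (univ.erase i) (p := fun x => x ≠ i) (by simp)]
    apply Finset.sum_congr rfl
    intro x _
    simp only [hR', Finset.card_subtype, Finset.filter_ne']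
  rw [← h2]
  refine le_trans (Real.log_le_log (by exact_mod_cast hpos) ?_) h1
  exact_mod_cast hle

theorem bregman_log (n : ℕ) : ∀ (ι κ : Type) [Fintype ι] [Fintype κ] [DecidableEq ι]
    [DecidableEq κ] (R : ι → Finset κ), Fintype.card ι = n → 0 < (compat R).card →
      Real.log ((compat R).card) ≤ ∑ i, breg (R i).card := by
  induction n with
  | zero =>
    intro ι κ _ _ _ _ R hι hpos
    have hle : (compat R).card ≤ 1 := by
      apply Finset.card_le_one.mpr
      intro σ _ τ _
      have : IsEmpty ι := Fintype.card_eq_zero_iff.mp hι
      ext x
      exact (IsEmpty.false x).elim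
    have h1 : (compat R).card = 1 := by omega
    rw [h1]
    simp only [Nat.cast_one, Real.log_one]
    exact Finset.sum_nonneg fun i _ => breg_nonneg _
  | succ n ih =>
    intro ι κ _ _ _ _ R hι hpos
    set S := compat R with hS
    set N := S.card with hN
    have hNpos : (0 : ℝ) < N := by exact_mod_cast hpos
    have hrem := removal n ih ι κ R hι
    -- cardinality of κ
    have hκ : Fintype.card κ = n + 1 := by
      obtain ⟨σ, _⟩ := Finset.card_pos.mp hpos
      rw [← Fintype.card_congr σ, hι]
    -- Step 1: for each i
    have step1 : ∀ i, (N : ℝ) * Real.log N ≤ N * Real.log (R i).card +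
        ∑ σ ∈ S, Real.log ((S.filter (fun τ => τ i = σ i)).card) := by
      intro i
      have hmaps : ∀ σ ∈ S, σ i ∈ R i := fun σ hσ => (mem_compat.mp hσ) i
      have hsum : ∑ k ∈ R i, (S.filter (fun τ => τ i = k)).card = N :=
        (Finset.card_eq_sum_card_fiberwise hmaps).symm
      have h := jensen_step (R i) (fun k => (S.filter (fun τ => τ i = k)).card) N hpos hsum
      have h2 : ∑ k ∈ R i, ((S.filter (fun τ => τ i = k)).card : ℝ) *
          Real.log ((S.filter (fun τ => τ i = k)).card)
          = ∑ σ ∈ S, Real.log ((S.filter (fun τ => τ i = σ i)).card) := by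
        rw [← Finset.sum_fiberwise_of_maps_to hmaps]
        apply Finset.sum_congr rfl
        intro k _
        rw [Finset.sum_congr rfl (g := fun _ => Real.log ((S.filter (fun τ => τ i = k)).card))]
        · simp
        · intro σ hσ
          simp only [mem_filter] at hσ
          rw [hσ.2]
      rw [h2] at h
      exact h
    -- Step 2: for each σ ∈ S
    have step2 : ∀ σ ∈ S, ∑ i, Real.log ((S.filter (fun τ => τ i = σ i)).card) ≤
        ∑ j, (((n : ℝ) + 1 - (R j).card) * breg (R j).card +
          (((R j).card : ℝ) - 1) * breg ((R j).card - 1)) := by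
      intro σ hσ
      have hσ' := mem_compat.mp hσ
      calc ∑ i, Real.log ((S.filter (fun τ => τ i = σ i)).card)
          ≤ ∑ i, ∑ j ∈ univ.erase i, breg ((R j).erase (σ i)).card := by
            apply Finset.sum_le_sum
            intro i _
            apply hrem i (σ i)
            apply Finset.card_pos.mpr
            exact ⟨σ, by simp [← hS, hσ]⟩
        _ = ∑ j, ∑ i ∈ univ.erase j, breg ((R j).erase (σ i)).card := by
            rw [Finset.sum_comm' (t' := univ) (s' := fun j => univ.erase j)]
            intro x y
            simp [eq_comm]
        _ = _ := by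
            apply Finset.sum_congr rfl
            intro j _
            -- reindex by σ
            have hre : ∑ i ∈ univ.erase j, breg ((R j).erase (σ i)).card
                = ∑ k ∈ univ.erase (σ j), breg ((R j).erase k).card := by
              apply Finset.sum_bij (fun i _ => σ i)
              · intro a ha
                simpa using ha
              · intro a _ b _ hab
                exact σ.injective hab
              · intro b hb
                refine ⟨σ.symm b, ?_, by simp⟩
                simp only [mem_erase, mem_univ, and_true] at hb ⊢
                intro h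
                apply hb
                rw [← h]; simp
              · intro a _
                rfl
            rw [hre]
            have hsplit : univ.erase (σ j) = (R j).erase (σ j) ∪ (R j)ᶜ := by
              ext k
              simp only [mem_erase, mem_univ, and_true, mem_union, mem_compl]
              constructor
              · intro h
                by_cases hk : k ∈ R j
                · left; exact ⟨h, hk⟩
                · right; exact hk
              · rintro (h | h)
                · exact h.1
                · rintro rfl
                  exact h (hσ' j)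
            rw [hsplit, Finset.sum_union]
            · have e1 : ∑ x ∈ (R j).erase (σ j), breg ((R j).erase x).card
                  = (((R j).card : ℝ) - 1) * breg ((R j).card - 1) := by
                rw [Finset.sum_congr rfl (g := fun _ => breg ((R j).card - 1))]
                · rw [Finset.sum_const, Finset.card_erase_of_mem (hσ' j), nsmul_eq_mul]
                  have : 1 ≤ (R j).card := Finset.card_pos.mpr ⟨_, hσ' j⟩
                  push_cast [Nat.cast_sub this]
                  ring
                · intro x hx
                  rw [Finset.card_erase_of_mem (Finset.mem_of_mem_erase hx)]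
              have e2 : ∑ x ∈ (R j)ᶜ, breg ((R j).erase x).card
                  = ((n : ℝ) + 1 - (R j).card) * breg (R j).card := by
                rw [Finset.sum_congr rfl (g := fun _ => breg ((R j).card))]
                · rw [Finset.sum_const, Finset.card_compl, nsmul_eq_mul, hκ]
                  have : (R j).card ≤ n + 1 := by
                    rw [← hκ]; exact Finset.card_le_univ _
                  push_cast [Nat.cast_sub this]
                  ring
                · intro x hx
                  rw [Finset.erase_eq_of_notMem (by simpa using hx)]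
              rw [e1, e2]
              ring
            · rw [Finset.disjoint_left]
              intro k hk hk'
              simp at hk hk'
              exact hk' hk.2
    -- combine
    have step3 : ((n : ℝ) + 1) * (N * Real.log N) ≤
        N * ∑ j, Real.log (R j).card + ∑ σ ∈ S, ∑ i,
          Real.log ((S.filter (fun τ => τ i = σ i)).card) := by
      have := Finset.sum_le_sum (fun i (_ : i ∈ (univ : Finset ι)) => step1 i)
      rw [Finset.sum_const, Finset.card_univ, hι, nsmul_eq_mul, Finset.sum_add_distrib,
        ← Finset.mul_sum, Finset.sum_comm] at this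
      push_cast at this
      exact this
    have step4 : ∑ σ ∈ S, ∑ i, Real.log ((S.filter (fun τ => τ i = σ i)).card) ≤
        N * ∑ j, (((n : ℝ) + 1 - (R j).card) * breg (R j).card +
          (((R j).card : ℝ) - 1) * breg ((R j).card - 1)) := by
      have := Finset.sum_le_sum step2
      rw [Finset.sum_const, nsmul_eq_mul] at this
      exact this
    have hr : ∀ j, 1 ≤ (R j).card := by
      intro j
      obtain ⟨σ, hσ⟩ := Finset.card_pos.mp hpos
      exact Finset.card_pos.mpr ⟨_, mem_compat.mp hσ j⟩
    have step5 : ∀ j, Real.log (R j).card + (((n : ℝ) + 1 - (R j).card) * breg (R j).card +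
          (((R j).card : ℝ) - 1) * breg ((R j).card - 1)) = ((n : ℝ) + 1) * breg (R j).card := by
      intro j
      obtain ⟨m, hm⟩ : ∃ m, (R j).card = m + 1 := ⟨(R j).card - 1, by have := hr j; omega⟩
      rw [hm]
      simp only [Nat.add_sub_cancel]
      have e1 : ((m : ℝ) + 1) * breg (m + 1) = Real.log (m + 1) + (m : ℝ) * breg m := by
        unfold breg
        rcases Nat.eq_zero_or_pos m with hm0 | hm0
        · subst hm0; simp
        · have hm1 : (m : ℝ) ≠ 0 := by positivity
          rw [Nat.factorial_succ]
          push_cast
          rw [Real.log_mul (by positivity) (by positivity)]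
          field_simp
      push_cast
      linear_combination -e1
    have step6 : ((n : ℝ) + 1) * (N * Real.log N) ≤
        N * (((n : ℝ) + 1) * ∑ j, breg (R j).card) := by
      refine le_trans (le_trans step3 (add_le_add_right step4 _)) (le_of_eq ?_)
      rw [← mul_add, ← Finset.sum_add_distrib, Finset.sum_congr rfl (fun j _ => step5 j),
        ← Finset.mul_sum]
    have h7 : ((n : ℝ) + 1) * N * Real.log N ≤ ((n : ℝ) + 1) * N * ∑ j, breg (R j).card := by
      linarith
    exact le_of_mul_le_mul_left h7 (by positivity)

end Pool.Agent.MP_79d3d7_an
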