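import Mathlib

/-! A lower bound for permanents: `per A ≥ e^{-n} · cap(A)` (Friedland / Gurvits). -/

open Finset Polynomial

namespace Pool.Agent.MP_79d3d7_an

section mix

variable {n : ℕ} {R : Type*} [CommRing R]

/-- the matrix whose first `k` columns are `w` and whose other columns are those of `a` -/
def mix (k : ℕ) (w : Fin n → R) (a : Matrix (Fin n) (Fin n) R) : Matrix (Fin n) (Fin n) R :=
  fun i j => if j.val < k then w i else a i j

/-- mixed permanent -/
def mper (k : ℕ) (w : Fin n → R) (a : Matrix (Fin n) (Fin n) R) : R := (mix k w a).permanent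

lemma mper_map {S : Type*} [CommRing S] (φ : R →+* S) (k : ℕ) (w : Fin n → R)
    (a : Matrix (Fin n) (Fin n) R) :
    φ (mper k w a) = mper k (fun i => φ (w i)) (fun i j => φ (a i j)) := by
  unfold mper Matrix.permanent mix
  rw [map_sum]
  apply Finset.sum_congr rfl
  intro σ _
  rw [map_prod]
  apply Finset.prod_congr rfl
  intro j _
  split_ifs <;> rfl

lemma card_lt (k : ℕ) (hk : k ≤ n) : (univ.filter (fun j : Fin n => j.val < k)).card = k := by
  rw [Fin.card_filter_val_lt]
  omega

lemma mper_smul (k : ℕ) (hk : k ≤ n) (c : R) (w : Fin n → R) (a : Matrix (Fin n) (Fin n) R) :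
    mper k (fun i => c * w i) a = c ^ k * mper k w a := by
  unfold mper Matrix.permanent mix
  rw [Finset.mul_sum]
  apply Finset.sum_congr rfl
  intro σ _
  have : ∀ j : Fin n, (if j.val < k then c * w (σ j) else a (σ j) j) =
      (if j.val < k then c else 1) * (if j.val < k then w (σ j) else a (σ j) j) := by
    intro j
    split_ifs <;> simp
  rw [Finset.prod_congr rfl (fun j _ => this j), Finset.prod_mul_distrib]
  congr 1
  rw [Finset.prod_ite]
  simp only [prod_const]
  rw [card_lt k hk, one_pow, mul_one]

lemma mper_top (w : Fin n → R) (a : Matrix (Fin n) (Fin n) R) :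
    mper n w a = (n.factorial : R) * ∏ i, w i := by
  unfold mper Matrix.permanent mix
  have : ∀ σ : Equiv.Perm (Fin n), ∏ j : Fin n, (if j.val < n then w (σ j) else a (σ j) j)
      = ∏ i, w i := by
    intro σ
    rw [← Equiv.prod_comp σ w]
    apply Finset.prod_congr rfl
    intro j _
    rw [if_pos j.isLt]
  rw [Finset.sum_congr rfl (fun σ _ => this σ), Finset.sum_const, Finset.card_univ,
    Fintype.card_perm, Fintype.card_fin, nsmul_eq_mul]

lemma mper_zero (w : Fin n → R) (a : Matrix (Fin n) (Fin n) R) :
    mper 0 w a = a.permanent := by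
  unfold mper mix
  simp

lemma mper_one_col (hn : 0 < n) (a : Matrix (Fin n) (Fin n) R) :
    mper 1 (fun i => a i ⟨0, hn⟩) a = a.permanent := by
  unfold mper mix
  congr 1
  ext i j
  split_ifs with h
  · have : j = ⟨0, hn⟩ := by
      apply Fin.ext
      simpa using h
    rw [this]
  · rfl

omit [CommRing R] in
lemma swap_aux (k : Fin n) (w : Fin n → R) (a : Matrix (Fin n) (Fin n) R) (j : Fin n)
    (hj : j.val < k.val + 1) :
    (Matrix.updateCol (mix (k.val + 1) w a) j (fun i => a i k)).submatrix id (Equiv.swap j k)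
      = mix k.val w a := by
  ext i l
  simp only [Matrix.submatrix_apply, id, Matrix.updateCol_apply]
  by_cases hlk : l = k
  · subst hlk
    simp [mix]
  · by_cases hlj : l = j
    · subst hlj
      simp only [Equiv.swap_apply_left]
      have hkl : k ≠ l := fun h => hlk h.symm
      have : l.val < k.val := by
        have : l.val ≠ k.val := fun h => hlk (Fin.ext h)
        omega
      simp [mix, hkl, this]
    · rw [Equiv.swap_apply_of_ne_of_ne hlj hlk]
      simp only [hlj, if_false, mix]
      have : l.val ≠ k.val := fun h => hlk (Fin.ext h)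
      by_cases h1 : l.val < k.val
      · have h2 : l.val < k.val + 1 := by omega
        simp [h1, h2]
      · have h2 : ¬ l.val < k.val + 1 := by omega
        simp [h1, h2]

/-- the polynomial `t ↦ mper (k+1) (w + t a_k) a` -/
noncomputable def linePoly (k : Fin n) (w : Fin n → R) (a : Matrix (Fin n) (Fin n) R) : R[X] :=
  mper (k.val + 1) (fun i => C (w i) + X * C (a i k)) (fun i j => C (a i j))

lemma eval_linePoly (k : Fin n) (w : Fin n → R) (a : Matrix (Fin n) (Fin n) R) (t : R) :
    (linePoly k w a).eval t = mper (k.val + 1) (fun i => w i + t * a i k) a := by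
  unfold linePoly
  rw [← Polynomial.coe_evalRingHom, mper_map]
  have h1 : (fun i => (evalRingHom t) (C (w i) + X * C (a i k))) = fun i => w i + t * a i k := by
    funext i
    rw [coe_evalRingHom, eval_add, eval_mul, eval_X, eval_C, eval_C]
  have h2 : (fun i j => (evalRingHom t) (C (a i j))) = a := by
    funext i j
    rw [coe_evalRingHom, eval_C]
  rw [h1, h2]

lemma eval_derivative_linePoly (k : Fin n) (w : Fin n → R) (a : Matrix (Fin n) (Fin n) R) :
    (linePoly k w a).derivative.eval 0 = ((k.val + 1 : ℕ) : R) * mper k.val w a := by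
  classical
  unfold linePoly mper
  set M : Matrix (Fin n) (Fin n) R[X] :=
    mix (k.val + 1) (fun i => C (w i) + X * C (a i k)) (fun i j => C (a i j)) with hM
  have hMev : ∀ i j, (M i j).eval 0 = mix (k.val + 1) w a i j := by
    intro i j
    simp only [hM, mix]
    split_ifs <;> simp
  have hMder : ∀ i j, (derivative (M i j)).eval 0 = if j.val < k.val + 1 then a i k else 0 := by
    intro i j
    simp only [hM, mix]
    split_ifs <;> simp
  have h1 : (derivative M.permanent).eval 0 = ∑ j, ∑ σ : Equiv.Perm (Fin n),
      (∏ b ∈ univ.erase j, mix (k.val + 1) w a (σ b) b) *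
        (if j.val < k.val + 1 then a (σ j) k else 0) := by
    unfold Matrix.permanent
    rw [derivative_sum, eval_finsetSum, Finset.sum_comm]
    apply Finset.sum_congr rfl
    intro σ _
    rw [derivative_prod_finset, eval_finsetSum]
    apply Finset.sum_congr rfl
    intro j _
    rw [eval_mul, eval_prod, hMder]
    congr 1
    apply Finset.prod_congr rfl
    intro b _
    rw [hMev]
  rw [h1]
  have h2 : ∀ j : Fin n, j.val < k.val + 1 → ∑ σ : Equiv.Perm (Fin n),
      (∏ b ∈ univ.erase j, mix (k.val + 1) w a (σ b) b) *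
        (if j.val < k.val + 1 then a (σ j) k else 0) = (mix k.val w a).permanent := by
    intro j hj
    rw [← swap_aux k w a j hj, Matrix.permanent_permute_rows]
    unfold Matrix.permanent
    apply Finset.sum_congr rfl
    intro σ _
    rw [← Finset.prod_erase_mul univ _ (Finset.mem_univ j), if_pos hj]
    congr 1
    · apply Finset.prod_congr rfl
      intro b hb
      rw [Matrix.updateCol_ne (Finset.ne_of_mem_erase hb)]
    · rw [Matrix.updateCol_self]
  have h3 : ∀ j : Fin n, ¬ j.val < k.val + 1 → ∑ σ : Equiv.Perm (Fin n),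
      (∏ b ∈ univ.erase j, mix (k.val + 1) w a (σ b) b) *
        (if j.val < k.val + 1 then a (σ j) k else 0) = 0 := by
    intro j hj
    simp [hj]
  have h4 : ∀ j : Fin n, ∑ σ : Equiv.Perm (Fin n),
      (∏ b ∈ univ.erase j, mix (k.val + 1) w a (σ b) b) *
        (if j.val < k.val + 1 then a (σ j) k else 0) =
        if j.val < k.val + 1 then (mix k.val w a).permanent else 0 := by
    intro j
    split_ifs with h
    · have := h2 j h
      simp only [h, if_true] at this
      exact this
    · have := h3 j h
      simp only [h, if_false] at this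
      simp
  rw [Finset.sum_congr rfl (fun j _ => h4 j), ← Finset.sum_filter, Finset.sum_const,
    card_lt _ (by omega), nsmul_eq_mul]

end mix

section complex

variable {n : ℕ}

lemma continuous_mper (k : ℕ) (a : Matrix (Fin n) (Fin n) ℂ) :
    Continuous (fun w : Fin n → ℂ => mper k w a) := by
  unfold mper Matrix.permanent mix
  apply continuous_finsetSum
  intro σ _
  apply continuous_finsetProd
  intro j _
  split_ifs
  · exact continuous_apply _
  · exact continuous_const

/-- real version is positive -/
lemma mper_pos (k : ℕ) (w : Fin n → ℝ) (a : Matrix (Fin n) (Fin n) ℝ) (hw : ∀ i, 0 < w i)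
    (ha : ∀ i j, 0 < a i j) : 0 < mper k w a := by
  unfold mper Matrix.permanent mix
  apply Finset.sum_pos
  · intro σ _
    apply Finset.prod_pos
    intro j _
    split_ifs
    · exact hw _
    · exact ha _ _
  · exact ⟨1, Finset.mem_univ _⟩

lemma mper_ofReal (k : ℕ) (w : Fin n → ℝ) (a : Matrix (Fin n) (Fin n) ℝ) :
    ((mper k w a : ℝ) : ℂ) = mper k (fun i => (w i : ℂ)) (fun i j => (a i j : ℂ)) :=
  mper_map Complex.ofRealHom k w a

/-- Stability: the mixed permanent does not vanish on the open right half-plane. -/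
lemma mper_ne_zero (a : Matrix (Fin n) (Fin n) ℝ) (ha : ∀ i j, 0 < a i j) (m : ℕ) :
    ∀ k, k + m = n → ∀ w : Fin n → ℂ, (∀ i, 0 < (w i).re) →
      mper k w (fun i j => (a i j : ℂ)) ≠ 0 := by
  induction m with
  | zero =>
    intro k hk w hw
    have hk' : k = n := by omega
    subst hk'
    rw [mper_top]
    apply mul_ne_zero
    · exact_mod_cast (Nat.factorial_pos _).ne'
    · apply Finset.prod_ne_zero_iff.mpr
      intro i _ h0
      have := hw i
      rw [h0] at this
      simp at this
  | succ m ih =>
    intro k hk w hw hzero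
    have hkn : k < n := by omega
    have ih' := ih (k + 1) (by omega)
    set A : Matrix (Fin n) (Fin n) ℂ := fun i j => (a i j : ℂ) with hA
    set Q : ℂ[X] := linePoly ⟨k, hkn⟩ w A with hQ
    have hQev : ∀ t, Q.eval t = mper (k + 1) (fun i => w i + t * A i ⟨k, hkn⟩) A :=
      fun t => eval_linePoly ⟨k, hkn⟩ w A t
    have hQne : ∀ t : ℂ, 0 ≤ t.re → Q.eval t ≠ 0 := by
      intro t ht
      rw [hQev]
      apply ih'
      intro i
      simp only [hA, Complex.add_re, Complex.mul_re, Complex.ofReal_re, Complex.ofReal_im,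
        mul_zero, sub_zero]
      have := hw i
      have := mul_nonneg ht (ha i ⟨k, hkn⟩).le
      linarith
    have hder : Q.derivative.eval 0 = 0 := by
      rw [hQ, eval_derivative_linePoly, hzero, mul_zero]
    -- positive degree
    have hdeg : 0 < Q.degree := by
      by_contra hcon
      push Not at hcon
      have hconst : ∀ t, Q.eval t = Q.coeff 0 := by
        intro t
        rw [Polynomial.eq_C_of_degree_le_zero hcon]
        simp
      -- consider t = s⁻¹ as s → 0+
      have hlim1 : Filter.Tendsto (fun s : ℝ =>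
          mper (k + 1) (fun i => (s : ℂ) * w i + A i ⟨k, hkn⟩) A) (nhdsWithin 0 (Set.Ioi 0))
          (nhds (mper (k + 1) (fun i => A i ⟨k, hkn⟩) A)) := by
        have hc : Continuous (fun s : ℝ =>
            mper (k + 1) (fun i => (s : ℂ) * w i + A i ⟨k, hkn⟩) A) := by
          apply (continuous_mper (k + 1) A).comp
          fun_prop
        have := (hc.tendsto 0).mono_left (nhdsWithin_le_nhds (s := Set.Ioi 0))
        simpa using this
      have hlim2 : Filter.Tendsto (fun s : ℝ =>
          mper (k + 1) (fun i => (s : ℂ) * w i + A i ⟨k, hkn⟩) A) (nhdsWithin 0 (Set.Ioi 0))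
          (nhds 0) := by
        have hform : ∀ᶠ s : ℝ in nhdsWithin 0 (Set.Ioi 0), (s : ℂ) ^ (k + 1) * Q.coeff 0 =
            mper (k + 1) (fun i => (s : ℂ) * w i + A i ⟨k, hkn⟩) A := by
          filter_upwards [self_mem_nhdsWithin] with s hs
          have hs' : (s : ℂ) ≠ 0 := by
            simp only [ne_eq, Complex.ofReal_eq_zero]
            exact (ne_of_gt hs)
          rw [← hconst ((s : ℂ)⁻¹), hQev, ← mper_smul (k + 1) (by omega)]
          congr 1
          ext i
          rw [mul_add, ← mul_assoc, mul_inv_cancel₀ hs', one_mul]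
        refine Filter.Tendsto.congr' hform ?_
        have hc : Continuous (fun s : ℝ => (s : ℂ) ^ (k + 1) * Q.coeff 0) := by fun_prop
        have := (hc.tendsto 0).mono_left (nhdsWithin_le_nhds (s := Set.Ioi 0))
        simpa using this
      have huniq := tendsto_nhds_unique hlim1 hlim2
      have hpos := mper_pos (k + 1) (fun i => a i ⟨k, hkn⟩) a (fun i => ha i _) ha
      have hcast := mper_ofReal (k + 1) (fun i => a i ⟨k, hkn⟩) a
      rw [hA] at huniq
      rw [huniq] at hcast
      have : mper (k + 1) (fun i => a i ⟨k, hkn⟩) a = 0 := by exact_mod_cast hcast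
      linarith
    have hGL := Polynomial.rootSet_derivative_subset_convexHull_rootSet hdeg
    have hder_ne : Q.derivative ≠ 0 := by
      intro h0
      have h1 := Polynomial.derivative_eq_zero.mp h0
      have h2 := Polynomial.natDegree_pos_iff_degree_pos.mpr hdeg
      omega
    have h0mem : (0 : ℂ) ∈ Q.derivative.rootSet ℂ := by
      rw [Polynomial.mem_rootSet]
      exact ⟨hder_ne, by simpa using hder⟩
    have h0hull := hGL h0mem
    have hconv : Convex ℝ {z : ℂ | z.re < 0} := convex_halfSpace_re_lt 0
    have hsub : Q.rootSet ℂ ⊆ {z : ℂ | z.re < 0} := by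
      intro z hz
      rw [Polynomial.mem_rootSet] at hz
      by_contra hcon
      simp only [Set.mem_ofPred_eq, not_lt] at hcon
      exact hQne z hcon (by simpa using hz.2)
    have := convexHull_min hsub hconv h0hull
    simp at this

/-- square roots with positive real part -/
lemma exists_sqrt (z : ℂ) (hz : z ∈ Complex.slitPlane) : ∃ s : ℂ, 0 < s.re ∧ s * s = z := by
  have hz0 : z ≠ 0 := Complex.slitPlane_ne_zero hz
  refine ⟨Complex.exp (Complex.log z / 2), ?_, ?_⟩
  · rw [Complex.exp_re]
    apply mul_pos (Real.exp_pos _)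
    have him : (Complex.log z / 2).im = Complex.arg z / 2 := by
      have : (Complex.log z / 2).im = (Complex.log z).im / 2 := by
        simp
      rw [this, Complex.log_im]
    rw [him]
    apply Real.cos_pos_of_mem_Ioo
    have h1 := Complex.neg_pi_lt_arg z
    have h2 : Complex.arg z < Real.pi := lt_of_le_of_ne (Complex.arg_le_pi z)
      (Complex.mem_slitPlane_iff_arg.mp hz).1
    constructor <;> linarith
  · rw [← Complex.exp_add]
    rw [add_halves, Complex.exp_log hz0]

/-- All roots of the line polynomial through a real positive point are negative reals. -/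
lemma root_neg (a : Matrix (Fin n) (Fin n) ℝ) (ha : ∀ i j, 0 < a i j) (k : Fin n)
    (w : Fin n → ℝ) (hw : ∀ i, 0 < w i) (z : ℂ)
    (hz : (linePoly k (fun i => (w i : ℂ)) (fun i j => (a i j : ℂ))).eval z = 0) :
    z.im = 0 ∧ z.re < 0 := by
  by_contra hcon
  have hkn : k.val < n := k.isLt
  rw [eval_linePoly] at hz
  have hstab := mper_ne_zero a ha (n - (k.val + 1)) (k.val + 1) (by omega)
  -- z ≠ 0
  have hz0 : z ≠ 0 := by
    rintro rfl
    apply hstab _ _ hz
    intro i
    simpa using hw i
  have hslit : z ∈ Complex.slitPlane := by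
    rw [Complex.mem_slitPlane_iff]
    by_contra h
    push Not at h
    apply hcon
    refine ⟨h.2, lt_of_le_of_ne h.1 ?_⟩
    intro hre
    apply hz0
    apply Complex.ext <;> simp [hre, h.2]
  obtain ⟨s, hs, hss⟩ := exists_sqrt z hslit
  set u := (starRingEnd ℂ) s with hu
  have hne := hstab (fun i => u * ((w i : ℂ) + z * (a i k : ℂ))) (by
    intro i
    have h1 : u * ((w i : ℂ) + z * (a i k : ℂ)) = u * (w i : ℂ) + (u * s) * s * (a i k : ℂ) := by
      rw [← hss]; ring
    have h2 : u * s = ((Complex.normSq s : ℝ) : ℂ) := by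
      rw [hu, mul_comm, Complex.mul_conj]
    rw [h1, h2]
    have hns : 0 < Complex.normSq s := by
      rw [Complex.normSq_pos]
      rintro rfl
      simp at hs
    have h3 : (u * (w i : ℂ) + ((Complex.normSq s : ℝ) : ℂ) * s * (a i k : ℂ)).re
        = s.re * w i + Complex.normSq s * s.re * a i k := by
      simp [hu]
    rw [h3]
    have := mul_pos hs (hw i)
    have := mul_pos (mul_pos hns hs) (ha i k)
    linarith)
  apply hne
  rw [mper_smul _ (by omega), hz, mul_zero]

/-- The exponential upper bound along a line. -/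
lemma line_bound (a : Matrix (Fin n) (Fin n) ℝ) (ha : ∀ i j, 0 < a i j) (k : Fin n)
    (w : Fin n → ℝ) (hw : ∀ i, 0 < w i) (t : ℝ) (ht : 0 ≤ t) :
    mper (k.val + 1) (fun i => w i + t * a i k) a ≤
      mper (k.val + 1) w a * Real.exp (t * (((k.val : ℝ) + 1) * mper k.val w a /
        mper (k.val + 1) w a)) := by
  set A : Matrix (Fin n) (Fin n) ℂ := fun i j => (a i j : ℂ) with hA
  set W : Fin n → ℂ := fun i => (w i : ℂ) with hW
  set Q : ℂ[X] := linePoly k W A with hQ
  have hQt : Q.eval (t : ℂ) = ((mper (k.val + 1) (fun i => w i + t * a i k) a : ℝ) : ℂ) := by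
    rw [hQ, eval_linePoly, mper_ofReal]
    simp [hW, hA]
  have hQ0 : Q.eval 0 = ((mper (k.val + 1) w a : ℝ) : ℂ) := by
    rw [hQ, eval_linePoly, mper_ofReal]
    simp [hW, hA]
  have hQd : Q.derivative.eval 0 = (((k.val : ℝ) + 1) * mper k.val w a : ℝ) := by
    rw [hQ, eval_derivative_linePoly]
    push_cast
    rw [mper_ofReal]
  have hroots : ∀ z ∈ Q.roots, z.im = 0 ∧ z.re < 0 := by
    intro z hz
    exact root_neg a ha k w hw z (Polynomial.isRoot_of_mem_roots hz)
  have hp0 : 0 < mper (k.val + 1) w a := mper_pos _ w a hw ha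
  have hp1 : 0 < mper k.val w a := mper_pos _ w a hw ha
  have hQ0ne : Q.eval 0 ≠ 0 := by
    rw [hQ0]
    exact_mod_cast hp0.ne'
  have hsplit : Q.Splits := IsAlgClosed.splits _
  -- ratio of values
  have hratio : ‖Q.eval (t : ℂ)‖ = ‖Q.eval 0‖ * (Q.roots.map (fun z => ‖1 - (t : ℂ) / z‖)).prod := by
    rw [hsplit.eval_eq_prod_roots, hsplit.eval_eq_prod_roots (0 : ℂ), norm_mul, norm_mul,
      mul_assoc]
    congr 1
    have e1 : ‖(Q.roots.map (fun x => (t : ℂ) - x)).prod‖
        = (Q.roots.map (fun x => ‖(t : ℂ) - x‖)).prod := by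
      have := map_multiset_prod (normHom (α := ℂ)) (Q.roots.map (fun x => (t : ℂ) - x))
      simpa [Multiset.map_map, Function.comp_def] using this
    have e2 : ‖(Q.roots.map (fun x => (0 : ℂ) - x)).prod‖
        = (Q.roots.map (fun x => ‖(0 : ℂ) - x‖)).prod := by
      have := map_multiset_prod (normHom (α := ℂ)) (Q.roots.map (fun x => (0 : ℂ) - x))
      simpa [Multiset.map_map, Function.comp_def] using this
    rw [e1, e2, ← Multiset.prod_map_mul]
    apply congrArg
    apply Multiset.map_congr rfl
    intro z hz
    have hz0 : z ≠ 0 := by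
      rintro rfl
      have := (hroots 0 hz).2
      simp at this
    rw [← norm_mul]
    congr 1
    field_simp
    ring
  have hbound : ∀ z ∈ Q.roots, ‖1 - (t : ℂ) / z‖ ≤ Real.exp (t * (1 / (0 - z)).re) := by
    intro z hz
    obtain ⟨him, hre⟩ := hroots z hz
    have hzr : z = (z.re : ℂ) := by
      apply Complex.ext <;> simp [him]
    rw [hzr]
    have e1 : (1 : ℂ) - (t : ℂ) / (z.re : ℂ) = ((1 - t / z.re : ℝ) : ℂ) := by push_cast; rfl
    have e2 : (1 : ℂ) / (0 - (z.re : ℂ)) = ((1 / (0 - z.re) : ℝ) : ℂ) := by push_cast; rfl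
    rw [e1, e2, Complex.ofReal_re, Complex.norm_real, Real.norm_eq_abs]
    have h1 : 0 ≤ -(t / z.re) := by
      rw [← div_neg]
      apply div_nonneg ht
      linarith
    rw [abs_of_nonneg (by linarith)]
    have h2 : t * (1 / (0 - z.re)) = -(t / z.re) := by
      have : z.re ≠ 0 := hre.ne
      rw [zero_sub, one_div, inv_neg]; ring
    rw [h2]
    have := Real.add_one_le_exp (-(t / z.re))
    linarith
  have hprod : (Q.roots.map (fun z => ‖1 - (t : ℂ) / z‖)).prod ≤
      Real.exp (t * ((Q.roots.map (fun z => 1 / (0 - z))).sum).re) := by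
    have e1 : t * ((Q.roots.map (fun z => 1 / (0 - z))).sum).re =
        (Q.roots.map (fun z => t * (1 / (0 - z)).re)).sum := by
      rw [Multiset.sum_map_mul_left]
      congr 1
      have := map_multiset_sum Complex.reAddGroupHom (Q.roots.map (fun z => 1 / (0 - z)))
      simpa [Multiset.map_map, Function.comp_def] using this
    rw [e1, Real.exp_multiset_sum, Multiset.map_map]
    apply Multiset.prod_map_le_prod_map₀
    · intro z _
      exact norm_nonneg _
    · intro z hz
      exact hbound z hz
  have hsum := hsplit.eval_derivative_div_eval_of_ne_zero hQ0ne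
  rw [hQd, hQ0] at hsum
  have hfin : ‖Q.eval (t : ℂ)‖ ≤ ‖Q.eval 0‖ *
      Real.exp (t * ((Q.roots.map (fun z => 1 / (0 - z))).sum).re) := by
    rw [hratio]
    exact mul_le_mul_of_nonneg_left hprod (norm_nonneg _)
  rw [← hsum, hQt, hQ0, Complex.norm_real, Complex.norm_real, Real.norm_eq_abs, Real.norm_eq_abs,
    abs_of_pos hp0, ← Complex.ofReal_div, Complex.ofReal_re] at hfin
  exact (le_abs_self _).trans hfin

/-- the partial combination `∑_{j<k} x_j a_j` -/
noncomputable def partialComb (a : Matrix (Fin n) (Fin n) ℝ) (x : Fin n → ℝ) (k : ℕ) :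
    Fin n → ℝ :=
  fun i => ∑ j ∈ univ.filter (fun j : Fin n => j.val < k), x j * a i j

lemma partialComb_succ (a : Matrix (Fin n) (Fin n) ℝ) (x : Fin n → ℝ) (k : Fin n) :
    partialComb a x (k.val + 1) = fun i => partialComb a x k.val i + x k * a i k := by
  funext i
  unfold partialComb
  have : univ.filter (fun j : Fin n => j.val < k.val + 1) =
      insert k (univ.filter (fun j : Fin n => j.val < k.val)) := by
    ext j
    simp only [mem_filter, mem_univ, true_and, mem_insert, Fin.ext_iff]
    omega
  rw [this, Finset.sum_insert (by simp)]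
  ring

lemma partialProd_succ (x : Fin n → ℝ) (k : Fin n) :
    ∏ j ∈ univ.filter (fun j : Fin n => j.val < k.val + 1), x j
      = (∏ j ∈ univ.filter (fun j : Fin n => j.val < k.val), x j) * x k := by
  have : univ.filter (fun j : Fin n => j.val < k.val + 1) =
      insert k (univ.filter (fun j : Fin n => j.val < k.val)) := by
    ext j
    simp only [mem_filter, mem_univ, true_and, mem_insert, Fin.ext_iff]
    omega
  rw [this, Finset.prod_insert (by simp)]
  ring

lemma partialComb_pos (a : Matrix (Fin n) (Fin n) ℝ) (ha : ∀ i j, 0 < a i j) (x : Fin n → ℝ)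
    (hx : ∀ j, 0 < x j) (k : ℕ) (hk : 0 < k) (hn : 0 < n) (i : Fin n) :
    0 < partialComb a x k i := by
  unfold partialComb
  apply Finset.sum_pos
  · intro j _
    exact mul_pos (hx j) (ha i j)
  · exact ⟨⟨0, hn⟩, by simpa using hk⟩

/-- The capacity recursion. -/
lemma cap_step (a : Matrix (Fin n) (Fin n) ℝ) (ha : ∀ i j, 0 < a i j) (c : ℝ)
    (hc : 0 < c)
    (hcap : ∀ x : Fin n → ℝ, (∀ j, 0 < x j) → c * ∏ j, x j ≤ ∏ i, ∑ j, x j * a i j)
    (m : ℕ) : ∀ k, k + m = n → 0 < k → ∀ x : Fin n → ℝ, (∀ j, 0 < x j) →
      Real.exp (-(m : ℝ)) * k.factorial * c *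
        ∏ j ∈ univ.filter (fun j : Fin n => j.val < k), x j ≤ mper k (partialComb a x k) a := by
  induction m with
  | zero =>
    intro k hk hk0 x hx
    have hk' : k = n := by omega
    subst hk'
    rw [mper_top]
    have h1 : univ.filter (fun j : Fin k => j.val < k) = univ := by
      ext j; simp
    have h2 : ∏ i, partialComb a x k i = ∏ i, ∑ j, x j * a i j := by
      apply Finset.prod_congr rfl
      intro i _
      unfold partialComb
      rw [h1]
    rw [h1, h2]
    simp only [Nat.cast_zero, neg_zero, Real.exp_zero, one_mul]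
    rw [mul_assoc]
    exact mul_le_mul_of_nonneg_left (hcap x hx) (by positivity)
  | succ m ih =>
    intro k hk hk0 x hx
    have hkn : k < n := by omega
    have hn : 0 < n := by omega
    set K : Fin n := ⟨k, hkn⟩ with hK
    have ih' := ih (k + 1) (by omega) (by omega)
    set w := partialComb a x k with hw
    have hwpos : ∀ i, 0 < w i := fun i => partialComb_pos a ha x hx k hk0 hn i
    have hp0 : 0 < mper (k + 1) w a := mper_pos _ w a hwpos ha
    have hp1 : 0 < mper k w a := mper_pos _ w a hwpos ha
    set α := ((k : ℝ) + 1) * mper k w a / mper (k + 1) w a with hα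
    have hαpos : 0 < α := by positivity
    -- choose t = 1/α
    set t := 1 / α with ht
    have htpos : 0 < t := by positivity
    have hline := line_bound a ha K w hwpos t htpos.le
    have hKv : K.val = k := rfl
    simp only [hKv] at hline
    rw [← hα] at hline
    have hta : t * α = 1 := by rw [ht]; field_simp
    rw [hta] at hline
    -- lower bound
    set y : Fin n → ℝ := Function.update x K t with hy
    have hypos : ∀ j, 0 < y j := by
      intro j
      rw [hy]
      by_cases hj : j = K
      · rw [hj]; simpa using htpos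
      · rw [Function.update_of_ne hj]; exact hx j
    have hlow := ih' y hypos
    have hne : ∀ j ∈ univ.filter (fun j : Fin n => j.val < k), y j = x j := by
      intro j hj
      rw [hy, Function.update_of_ne]
      intro h
      rw [h] at hj
      simp [hK] at hj
    have hyK : y K = t := by rw [hy]; simp
    have hprod : ∏ j ∈ univ.filter (fun j : Fin n => j.val < k + 1), y j =
        (∏ j ∈ univ.filter (fun j : Fin n => j.val < k), x j) * t := by
      have := partialProd_succ y K
      simp only [hKv] at this
      rw [this, hyK, Finset.prod_congr rfl hne]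
    have hcomb : partialComb a y (k + 1) = fun i => w i + t * a i K := by
      have := partialComb_succ a y K
      simp only [hKv] at this
      rw [this, hyK]
      funext i
      congr 1
      rw [hw]
      unfold partialComb
      apply Finset.sum_congr rfl
      intro j hj
      rw [hne j hj]
    rw [hprod, hcomb] at hlow
    have hchain := hlow.trans hline
    -- now multiply by α
    set P := ∏ j ∈ univ.filter (fun j : Fin n => j.val < k), x j with hP
    have h1 : Real.exp (-(m : ℝ)) * ((k + 1).factorial : ℝ) * c * (P * t) * α ≤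
        mper (k + 1) w a * Real.exp 1 * α :=
      mul_le_mul_of_nonneg_right hchain hαpos.le
    have h2 : Real.exp (-(m : ℝ)) * ((k + 1).factorial : ℝ) * c * (P * t) * α =
        Real.exp (-(m : ℝ)) * ((k + 1).factorial : ℝ) * c * P := by
      calc _ = Real.exp (-(m : ℝ)) * ((k + 1).factorial : ℝ) * c * P * (t * α) := by ring
        _ = _ := by rw [hta, mul_one]
    have h3 : mper (k + 1) w a * Real.exp 1 * α = Real.exp 1 * (((k : ℝ) + 1) * mper k w a) := by
      rw [hα]; field_simp
    rw [h2, h3, Nat.factorial_succ] at h1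
    push_cast at h1
    have h4 : Real.exp (-((m : ℝ) + 1)) = Real.exp (-(m : ℝ)) * Real.exp (-1) := by
      rw [← Real.exp_add]; congr 1; ring
    push_cast
    rw [h4]
    have h5 : Real.exp (-1) * Real.exp 1 = 1 := by rw [← Real.exp_add]; simp
    have h6 : (0 : ℝ) < (k : ℝ) + 1 := by positivity
    -- multiply h1 by exp(-1)/(k+1)
    have h7 := mul_le_mul_of_nonneg_left h1 (Real.exp_pos (-1)).le
    have h8 : Real.exp (-1) * (Real.exp 1 * (((k : ℝ) + 1) * mper k w a)) =
        ((k : ℝ) + 1) * mper k w a := by
      rw [← mul_assoc, h5, one_mul]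
    rw [h8] at h7
    have h9 : Real.exp (-1) * (Real.exp (-(m : ℝ)) * (((k : ℝ) + 1) * (k.factorial : ℝ)) * c * P)
        = ((k : ℝ) + 1) * (Real.exp (-(m : ℝ)) * Real.exp (-1) * (k.factorial : ℝ) * c * P) := by
      ring
    rw [h9] at h7
    exact le_of_mul_le_mul_left h7 h6

/-- Lower bound for the permanent of a positive matrix in terms of its capacity. -/
theorem permanent_lower (a : Matrix (Fin n) (Fin n) ℝ) (ha : ∀ i j, 0 < a i j) (c : ℝ)
    (hc : 0 < c)
    (hcap : ∀ x : Fin n → ℝ, (∀ j, 0 < x j) → c * ∏ j, x j ≤ ∏ i, ∑ j, x j * a i j) :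
    Real.exp (-(n : ℝ)) * c ≤ a.permanent := by
  rcases Nat.eq_zero_or_pos n with hn | hn
  · subst hn
    have := hcap (fun _ => 1) (fun _ => one_pos)
    simp at this
    rw [Matrix.permanent_isEmpty]
    simpa using this
  · have h := cap_step a ha c hc hcap (n - 1) 1 (by omega) one_pos (fun _ => 1)
      (fun _ => one_pos)
    have h1 : partialComb a (fun _ => 1) 1 = fun i => a i ⟨0, hn⟩ := by
      have := partialComb_succ a (fun _ => 1) ⟨0, hn⟩
      simp only [zero_add] at this
      rw [this]
      funext i
      unfold partialComb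
      simp
    rw [h1, mper_one_col hn] at h
    simp only [Nat.factorial_one, Nat.cast_one, mul_one, prod_const_one] at h
    refine le_trans ?_ h
    apply mul_le_mul_of_nonneg_right _ hc.le
    apply Real.exp_le_exp.mpr
    have : ((n - 1 : ℕ) : ℝ) ≤ n := by exact_mod_cast Nat.sub_le n 1
    linarith

end complex

end Pool.Agent.MP_79d3d7_an
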