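import Mathlib
import Pool.Agent.MP_79d3d7_an.Bregman

/-! Upper bound for permanents of matrices with entries in `[0,1]`, and its asymptotic form. -/

open Finset

namespace Pool.Agent.MP_79d3d7_an

/-- `n! ≤ e n (n/e)^n` for `n ≥ 1`. -/
lemma factorial_upper (n : ℕ) :
    ((n + 1).factorial : ℝ) ≤ Real.exp 1 * (n + 1) * ((n + 1) / Real.exp 1) ^ (n + 1) := by
  induction n with
  | zero => simp
  | succ n ih =>
    have hn : (0 : ℝ) < (n : ℝ) + 1 := by positivity
    have he : 0 < Real.exp 1 := Real.exp_pos 1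
    rw [Nat.factorial_succ]
    push_cast at ih ⊢
    -- key inequality : e * (n+1)^(n+2) ≤ (n+2)^(n+2)
    have hkey : Real.exp 1 * ((n : ℝ) + 1) ^ (n + 2) ≤ ((n : ℝ) + 1 + 1) ^ (n + 2) := by
      have h1 : Real.log (((n : ℝ) + 1) / (n + 1 + 1)) ≤ ((n : ℝ) + 1) / (n + 1 + 1) - 1 :=
        Real.log_le_sub_one_of_pos (by positivity)
      have h2 : (1 : ℝ) ≤ (n + 2) * (Real.log (n + 1 + 1) - Real.log (n + 1)) := by
        rw [Real.log_div (by positivity) (by positivity)] at h1
        have h3 : ((n : ℝ) + 1) / (n + 1 + 1) - 1 = - (1 / (n + 2)) := by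
          field_simp; ring
        rw [h3] at h1
        have h4 : 1 / ((n : ℝ) + 2) ≤ Real.log (n + 1 + 1) - Real.log (n + 1) := by linarith
        calc (1 : ℝ) = (n + 2) * (1 / ((n : ℝ) + 2)) := by field_simp
          _ ≤ _ := by gcongr
      have h5 : Real.exp 1 ≤ Real.exp ((n + 2) * (Real.log (n + 1 + 1) - Real.log (n + 1))) :=
        Real.exp_le_exp.mpr h2
      have h6 : Real.exp ((n + 2) * (Real.log (n + 1 + 1) - Real.log (n + 1)))
          = ((n : ℝ) + 1 + 1) ^ (n + 2) / ((n : ℝ) + 1) ^ (n + 2) := by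
        rw [← Real.log_div (by positivity) (by positivity), mul_comm, Real.exp_mul,
          Real.exp_log (by positivity)]
        rw [← div_pow, ← Real.rpow_natCast]
        push_cast
        rfl
      rw [h6, le_div_iff₀ (by positivity)] at h5
      exact h5
    calc ((n : ℝ) + 1 + 1) * ((n + 1).factorial : ℝ)
        ≤ ((n : ℝ) + 1 + 1) * (Real.exp 1 * (n + 1) * ((n + 1) / Real.exp 1) ^ (n + 1)) := by
          gcongr
      _ = Real.exp 1 * (n + 1 + 1) * ((Real.exp 1 * ((n : ℝ) + 1) ^ (n + 2))
            / Real.exp 1 ^ (n + 2)) := by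
          rw [div_pow]
          field_simp
          ring
      _ ≤ Real.exp 1 * (n + 1 + 1) * (((n : ℝ) + 1 + 1) ^ (n + 2) / Real.exp 1 ^ (n + 2)) := by
          gcongr
      _ = _ := by rw [div_pow]

lemma factorial_lower (n : ℕ) : (n : ℝ) ^ n ≤ Real.exp n * n.factorial := by
  have := Real.pow_div_factorial_le_exp (x := (n : ℝ)) (Nat.cast_nonneg n) n
  rw [div_le_iff₀ (by exact_mod_cast Nat.factorial_pos n)] at this
  exact this

/-- upper bound for `breg`: `(r!)^{1/r} ≤ (r/e) (e r)^{1/r}`. -/
lemma breg_upper (r : ℕ) (hr : 0 < r) :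
    breg r ≤ Real.log r - 1 + (1 + Real.log r) / r := by
  obtain ⟨n, rfl⟩ : ∃ n, r = n + 1 := ⟨r - 1, by omega⟩
  unfold breg
  have h := factorial_upper n
  have hpos : (0 : ℝ) < ((n + 1).factorial : ℝ) := by exact_mod_cast Nat.factorial_pos _
  have h1 := Real.log_le_log hpos h
  have hn : (0 : ℝ) < (n : ℝ) + 1 := by positivity
  rw [Real.log_mul (by positivity) (by positivity), Real.log_mul (by positivity) (by positivity),
    Real.log_exp, Real.log_pow, Real.log_div (by positivity) (by positivity), Real.log_exp] at h1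
  push_cast at h1 ⊢
  rw [div_le_iff₀ hn]
  have : (Real.log (n + 1) - 1 + (1 + Real.log (n + 1)) / (n + 1)) * ((n : ℝ) + 1) =
    1 + Real.log (n + 1) + (n + 1) * (Real.log (n + 1) - 1) := by field_simp; ring
  rw [this]
  exact h1

/-- For every `a > 1/e` there is an affine bound `(r!)^{1/r} ≤ a r + C`. -/
lemma exists_affine (ε : ℝ) (hε : 0 < ε) :
    ∃ C : ℝ, 1 ≤ C ∧ ∀ r : ℕ, Real.exp (breg r) ≤ (1 + ε) * Real.exp (-1) * r + C := by
  -- (1 + log r)/r → 0
  have hlim : Filter.Tendsto (fun r : ℕ => Real.exp ((1 + Real.log r) / r)) Filter.atTop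
      (nhds 1) := by
    have h1 : Filter.Tendsto (fun x : ℝ => (1 + Real.log x) / x) Filter.atTop (nhds 0) := by
      have ha : Filter.Tendsto (fun x : ℝ => 1 / x) Filter.atTop (nhds 0) := by
        simpa using tendsto_inv_atTop_zero
      have hb : Filter.Tendsto (fun x : ℝ => Real.log x / x) Filter.atTop (nhds 0) :=
        Real.isLittleO_log_id_atTop.tendsto_div_nhds_zero
      have := ha.add hb
      simp only [add_zero] at this
      refine this.congr (fun x => ?_)
      rw [← add_div]
    have h2 := (Real.continuous_exp.tendsto 0).comp (h1.comp tendsto_natCast_atTop_atTop)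
    rw [Real.exp_zero] at h2
    exact h2
  have hev : ∀ᶠ r : ℕ in Filter.atTop, Real.exp ((1 + Real.log r) / r) < 1 + ε :=
    hlim.eventually (gt_mem_nhds (by linarith))
  obtain ⟨R, hR⟩ := Filter.eventually_atTop.mp hev
  refine ⟨1 + ∑ r ∈ range (R + 1), Real.exp (breg r), ?_, ?_⟩
  · have : 0 ≤ ∑ r ∈ range (R + 1), Real.exp (breg r) :=
      Finset.sum_nonneg fun _ _ => (Real.exp_pos _).le
    linarith
  · intro r
    by_cases hr : r < R + 1
    · have h1 : Real.exp (breg r) ≤ ∑ r ∈ range (R + 1), Real.exp (breg r) :=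
        Finset.single_le_sum (f := fun r => Real.exp (breg r)) (fun _ _ => (Real.exp_pos _).le)
          (Finset.mem_range.mpr hr)
      have h2 : 0 ≤ (1 + ε) * Real.exp (-1) * r := by positivity
      linarith
    · have hrR : R ≤ r := by omega
      have hr0 : 0 < r := by omega
      have hrpos : (0 : ℝ) < r := by exact_mod_cast hr0
      have h1 := Real.exp_le_exp.mpr (breg_upper r hr0)
      have h2 : Real.exp (Real.log r - 1 + (1 + Real.log r) / r) =
          r * Real.exp (-1) * Real.exp ((1 + Real.log r) / r) := by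
        rw [Real.exp_add, sub_eq_add_neg, Real.exp_add, Real.exp_log hrpos]
      rw [h2] at h1
      have h3 := (hR r hrR).le
      have h4 : (r : ℝ) * Real.exp (-1) * Real.exp ((1 + Real.log r) / r) ≤
          r * Real.exp (-1) * (1 + ε) := by gcongr
      have h5 : 0 ≤ ∑ r ∈ range (R + 1), Real.exp (breg r) :=
        Finset.sum_nonneg fun _ _ => (Real.exp_pos _).le
      linarith

section weights

variable {n : ℕ}

/-- weight of a subset under independent Bernoulli variables with means `m` -/
noncomputable def wt (m : Fin n → ℝ) (T : Finset (Fin n)) : ℝ :=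
  (∏ k ∈ T, m k) * ∏ k ∈ univ \ T, (1 - m k)

lemma wt_nonneg (m : Fin n → ℝ) (h0 : ∀ k, 0 ≤ m k) (h1 : ∀ k, m k ≤ 1) (T : Finset (Fin n)) :
    0 ≤ wt m T := by
  unfold wt
  apply mul_nonneg
  · exact Finset.prod_nonneg fun k _ => h0 k
  · exact Finset.prod_nonneg fun k _ => by linarith [h1 k]

lemma wt_sum (m : Fin n → ℝ) : ∑ T, wt m T = 1 := by
  have := Finset.prod_add m (fun k => 1 - m k) (univ : Finset (Fin n))
  simp only [add_sub_cancel, prod_const_one, powerset_univ] at this
  unfold wt
  exact this.symm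

lemma wt_sum_mem (m : Fin n → ℝ) (k₀ : Fin n) :
    ∑ T, wt m T * (if k₀ ∈ T then 1 else 0) = m k₀ := by
  have h := Finset.prod_add m (fun k => if k = k₀ then 0 else 1 - m k) (univ : Finset (Fin n))
  have h1 : ∏ i, (m i + if i = k₀ then 0 else 1 - m i) = m k₀ := by
    rw [← Finset.mul_prod_erase univ _ (Finset.mem_univ k₀)]
    simp only [if_true, add_zero]
    rw [Finset.prod_eq_one, mul_one]
    intro i hi
    rw [if_neg (Finset.ne_of_mem_erase hi)]
    ring
  rw [h1] at h
  rw [h, powerset_univ]
  apply Finset.sum_congr rfl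
  intro T _
  unfold wt
  by_cases hk : k₀ ∈ T
  · simp only [hk, if_true, mul_one]
    congr 1
    apply Finset.prod_congr rfl
    intro k hk'
    rw [if_neg]
    rintro rfl
    simp [hk] at hk'
  · simp only [hk, if_false, mul_zero]
    rw [Finset.prod_eq_zero (i := k₀) (s := univ \ T)]
    · simp
    · simp [hk]
    · simp

lemma wt_sum_card (m : Fin n → ℝ) :
    ∑ T, wt m T * (T.card : ℝ) = ∑ k, m k := by
  have : ∀ T : Finset (Fin n), (T.card : ℝ) = ∑ k, (if k ∈ T then (1 : ℝ) else 0) := by
    intro T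
    simp
  simp_rw [this, Finset.mul_sum]
  rw [Finset.sum_comm]
  exact Finset.sum_congr rfl fun k _ => wt_sum_mem m k

/-- The permanent of a matrix with entries in `[0,1]`. -/
theorem permanent_le_prod_affine (M : Matrix (Fin n) (Fin n) ℝ) (h0 : ∀ i j, 0 ≤ M i j)
    (h1 : ∀ i j, M i j ≤ 1) (a C : ℝ)
    (hβ : ∀ r : ℕ, Real.exp (breg r) ≤ a * r + C) :
    M.permanent ≤ ∏ i, (a * (∑ k, M k i) + C) := by
  classical
  have e1 : M.permanent = ∑ R : Fin n → Finset (Fin n),
      (∏ i, wt (fun k => M k i) (R i)) * ((compat R).card : ℝ) := by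
    unfold Matrix.permanent
    have : ∀ σ : Equiv.Perm (Fin n), ∏ i, M (σ i) i = ∑ R : Fin n → Finset (Fin n),
        (∏ i, wt (fun k => M k i) (R i)) * (if σ ∈ compat R then 1 else 0) := by
      intro σ
      have h2 : ∀ i, M (σ i) i = ∑ T, wt (fun k => M k i) T * (if σ i ∈ T then 1 else 0) :=
        fun i => (wt_sum_mem (fun k => M k i) (σ i)).symm
      rw [Finset.prod_congr rfl (fun i _ => h2 i), Finset.prod_univ_sum]
      rw [Fintype.piFinset_univ]
      apply Finset.sum_congr rfl
      intro R _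
      rw [Finset.prod_mul_distrib]
      congr 1
      by_cases hσ : σ ∈ compat R
      · rw [if_pos hσ]
        apply Finset.prod_eq_one
        intro i _
        rw [if_pos (mem_compat.mp hσ i)]
      · rw [if_neg hσ]
        rw [mem_compat] at hσ
        push Not at hσ
        obtain ⟨i, hi⟩ := hσ
        apply Finset.prod_eq_zero (Finset.mem_univ i)
        rw [if_neg hi]
    rw [Finset.sum_congr rfl (fun σ _ => this σ), Finset.sum_comm]
    apply Finset.sum_congr rfl
    intro R _
    rw [← Finset.mul_sum]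
    congr 1
    simp
  have e2 : ∀ R : Fin n → Finset (Fin n), ((compat R).card : ℝ) ≤
      ∏ i, (a * ((R i).card : ℝ) + C) := by
    intro R
    have hpos : ∀ i, 0 < a * ((R i).card : ℝ) + C := fun i =>
      lt_of_lt_of_le (Real.exp_pos _) (hβ _)
    rcases Nat.eq_zero_or_pos (compat R).card with h | h
    · rw [h]
      simp only [Nat.cast_zero]
      exact Finset.prod_nonneg fun i _ => (hpos i).le
    · have h2 := bregman_log n (Fin n) (Fin n) R (Fintype.card_fin n) h
      have h3 : ((compat R).card : ℝ) ≤ Real.exp (∑ i, breg (R i).card) := by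
        rw [← Real.log_le_iff_le_exp (by exact_mod_cast h)]
        exact h2
      rw [Real.exp_sum] at h3
      refine h3.trans (Finset.prod_le_prod (fun i _ => (Real.exp_pos _).le) fun i _ => hβ _)
  rw [e1]
  calc ∑ R : Fin n → Finset (Fin n),
      (∏ i, wt (fun k => M k i) (R i)) * ((compat R).card : ℝ)
      ≤ ∑ R : Fin n → Finset (Fin n),
      (∏ i, wt (fun k => M k i) (R i)) * ∏ i, (a * ((R i).card : ℝ) + C) := by
        apply Finset.sum_le_sum
        intro R _
        apply mul_le_mul_of_nonneg_left (e2 R)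
        exact Finset.prod_nonneg fun i _ => wt_nonneg _ (fun k => h0 k i) (fun k => h1 k i) _
    _ = ∑ R : Fin n → Finset (Fin n),
      ∏ i, (wt (fun k => M k i) (R i) * (a * ((R i).card : ℝ) + C)) := by
        apply Finset.sum_congr rfl
        intro R _
        rw [Finset.prod_mul_distrib]
    _ = ∏ i, ∑ T, (wt (fun k => M k i) T * (a * (T.card : ℝ) + C)) := by
        rw [Finset.prod_univ_sum, Fintype.piFinset_univ]
    _ = ∏ i, (a * (∑ k, M k i) + C) := by
        apply Finset.prod_congr rfl
        intro i _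
        have := wt_sum_card (fun k => M k i)
        have h5 := wt_sum (fun k => M k i)
        calc ∑ T, wt (fun k => M k i) T * (a * (T.card : ℝ) + C)
            = a * ∑ T, wt (fun k => M k i) T * (T.card : ℝ) +
              C * ∑ T, wt (fun k => M k i) T := by
              rw [Finset.mul_sum, Finset.mul_sum, ← Finset.sum_add_distrib]
              apply Finset.sum_congr rfl
              intro T _
              ring
          _ = _ := by rw [this, h5]; ring

end weights

end Pool.Agent.MP_79d3d7_an
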