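import Mathlib
import Pool.Agent.MP_79d3d7_an.PermUpper
import Pool.Agent.MP_79d3d7_an.Gurvits

/-! Two-sided bounds for the permanental mean of matrices with entries in `[κ, K]`. -/

open Finset

namespace Pool.Agent.MP_79d3d7_an

/-- The permanental mean `(per B / N!)^{1/N}`. -/
noncomputable def pmean {n : ℕ} (B : Matrix (Fin n) (Fin n) ℝ) : ℝ :=
  (B.permanent / (n.factorial : ℝ)) ^ ((1 : ℝ) / n)

variable {n : ℕ}

lemma permanent_nonneg (B : Matrix (Fin n) (Fin n) ℝ) (hB : ∀ i j, 0 ≤ B i j) :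
    0 ≤ B.permanent := by
  unfold Matrix.permanent
  exact Finset.sum_nonneg fun σ _ => Finset.prod_nonneg fun i _ => hB _ _

lemma pmean_nonneg (B : Matrix (Fin n) (Fin n) ℝ) (hB : ∀ i j, 0 ≤ B i j) : 0 ≤ pmean B := by
  unfold pmean
  apply Real.rpow_nonneg
  exact div_nonneg (permanent_nonneg B hB) (Nat.cast_nonneg _)

lemma pmean_le_of (hn : 0 < n) (B : Matrix (Fin n) (Fin n) ℝ) (hB : ∀ i j, 0 ≤ B i j) (y : ℝ)
    (hy : 0 ≤ y) (h : B.permanent ≤ n.factorial * y ^ n) : pmean B ≤ y := by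
  unfold pmean
  have hf : (0 : ℝ) < n.factorial := by exact_mod_cast Nat.factorial_pos n
  have h1 : B.permanent / (n.factorial : ℝ) ≤ y ^ n := by
    rw [div_le_iff₀ hf]; linarith
  have h0 : 0 ≤ B.permanent / (n.factorial : ℝ) := div_nonneg (permanent_nonneg B hB) hf.le
  calc (B.permanent / (n.factorial : ℝ)) ^ ((1 : ℝ) / n) ≤ (y ^ n) ^ ((1 : ℝ) / n) :=
        Real.rpow_le_rpow h0 h1 (by positivity)
    _ = y := by
        rw [one_div, Real.pow_rpow_inv_natCast hy hn.ne']

lemma le_pmean_of (hn : 0 < n) (B : Matrix (Fin n) (Fin n) ℝ) (y : ℝ)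
    (hy : 0 ≤ y) (h : n.factorial * y ^ n ≤ B.permanent) : y ≤ pmean B := by
  unfold pmean
  have hf : (0 : ℝ) < n.factorial := by exact_mod_cast Nat.factorial_pos n
  have h1 : y ^ n ≤ B.permanent / (n.factorial : ℝ) := by
    rw [le_div_iff₀ hf]; linarith
  calc y = (y ^ n) ^ ((1 : ℝ) / n) := by rw [one_div, Real.pow_rpow_inv_natCast hy hn.ne']
    _ ≤ _ := Real.rpow_le_rpow (by positivity) h1 (by positivity)

/-- AM-GM in the form `∏ S ≤ (∑ S / n)^n`. -/
lemma prod_le_mean_pow (hn : 0 < n) (S : Fin n → ℝ) (hS : ∀ i, 0 ≤ S i) :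
    ∏ i, S i ≤ ((∑ i, S i) / n) ^ n := by
  have hn' : (0 : ℝ) < n := by exact_mod_cast hn
  have h := Real.geom_mean_le_arith_mean_weighted (univ : Finset (Fin n)) (fun _ => (1 : ℝ) / n) S
    (fun _ _ => by positivity) (by simp; field_simp) (fun i _ => hS i)
  have e1 : ∏ i, S i ^ ((1 : ℝ) / n) = (∏ i, S i) ^ ((1 : ℝ) / n) := by
    rw [← Real.finset_prod_rpow _ _ (fun i _ => hS i)]
  rw [e1, ← Finset.mul_sum] at h
  have h2 := pow_le_pow_left₀ (Real.rpow_nonneg (Finset.prod_nonneg fun i _ => hS i) _) h n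
  rw [one_div, Real.rpow_inv_natCast_pow (Finset.prod_nonneg fun i _ => hS i) hn.ne'] at h2
  rwa [inv_mul_eq_div] at h2

/-- Upper bound. -/
theorem pmean_upper (κ K : ℝ) (hκ : 0 < κ) (hK : κ ≤ K) (ε : ℝ) (hε : 0 < ε) :
    ∃ C' : ℝ, 0 ≤ C' ∧ ∀ n : ℕ, 0 < n → ∀ B : Matrix (Fin n) (Fin n) ℝ,
      (∀ i j, κ ≤ B i j) → (∀ i j, B i j ≤ K) →
      pmean B ≤ (1 + ε) * (1 + C' / n) * ((∑ i, ∑ j, B i j) / (n : ℝ) ^ 2) := by
  obtain ⟨C, hC1, hC⟩ := exists_affine ε hε
  set a := (1 + ε) * Real.exp (-1) with ha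
  have hapos : 0 < a := by positivity
  have hKpos : 0 < K := lt_of_lt_of_le hκ hK
  refine ⟨C * K / (a * κ), by positivity, ?_⟩
  intro n hn B hBκ hBK
  have hn' : (0 : ℝ) < n := by exact_mod_cast hn
  have hB0 : ∀ i j, 0 ≤ B i j := fun i j => hκ.le.trans (hBκ i j)
  set C' := C * K / (a * κ) with hC'
  have hC'0 : 0 ≤ C' := by positivity
  -- rescale
  have h1 := permanent_le_prod_affine (K⁻¹ • B) (fun i j => by
      simp only [Matrix.smul_apply, smul_eq_mul]
      exact mul_nonneg (inv_nonneg.mpr hKpos.le) (hB0 i j)) (fun i j => by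
      simp only [Matrix.smul_apply, smul_eq_mul]
      rw [inv_mul_le_iff₀ hKpos, mul_one]
      exact hBK i j) a C hC
  rw [Matrix.permanent_smul, Fintype.card_fin] at h1
  have h2 : B.permanent ≤ K ^ n * ∏ i, (a * (∑ k, (K⁻¹ • B) k i) + C) := by
    have := mul_le_mul_of_nonneg_left h1 (pow_nonneg hKpos.le n)
    rw [← mul_assoc, ← mul_pow, mul_inv_cancel₀ hKpos.ne', one_pow, one_mul] at this
    exact this
  have h3 : K ^ n * ∏ i : Fin n, (a * (∑ k, (K⁻¹ • B) k i) + C)
      = ∏ i : Fin n, (a * (∑ k, B k i) + C * K) := by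
    have hKn : K ^ n = ∏ _i : Fin n, K := by simp
    rw [hKn, ← Finset.prod_mul_distrib]
    apply Finset.prod_congr rfl
    intro i _
    simp only [Matrix.smul_apply, smul_eq_mul]
    rw [← Finset.mul_sum]
    field_simp
  rw [h3] at h2
  have hSpos : ∀ i : Fin n, n * κ ≤ ∑ k, B k i := by
    intro i
    have := Finset.sum_le_sum (fun k (_ : k ∈ (univ : Finset (Fin n))) => hBκ k i)
    simpa using this
  have h4 : ∏ i : Fin n, (a * (∑ k, B k i) + C * K) ≤
      ∏ i : Fin n, (a * (1 + C' / n) * (∑ k, B k i)) := by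
    apply Finset.prod_le_prod
    · intro i _
      have := (mul_pos hn' hκ).le.trans (hSpos i)
      positivity
    · intro i _
      have h5 := hSpos i
      have h6 : C * K ≤ a * (C' / n) * (∑ k, B k i) := by
        calc C * K = a * (C' / n) * (n * κ) := by rw [hC']; field_simp
          _ ≤ _ := by gcongr
      calc a * (∑ k, B k i) + C * K ≤ a * (∑ k, B k i) + a * (C' / n) * (∑ k, B k i) := by
            linarith
        _ = _ := by ring
  have h5 : ∏ i : Fin n, (a * (1 + C' / n) * (∑ k, B k i)) ≤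
      (a * (1 + C' / n)) ^ n * ((∑ i, ∑ k, B k i) / n) ^ n := by
    rw [Finset.prod_mul_distrib, Finset.prod_const, Finset.card_univ, Fintype.card_fin]
    apply mul_le_mul_of_nonneg_left _ (by positivity)
    apply prod_le_mean_pow hn
    intro i
    exact (mul_pos hn' hκ).le.trans (hSpos i)
  have hsum0 : 0 ≤ ∑ i, ∑ k, B k i := Finset.sum_nonneg fun i _ => Finset.sum_nonneg
    fun k _ => hB0 k i
  have hcomm : ∑ i, ∑ k, B k i = ∑ i, ∑ j, B i j := Finset.sum_comm
  apply pmean_le_of hn B hB0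
  · have : 0 ≤ ∑ i, ∑ j, B i j := by rw [← hcomm]; exact hsum0
    positivity
  · refine (h2.trans (h4.trans h5)).trans ?_
    rw [hcomm] at hsum0 ⊢
    have h7 := factorial_lower n
    have h8 : (a * (1 + C' / n)) ^ n * ((∑ i, ∑ j, B i j) / n) ^ n =
        Real.exp (-(n : ℝ)) * (n : ℝ) ^ n * ((1 + ε) * (1 + C' / n) *
          ((∑ i, ∑ j, B i j) / (n : ℝ) ^ 2)) ^ n := by
      rw [ha, ← mul_pow]
      have e1 : Real.exp (-(n : ℝ)) = Real.exp (-1) ^ n := by
        rw [← Real.exp_nat_mul]; congr 1; ring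
      rw [e1, ← mul_pow, ← mul_pow]
      congr 1
      field_simp
    rw [h8]
    apply mul_le_mul_of_nonneg_right _ (by positivity)
    calc Real.exp (-(n : ℝ)) * (n : ℝ) ^ n ≤ Real.exp (-(n : ℝ)) * (Real.exp n * n.factorial) := by
          gcongr
      _ = n.factorial := by
          rw [← mul_assoc, ← Real.exp_add]; simp

/-- the linearised lower bound -/
lemma bilinear_lower (B : Matrix (Fin n) (Fin n) ℝ)
    (hB : ∀ i j, 0 ≤ B i j) (c L : ℝ) (p q : Fin n → ℝ) (hp : ∑ i, p i = 0)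
    (hq : ∑ j, q j = 0) (hpL : ∀ i, |p i| ≤ L) (hqL : ∀ j, |q j| ≤ L) :
    (∑ i, ∑ j, B i j) - L * ((∑ i, |(∑ j, B i j) - n * c|) + ∑ j, |(∑ i, B i j) - n * c|) ≤
      ∑ i, ∑ j, Real.exp (p i) * B i j * Real.exp (q j) := by
  have h1 : ∑ i, ∑ j, B i j * (1 + p i + q j) ≤
      ∑ i, ∑ j, Real.exp (p i) * B i j * Real.exp (q j) := by
    apply Finset.sum_le_sum
    intro i _
    apply Finset.sum_le_sum
    intro j _
    have : 1 + p i + q j ≤ Real.exp (p i + q j) := by
      have := Real.add_one_le_exp (p i + q j)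
      linarith
    calc B i j * (1 + p i + q j) ≤ B i j * Real.exp (p i + q j) :=
          mul_le_mul_of_nonneg_left this (hB i j)
      _ = _ := by rw [Real.exp_add]; ring
  refine le_trans ?_ h1
  have h2 : ∑ i, ∑ j, B i j * (1 + p i + q j) = (∑ i, ∑ j, B i j) +
      (∑ i, p i * ((∑ j, B i j) - n * c)) + ∑ j, q j * ((∑ i, B i j) - n * c) := by
    have e1 : ∑ i, p i * ((∑ j, B i j) - n * c) = ∑ i, ∑ j, B i j * p i := by
      calc ∑ i, p i * ((∑ j, B i j) - n * c)
          = ∑ i, (p i * (∑ j, B i j) - p i * (n * c)) := by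
            apply Finset.sum_congr rfl; intro i _; ring
        _ = ∑ i, p i * (∑ j, B i j) - (∑ i, p i) * (n * c) := by
            rw [Finset.sum_sub_distrib, Finset.sum_mul]
        _ = ∑ i, ∑ j, B i j * p i := by
            rw [hp, zero_mul, sub_zero]
            apply Finset.sum_congr rfl; intro i _
            rw [Finset.mul_sum]
            apply Finset.sum_congr rfl; intro j _; ring
    have e2 : ∑ j, q j * ((∑ i, B i j) - n * c) = ∑ i, ∑ j, B i j * q j := by
      rw [Finset.sum_comm (f := fun i j => B i j * q j)]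
      calc ∑ j, q j * ((∑ i, B i j) - n * c)
          = ∑ j, (q j * (∑ i, B i j) - q j * (n * c)) := by
            apply Finset.sum_congr rfl; intro i _; ring
        _ = ∑ j, q j * (∑ i, B i j) - (∑ j, q j) * (n * c) := by
            rw [Finset.sum_sub_distrib, Finset.sum_mul]
        _ = _ := by
            rw [hq, zero_mul, sub_zero]
            apply Finset.sum_congr rfl; intro i _
            rw [Finset.mul_sum]
            apply Finset.sum_congr rfl; intro j _; ring
    rw [e1, e2, ← Finset.sum_add_distrib, ← Finset.sum_add_distrib]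
    apply Finset.sum_congr rfl; intro i _
    rw [← Finset.sum_add_distrib, ← Finset.sum_add_distrib]
    apply Finset.sum_congr rfl; intro j _
    ring
  rw [h2]
  have h3 : -(L * ∑ i, |(∑ j, B i j) - n * c|) ≤ ∑ i, p i * ((∑ j, B i j) - n * c) := by
    rw [Finset.mul_sum, ← Finset.sum_neg_distrib]
    apply Finset.sum_le_sum
    intro i _
    have := neg_abs_le (p i * ((∑ j, B i j) - n * c))
    rw [abs_mul] at this
    have h4 := mul_le_mul_of_nonneg_right (hpL i) (abs_nonneg ((∑ j, B i j) - n * c))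
    linarith
  have h4 : -(L * ∑ j, |(∑ i, B i j) - n * c|) ≤ ∑ j, q j * ((∑ i, B i j) - n * c) := by
    rw [Finset.mul_sum, ← Finset.sum_neg_distrib]
    apply Finset.sum_le_sum
    intro j _
    have := neg_abs_le (q j * ((∑ i, B i j) - n * c))
    rw [abs_mul] at this
    have h4 := mul_le_mul_of_nonneg_right (hqL j) (abs_nonneg ((∑ i, B i j) - n * c))
    linarith
  linarith

/-- mean of logs -/
noncomputable def lmean (z : Fin n → ℝ) : ℝ := (∑ i, Real.log (z i)) / n

lemma lmean_dev (hn : 0 < n) (z : Fin n → ℝ) (m M : ℝ) (hm : 0 < m) (hz1 : ∀ i, m ≤ z i)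
    (hz2 : ∀ i, z i ≤ M) (i : Fin n) : |lmean z - Real.log (z i)| ≤ Real.log (M / m) := by
  have hn' : (0 : ℝ) < n := by exact_mod_cast hn
  have hmM : m ≤ M := (hz1 i).trans (hz2 i)
  have hM : 0 < M := lt_of_lt_of_le hm hmM
  have h1 : ∀ i, Real.log m ≤ Real.log (z i) := fun i => Real.log_le_log hm (hz1 i)
  have h2 : ∀ i, Real.log (z i) ≤ Real.log M := fun i =>
    Real.log_le_log (lt_of_lt_of_le hm (hz1 i)) (hz2 i)
  have h3 : Real.log m ≤ lmean z := by
    unfold lmean
    rw [le_div_iff₀ hn']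
    have := Finset.sum_le_sum (fun i (_ : i ∈ (univ : Finset (Fin n))) => h1 i)
    simp at this
    linarith
  have h4 : lmean z ≤ Real.log M := by
    unfold lmean
    rw [div_le_iff₀ hn']
    have := Finset.sum_le_sum (fun i (_ : i ∈ (univ : Finset (Fin n))) => h2 i)
    simp at this
    linarith
  rw [Real.log_div hM.ne' hm.ne', abs_le]
  constructor <;> linarith [h1 i, h2 i]

lemma sum_lmean_sub (hn : 0 < n) (z : Fin n → ℝ) : ∑ i, (lmean z - Real.log (z i)) = 0 := by
  have hn' : (n : ℝ) ≠ 0 := by exact_mod_cast hn.ne'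
  rw [Finset.sum_sub_distrib, Finset.sum_const, Finset.card_univ, Fintype.card_fin, nsmul_eq_mul]
  unfold lmean
  field_simp
  ring

/-- AM-GM: `exp (mean log) ≤ mean`. -/
lemma exp_lmean_le (hn : 0 < n) (z : Fin n → ℝ) (hz : ∀ i, 0 < z i) :
    Real.exp (lmean z) ≤ (∑ i, z i) / n := by
  have hn' : (0 : ℝ) < n := by exact_mod_cast hn
  have h := prod_le_mean_pow hn z (fun i => (hz i).le)
  have h0 : 0 ≤ (∑ i, z i) / n := div_nonneg (Finset.sum_nonneg fun i _ => (hz i).le) hn'.le
  have h1 : Real.exp (lmean z) ^ n = ∏ i, z i := by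
    rw [← Real.exp_nat_mul]
    unfold lmean
    rw [mul_div_cancel₀ _ hn'.ne', Real.exp_sum]
    exact Finset.prod_congr rfl fun i _ => Real.exp_log (hz i)
  rw [← h1] at h
  exact le_of_pow_le_pow_left₀ hn.ne' h0 h

/-- capacity lower bound -/
lemma cap_lower (hn : 0 < n) (B : Matrix (Fin n) (Fin n) ℝ) (κ K : ℝ) (hκ : 0 < κ)
    (hBκ : ∀ i j, κ ≤ B i j) (hBK : ∀ i j, B i j ≤ K) (c v : ℝ) (hv : 0 < v)
    (hvdef : v * (n : ℝ) ^ 2 ≤ (∑ i, ∑ j, B i j) - Real.log (K / κ) *
      ((∑ i, |(∑ j, B i j) - n * c|) + ∑ j, |(∑ i, B i j) - n * c|))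
    (x : Fin n → ℝ) (hx : ∀ j, 0 < x j) :
    (n * v) ^ n * ∏ j, x j ≤ ∏ i, ∑ j, x j * B i j := by
  have hn' : (0 : ℝ) < n := by exact_mod_cast hn
  have hBpos : ∀ i j, 0 < B i j := fun i j => lt_of_lt_of_le hκ (hBκ i j)
  have huniv : (univ : Finset (Fin n)).Nonempty := ⟨⟨0, hn⟩, Finset.mem_univ _⟩
  -- z_i
  set z : Fin n → ℝ := fun i => (∑ j, x j * B i j) / n with hz
  have hzpos : ∀ i, 0 < z i := fun i => div_pos
    (Finset.sum_pos (fun j _ => mul_pos (hx j) (hBpos i j)) huniv) hn'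
  set X := (∑ j, x j) / n with hX
  have hXpos : 0 < X := div_pos (Finset.sum_pos (fun j _ => hx j) huniv) hn'
  have hz1 : ∀ i, X * κ ≤ z i := by
    intro i
    rw [hX, hz, div_mul_eq_mul_div, Finset.sum_mul]
    apply div_le_div_of_nonneg_right _ hn'.le
    exact Finset.sum_le_sum fun j _ => mul_le_mul_of_nonneg_left (hBκ i j) (hx j).le
  have hz2 : ∀ i, z i ≤ X * K := by
    intro i
    rw [hX, hz, div_mul_eq_mul_div, Finset.sum_mul]
    apply div_le_div_of_nonneg_right _ hn'.le
    exact Finset.sum_le_sum fun j _ => mul_le_mul_of_nonneg_left (hBK i j) (hx j).le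
  set p : Fin n → ℝ := fun i => lmean z - Real.log (z i) with hp
  have hpL : ∀ i, |p i| ≤ Real.log (K / κ) := by
    intro i
    have := lmean_dev hn z (X * κ) (X * K) (by positivity) hz1 hz2 i
    rw [mul_div_mul_left _ _ hXpos.ne'] at this
    exact this
  have hpsum : ∑ i, p i = 0 := sum_lmean_sub hn z
  have hexpp : ∀ i, Real.exp (p i) * z i = Real.exp (lmean z) := by
    intro i
    rw [hp, Real.exp_sub, Real.exp_log (hzpos i)]
    field_simp [(hzpos i).ne']
  -- v'_j
  set y : Fin n → ℝ := fun j => (∑ i, Real.exp (p i) * B i j) / n with hy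
  have hypos : ∀ j, 0 < y j := fun j => div_pos
    (Finset.sum_pos (fun i _ => mul_pos (Real.exp_pos _) (hBpos i j)) huniv) hn'
  set U := (∑ i, Real.exp (p i)) / n with hU
  have hUpos : 0 < U := div_pos (Finset.sum_pos (fun i _ => Real.exp_pos _) huniv) hn'
  have hy1 : ∀ j, U * κ ≤ y j := by
    intro j
    rw [hU, hy, div_mul_eq_mul_div, Finset.sum_mul]
    apply div_le_div_of_nonneg_right _ hn'.le
    exact Finset.sum_le_sum fun i _ => mul_le_mul_of_nonneg_left (hBκ i j) (Real.exp_pos _).le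
  have hy2 : ∀ j, y j ≤ U * K := by
    intro j
    rw [hU, hy, div_mul_eq_mul_div, Finset.sum_mul]
    apply div_le_div_of_nonneg_right _ hn'.le
    exact Finset.sum_le_sum fun i _ => mul_le_mul_of_nonneg_left (hBK i j) (Real.exp_pos _).le
  set q : Fin n → ℝ := fun j => lmean y - Real.log (y j) with hq
  have hqL : ∀ j, |q j| ≤ Real.log (K / κ) := by
    intro j
    have := lmean_dev hn y (U * κ) (U * K) (by positivity) hy1 hy2 j
    rw [mul_div_mul_left _ _ hUpos.ne'] at this
    exact this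
  have hqsum : ∑ j, q j = 0 := sum_lmean_sub hn y
  have hexpq : ∀ j, Real.exp (q j) * y j = Real.exp (lmean y) := by
    intro j
    rw [hq, Real.exp_sub, Real.exp_log (hypos j)]
    field_simp [(hypos j).ne']
  -- gm(y) ≥ v
  have hgy : v ≤ Real.exp (lmean y) := by
    have h1 := bilinear_lower B (fun i j => (hBpos i j).le) c (Real.log (K / κ)) p q hpsum hqsum
      hpL hqL
    have h2 : ∑ i, ∑ j, Real.exp (p i) * B i j * Real.exp (q j) =
        (n : ℝ) ^ 2 * Real.exp (lmean y) := by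
      rw [Finset.sum_comm]
      calc ∑ j, ∑ i, Real.exp (p i) * B i j * Real.exp (q j)
          = ∑ j, n * (Real.exp (q j) * y j) := by
            apply Finset.sum_congr rfl; intro j _
            rw [hy, ← Finset.sum_mul]
            field_simp
        _ = ∑ j : Fin n, n * Real.exp (lmean y) := by
            apply Finset.sum_congr rfl; intro j _
            rw [hexpq j]
        _ = _ := by
            rw [Finset.sum_const, Finset.card_univ, Fintype.card_fin, nsmul_eq_mul]
            ring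
    rw [h2] at h1
    have h3 := hvdef.trans h1
    rw [mul_comm] at h3
    exact le_of_mul_le_mul_left h3 (by positivity)
  -- gm(z) ≥ gm(x) gm(y)
  have hgz : Real.exp (lmean x) * Real.exp (lmean y) ≤ Real.exp (lmean z) := by
    have h1 := exp_lmean_le hn (fun j => x j * y j) (fun j => mul_pos (hx j) (hypos j))
    have h2 : lmean (fun j => x j * y j) = lmean x + lmean y := by
      unfold lmean
      rw [← add_div, ← Finset.sum_add_distrib]
      congr 1
      apply Finset.sum_congr rfl; intro j _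
      rw [Real.log_mul (hx j).ne' (hypos j).ne']
    have h3 : (∑ j, x j * y j) / n = Real.exp (lmean z) := by
      calc (∑ j, x j * y j) / n = (∑ j, ∑ i, (x j * (Real.exp (p i) * B i j)) / n) / n := by
            congr 1
            apply Finset.sum_congr rfl; intro j _
            rw [hy, ← Finset.sum_div, ← Finset.mul_sum, mul_div_assoc]
        _ = (∑ i, Real.exp (p i) * z i) / n := by
            rw [Finset.sum_comm]
            congr 1
            apply Finset.sum_congr rfl; intro i _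
            rw [hz, mul_div_assoc', Finset.mul_sum, Finset.sum_div]
            apply Finset.sum_congr rfl; intro j _
            ring
        _ = (∑ i : Fin n, Real.exp (lmean z)) / n := by
            congr 1
            exact Finset.sum_congr rfl fun i _ => hexpp i
        _ = _ := by
            rw [Finset.sum_const, Finset.card_univ, Fintype.card_fin, nsmul_eq_mul]
            field_simp
    rw [h2, Real.exp_add, h3] at h1
    exact h1
  -- conclusion
  have hpow : ∀ w : Fin n → ℝ, (∀ i, 0 < w i) → Real.exp (lmean w) ^ n = ∏ i, w i := by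
    intro w hw
    rw [← Real.exp_nat_mul]
    unfold lmean
    rw [mul_div_cancel₀ _ hn'.ne', Real.exp_sum]
    exact Finset.prod_congr rfl fun i _ => Real.exp_log (hw i)
  have h1 : Real.exp (lmean x) * v ≤ Real.exp (lmean z) :=
    (mul_le_mul_of_nonneg_left hgy (Real.exp_pos _).le).trans hgz
  have h2 := pow_le_pow_left₀ (by positivity) h1 n
  rw [mul_pow, hpow x hx, hpow z hzpos] at h2
  have h3 : ∏ i, ∑ j, x j * B i j = (n : ℝ) ^ n * ∏ i, z i := by
    have : ∀ i, ∑ j, x j * B i j = n * z i := by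
      intro i; rw [hz]; field_simp
    rw [Finset.prod_congr rfl (fun i _ => this i), Finset.prod_mul_distrib, Finset.prod_const,
      Finset.card_univ, Fintype.card_fin]
  rw [h3, mul_pow, mul_assoc]
  apply mul_le_mul_of_nonneg_left _ (by positivity)
  linarith

/-- Lower bound for the permanental mean. -/
theorem pmean_lower (hn : 0 < n) (B : Matrix (Fin n) (Fin n) ℝ) (κ K : ℝ) (hκ : 0 < κ)
    (hBκ : ∀ i j, κ ≤ B i j) (hBK : ∀ i j, B i j ≤ K) (c : ℝ) :
    Real.exp (-((1 + Real.log n) / n)) * (((∑ i, ∑ j, B i j) - Real.log (K / κ) *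
      ((∑ i, |(∑ j, B i j) - n * c|) + ∑ j, |(∑ i, B i j) - n * c|)) / (n : ℝ) ^ 2)
      ≤ pmean B := by
  have hn' : (0 : ℝ) < n := by exact_mod_cast hn
  have hB0 : ∀ i j, 0 < B i j := fun i j => lt_of_lt_of_le hκ (hBκ i j)
  set v := ((∑ i, ∑ j, B i j) - Real.log (K / κ) *
      ((∑ i, |(∑ j, B i j) - n * c|) + ∑ j, |(∑ i, B i j) - n * c|)) / (n : ℝ) ^ 2 with hv
  rcases le_or_gt v 0 with hv0 | hv0
  · refine le_trans ?_ (pmean_nonneg B fun i j => (hB0 i j).le)
    exact mul_nonpos_of_nonneg_of_nonpos (Real.exp_pos _).le hv0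
  · have hcap := permanent_lower B hB0 ((n * v) ^ n) (by positivity) (fun x hx =>
      cap_lower hn B κ K hκ hBκ hBK c v hv0 (by rw [hv]; field_simp; exact le_refl _) x hx)
    apply le_pmean_of hn B _ (by positivity)
    refine le_trans ?_ hcap
    obtain ⟨m, hm⟩ : ∃ m, n = m + 1 := ⟨n - 1, by omega⟩
    have hfac := factorial_upper m
    rw [← hm] at hfac
    have hm' : (m : ℝ) + 1 = n := by rw [hm]; push_cast; ring
    rw [hm'] at hfac
    rw [mul_pow]
    have e1 : Real.exp (-((1 + Real.log n) / n)) ^ n = Real.exp (-1) * (n : ℝ)⁻¹ := by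
      rw [← Real.exp_nat_mul]
      have : (n : ℝ) * -((1 + Real.log n) / n) = -1 + -Real.log n := by field_simp; ring
      rw [this, Real.exp_add, Real.exp_neg (Real.log n), Real.exp_log hn']
    rw [e1]
    calc (n.factorial : ℝ) * (Real.exp (-1) * (n : ℝ)⁻¹ * v ^ n)
        ≤ (Real.exp 1 * n * (n / Real.exp 1) ^ n) * (Real.exp (-1) * (n : ℝ)⁻¹ * v ^ n) := by
          gcongr
      _ = Real.exp (-(n : ℝ)) * (n * v) ^ n := by
          have e2 : Real.exp (-(n : ℝ)) = (Real.exp 1 ^ n)⁻¹ := by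
            rw [← Real.exp_nat_mul, ← Real.exp_neg]; congr 1; ring
          have e3 : Real.exp (-1) = (Real.exp 1)⁻¹ := Real.exp_neg 1
          rw [e2, e3, div_pow, mul_pow]
          field_simp

end Pool.Agent.MP_79d3d7_an
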