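import Mathlib
import Pool.Agent.MP_79d3d7_an.Birkhoff

/-! Two commuting maps: ergodic averages over squares, for bounded functions. -/

open MeasureTheory Filter Topology Function

namespace Pool.Agent.MP_79d3d7_an

variable {Ω : Type*} [MeasurableSpace Ω] {μ : Measure Ω}

/-- If `φ` is `T`-invariant, then its Birkhoff limit along `S` is the constant `∫ φ`. -/
lemma bLim_const [IsProbabilityMeasure μ] {S T : Ω → Ω} (hS : MeasurePreserving S μ μ)
    (hST : ∀ ω, S (T ω) = T (S ω))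
    (herg : ∀ A : Set Ω, MeasurableSet A → S ⁻¹' A = A → T ⁻¹' A = A → μ A = 0 ∨ μ A = 1)
    {φ : Ω → ℝ} (hφm : Measurable φ) {C : ℝ} (hC : 0 ≤ C) (hφC : ∀ ω, |φ ω| ≤ C)
    (hφ : ∀ ω, φ (T ω) = φ ω) :
    ∀ᵐ ω ∂μ, bLim S φ ω = ∫ ω, φ ω ∂μ := by
  set ψ := bLim S φ with hψ
  have hψm : Measurable ψ := measurable_bLim hS.measurable hφm
  have hψS : ∀ ω, ψ (S ω) = ψ ω := bLim_comp hC hφC
  have hcomm : ∀ (k : ℕ) (ω : Ω), S^[k] (T ω) = T (S^[k] ω) := by
    intro k ω
    induction k with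
    | zero => rfl
    | succ k ih => rw [Function.iterate_succ_apply', ih, hST, ← Function.iterate_succ_apply' S]
  have hψT : ∀ ω, ψ (T ω) = ψ ω := by
    intro ω
    simp only [hψ, bLim]
    congr 1
    funext n
    unfold birkhoffAverage birkhoffSum
    congr 1
    apply Finset.sum_congr rfl
    intro k _
    rw [hcomm, hφ]
  have hψb : ∀ ω, |ψ ω| ≤ C := fun ω => abs_le.mpr
    ⟨le_bLim hC hφC (fun ω => (abs_le.mp (hφC ω)).1) ω,
      bLim_le hC hφC (fun ω => (abs_le.mp (hφC ω)).2) ω⟩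
  have hψi : Integrable ψ μ := Integrable.of_bound hψm.aestronglyMeasurable C
    (ae_of_all _ fun ω => by rw [Real.norm_eq_abs]; exact hψb ω)
  have hint : ∫ ω, ψ ω ∂μ = ∫ ω, φ ω ∂μ := integral_bLim hS hφm hC hφC
  rw [← hint]
  set c := ∫ ω, ψ ω ∂μ with hc
  have hlt : μ {ω | ψ ω < c} = 0 := by
    rcases herg {ω | ψ ω < c} (measurableSet_lt hψm measurable_const)
      (by ext ω; simp [hψS]) (by ext ω; simp [hψT]) with h | h
    · exact h
    · exfalso
      have hae : ∀ᵐ ω ∂μ, ψ ω < c := by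
        rw [← prob_compl_eq_zero_iff (measurableSet_lt hψm measurable_const)] at h
        exact h
      have h1 : ∫ ω, (c - ψ ω) ∂μ = 0 := by
        rw [integral_sub (integrable_const c) hψi]
        simp [hc]
      have h2 : 0 ≤ᵐ[μ] fun ω => c - ψ ω := by
        filter_upwards [hae] with ω hω
        exact (sub_pos.mpr hω).le
      have h3 := (integral_eq_zero_iff_of_nonneg_ae h2 ((integrable_const c).sub hψi)).mp h1
      have h4 : ∀ᵐ ω ∂μ, False := by
        filter_upwards [hae, h3] with ω hω1 hω2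
        have : c - ψ ω = 0 := hω2
        linarith
      rw [ae_iff] at h4
      simp only [not_false_eq_true, Set.ofPred_true, measure_univ, one_ne_zero] at h4
  have hgt : μ {ω | c < ψ ω} = 0 := by
    rcases herg {ω | c < ψ ω} (measurableSet_lt measurable_const hψm)
      (by ext ω; simp [hψS]) (by ext ω; simp [hψT]) with h | h
    · exact h
    · exfalso
      have hae : ∀ᵐ ω ∂μ, c < ψ ω := by
        rw [← prob_compl_eq_zero_iff (measurableSet_lt measurable_const hψm)] at h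
        exact h
      have h1 : ∫ ω, (ψ ω - c) ∂μ = 0 := by
        rw [integral_sub hψi (integrable_const c)]
        simp [hc]
      have h2 : 0 ≤ᵐ[μ] fun ω => ψ ω - c := by
        filter_upwards [hae] with ω hω
        exact (sub_pos.mpr hω).le
      have h3 := (integral_eq_zero_iff_of_nonneg_ae h2 (hψi.sub (integrable_const c))).mp h1
      have h4 : ∀ᵐ ω ∂μ, False := by
        filter_upwards [hae, h3] with ω hω1 hω2
        have : ψ ω - c = 0 := hω2
        linarith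
      rw [ae_iff] at h4
      simp only [not_false_eq_true, Set.ofPred_true, measure_univ, one_ne_zero] at h4
  have h1 : ∀ᵐ ω ∂μ, ¬ ψ ω < c := by
    rw [ae_iff]; simpa using hlt
  have h2 : ∀ᵐ ω ∂μ, ¬ c < ψ ω := by
    rw [ae_iff]; simpa using hgt
  filter_upwards [h1, h2] with ω h3 h4
  exact le_antisymm (not_lt.mp h4) (not_lt.mp h3)

/-- Maker / Breiman type lemma: averages of a sequence tending to zero. -/
lemma maker [IsProbabilityMeasure μ] {T : Ω → Ω} (hT : MeasurePreserving T μ μ)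
    {D : ℕ → Ω → ℝ} (hDm : ∀ n, Measurable (D n)) {C : ℝ} (hC : 0 ≤ C)
    (hD0 : ∀ n ω, 0 ≤ D n ω) (hDC : ∀ n ω, D n ω ≤ C)
    (hlim : ∀ᵐ ω ∂μ, Tendsto (fun n => D n ω) atTop (𝓝 0)) :
    ∀ᵐ ω ∂μ, Tendsto (fun n => birkhoffAverage ℝ T (D n) n ω) atTop (𝓝 0) := by
  -- the tail suprema
  set Ds : ℕ → Ω → ℝ := fun N ω => ⨆ n, D (N + n) ω with hDs
  have hbdd : ∀ N ω, BddAbove (Set.range fun n => D (N + n) ω) := fun N ω =>
    ⟨C, by rintro _ ⟨n, rfl⟩; exact hDC _ _⟩
  have hDsm : ∀ N, Measurable (Ds N) := fun N => Measurable.iSup fun n => hDm _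
  have hDs0 : ∀ N ω, 0 ≤ Ds N ω := fun N ω => Real.iSup_nonneg fun n => hD0 _ _
  have hDsC : ∀ N ω, Ds N ω ≤ C := fun N ω => ciSup_le fun n => hDC _ _
  have hDsabs : ∀ N ω, |Ds N ω| ≤ C := fun N ω => by
    rw [abs_of_nonneg (hDs0 N ω)]; exact hDsC N ω
  have hDle : ∀ N n ω, N ≤ n → D n ω ≤ Ds N ω := by
    intro N n ω hn
    obtain ⟨k, rfl⟩ := Nat.exists_eq_add_of_le hn
    exact le_ciSup (hbdd N ω) k
  have hDslim : ∀ᵐ ω ∂μ, Tendsto (fun N => Ds N ω) atTop (𝓝 0) := by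
    filter_upwards [hlim] with ω hω
    rw [Metric.tendsto_atTop] at hω ⊢
    intro ε hε
    obtain ⟨N, hN⟩ := hω (ε / 2) (by linarith)
    refine ⟨N, fun n hn => ?_⟩
    rw [Real.dist_eq, sub_zero, abs_of_nonneg (hDs0 n ω)]
    have : Ds n ω ≤ ε / 2 := by
      apply ciSup_le
      intro k
      have := hN (n + k) (by omega)
      rw [Real.dist_eq, sub_zero, abs_of_nonneg (hD0 _ _)] at this
      exact this.le
    linarith
  -- the limsup
  have hDabs : ∀ n ω, |D n ω| ≤ C := fun n ω => by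
    rw [abs_of_nonneg (hD0 n ω)]; exact hDC n ω
  set G : Ω → ℝ := fun ω => limsup (fun n => birkhoffAverage ℝ T (D n) n ω) atTop with hG
  have hGm : Measurable G := Measurable.limsup fun n =>
    measurable_birkhoffAverage hT.measurable (hDm n) n
  have hb1 : ∀ ω, IsBoundedUnder (· ≤ ·) atTop (fun n => birkhoffAverage ℝ T (D n) n ω) :=
    fun ω => isBoundedUnder_of ⟨C, fun n => (abs_le.mp (abs_birkhoffAverage_le hC (hDabs n) n ω)).2⟩
  have hb2 : ∀ ω, IsBoundedUnder (· ≥ ·) atTop (fun n => birkhoffAverage ℝ T (D n) n ω) :=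
    fun ω => isBoundedUnder_of ⟨-C, fun n =>
      (abs_le.mp (abs_birkhoffAverage_le hC (hDabs n) n ω)).1⟩
  have havg0 : ∀ n ω, 0 ≤ birkhoffAverage ℝ T (D n) n ω := by
    intro n ω
    unfold birkhoffAverage birkhoffSum
    rw [smul_eq_mul]
    exact mul_nonneg (by positivity) (Finset.sum_nonneg fun k _ => hD0 _ _)
  have hG0 : ∀ ω, 0 ≤ G ω := by
    intro ω
    apply le_limsup_of_frequently_le _ (hb1 ω)
    exact (Eventually.of_forall fun n => havg0 n ω).frequently
  have hGle : ∀ N ω, G ω ≤ bLim T (Ds N) ω := by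
    intro N ω
    apply limsup_le_limsup _ (hb2 ω).isCoboundedUnder_le (isBounded_le hC (hDsabs N) ω)
    filter_upwards [eventually_ge_atTop N] with n hn
    unfold birkhoffAverage birkhoffSum
    rw [smul_eq_mul, smul_eq_mul]
    apply mul_le_mul_of_nonneg_left _ (by positivity)
    exact Finset.sum_le_sum fun k _ => hDle N n _ hn
  have hGC : ∀ ω, G ω ≤ C := fun ω => (hGle 0 ω).trans (bLim_le hC (hDsabs 0) (hDsC 0) ω)
  have hGi : Integrable G μ := Integrable.of_bound hGm.aestronglyMeasurable C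
    (ae_of_all _ fun ω => by rw [Real.norm_eq_abs, abs_of_nonneg (hG0 ω)]; exact hGC ω)
  have hintle : ∀ N, ∫ ω, G ω ∂μ ≤ ∫ ω, Ds N ω ∂μ := by
    intro N
    rw [← integral_bLim hT (hDsm N) hC (hDsabs N)]
    apply integral_mono hGi
    · exact Integrable.of_bound (measurable_bLim hT.measurable (hDsm N)).aestronglyMeasurable C
        (ae_of_all _ fun ω => by
          rw [Real.norm_eq_abs, abs_le]
          exact ⟨le_bLim hC (hDsabs N) (fun ω => (abs_le.mp (hDsabs N ω)).1) ω,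
            bLim_le hC (hDsabs N) (hDsC N) ω⟩)
    · intro ω
      exact hGle N ω
  have hintlim : Tendsto (fun N => ∫ ω, Ds N ω ∂μ) atTop (𝓝 (∫ _ω, (0 : ℝ) ∂μ)) := by
    apply tendsto_integral_of_dominated_convergence (fun _ => C)
    · intro N
      exact (hDsm N).aestronglyMeasurable
    · exact integrable_const C
    · intro N
      exact ae_of_all _ fun ω => by rw [Real.norm_eq_abs]; exact hDsabs N ω
    · exact hDslim
  rw [integral_zero] at hintlim
  have hint0 : ∫ ω, G ω ∂μ = 0 :=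
    le_antisymm (ge_of_tendsto' hintlim hintle) (integral_nonneg hG0)
  have hGae := (integral_eq_zero_iff_of_nonneg hG0 hGi).mp hint0
  filter_upwards [hGae] with ω hω
  have hω' : limsup (fun n => birkhoffAverage ℝ T (D n) n ω) atTop = 0 := hω
  rw [Metric.tendsto_atTop]
  intro ε hε
  have hev : ∀ᶠ n in atTop, birkhoffAverage ℝ T (D n) n ω < ε := by
    apply eventually_lt_of_limsup_lt _ (hb1 ω)
    rw [hω']; exact hε
  obtain ⟨N, hN⟩ := eventually_atTop.mp hev
  refine ⟨N, fun n hn => ?_⟩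
  rw [Real.dist_eq, sub_zero, abs_of_nonneg (havg0 n ω)]
  exact hN n hn

/-- Column deviations. -/
theorem column_dev [IsProbabilityMeasure μ] {S T : Ω → Ω} (hS : MeasurePreserving S μ μ)
    (hT : MeasurePreserving T μ μ) (hST : ∀ ω, S (T ω) = T (S ω))
    (herg : ∀ A : Set Ω, MeasurableSet A → S ⁻¹' A = A → T ⁻¹' A = A → μ A = 0 ∨ μ A = 1)
    {h : Ω → ℝ} (hh : Measurable h) {C : ℝ} (hC : 0 ≤ C) (hhC : ∀ ω, |h ω| ≤ C) (c : ℝ) :
    ∀ᵐ ω ∂μ, ∀ δ > 0, ∀ᶠ n : ℕ in atTop,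
      (∑ j ∈ Finset.range n, |(∑ i ∈ Finset.range n, h (S^[i] (T^[j] ω))) - n * c|) / (n : ℝ) ^ 2
        ≤ (∫ ω, |bLim S h ω - c| ∂μ) + δ := by
  have hbL : ∀ ω, |bLim S h ω| ≤ C := fun ω => abs_le.mpr
    ⟨le_bLim hC hhC (fun ω => (abs_le.mp (hhC ω)).1) ω,
      bLim_le hC hhC (fun ω => (abs_le.mp (hhC ω)).2) ω⟩
  have hbLm := measurable_bLim hS.measurable hh
  -- D n
  set D : ℕ → Ω → ℝ := fun n ω => |birkhoffAverage ℝ S h n ω - bLim S h ω| with hD
  have hDm : ∀ n, Measurable (D n) := fun n =>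
    ((measurable_birkhoffAverage hS.measurable hh n).sub hbLm).abs
  have hD0 : ∀ n ω, 0 ≤ D n ω := fun n ω => abs_nonneg _
  have hDC : ∀ n ω, D n ω ≤ 2 * C := by
    intro n ω
    have h1 := abs_le.mp (abs_birkhoffAverage_le (S := S) hC hhC n ω)
    have h2 := abs_le.mp (hbL ω)
    simp only [hD, abs_le]
    constructor <;> linarith [h1.1, h1.2, h2.1, h2.2]
  have hDlim : ∀ᵐ ω ∂μ, Tendsto (fun n => D n ω) atTop (𝓝 0) := by
    filter_upwards [tendsto_bLim hS hh hC hhC] with ω hω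
    have := (hω.sub_const (bLim S h ω)).abs
    simpa using this
  have hmk := maker hT hDm (by linarith : 0 ≤ 2 * C) hD0 hDC hDlim
  -- the invariant function
  set φ : Ω → ℝ := fun ω => |bLim S h ω - c| with hφ
  have hφm : Measurable φ := (hbLm.sub_const c).abs
  have hφS : ∀ ω, φ (S ω) = φ ω := fun ω => by simp only [hφ]; rw [bLim_comp hC hhC]
  have hφC : ∀ ω, |φ ω| ≤ C + |c| := by
    intro ω
    simp only [hφ, abs_abs]
    exact (abs_sub _ _).trans (add_le_add (hbL ω) le_rfl)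
  have hCc : 0 ≤ C + |c| := by positivity
  have hconst := bLim_const (μ := μ) hT (fun ω => (hST ω).symm)
    (fun A hA h1 h2 => herg A hA h2 h1) hφm hCc hφC hφS
  have hbk := tendsto_bLim (μ := μ) hT hφm hCc hφC
  filter_upwards [hmk, hconst, hbk] with ω h1 h2 h3
  rw [h2] at h3
  intro δ hδ
  have h4 := h1.add h3
  rw [zero_add] at h4
  have h5 : ∀ᶠ n in atTop, birkhoffAverage ℝ T (D n) n ω + birkhoffAverage ℝ T φ n ω <
      (∫ ω, φ ω ∂μ) + δ := h4.eventually (gt_mem_nhds (by linarith))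
  filter_upwards [h5, eventually_gt_atTop 0] with n hn hn0
  have hn' : (0 : ℝ) < n := by exact_mod_cast hn0
  refine le_trans ?_ hn.le
  have h6 : ∀ j ∈ Finset.range n, |(∑ i ∈ Finset.range n, h (S^[i] (T^[j] ω))) - n * c| ≤
      n * (D n (T^[j] ω) + φ (T^[j] ω)) := by
    intro j _
    have e1 : (∑ i ∈ Finset.range n, h (S^[i] (T^[j] ω))) - n * c =
        n * ((birkhoffAverage ℝ S h n (T^[j] ω) - bLim S h (T^[j] ω)) +
          (bLim S h (T^[j] ω) - c)) := by
      unfold birkhoffAverage birkhoffSum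
      rw [smul_eq_mul]
      field_simp
      ring
    rw [e1, abs_mul, abs_of_pos hn']
    exact mul_le_mul_of_nonneg_left (abs_add_le _ _) hn'.le
  calc (∑ j ∈ Finset.range n, |(∑ i ∈ Finset.range n, h (S^[i] (T^[j] ω))) - n * c|) /
        (n : ℝ) ^ 2
      ≤ (∑ j ∈ Finset.range n, n * (D n (T^[j] ω) + φ (T^[j] ω))) / (n : ℝ) ^ 2 := by
        apply div_le_div_of_nonneg_right _ (by positivity)
        exact Finset.sum_le_sum h6
    _ = birkhoffAverage ℝ T (D n) n ω + birkhoffAverage ℝ T φ n ω := by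
        unfold birkhoffAverage birkhoffSum
        rw [← Finset.mul_sum, Finset.sum_add_distrib, smul_eq_mul, smul_eq_mul]
        field_simp

/-- Averages over squares. -/
theorem square_avg [IsProbabilityMeasure μ] {S T : Ω → Ω} (hS : MeasurePreserving S μ μ)
    (hT : MeasurePreserving T μ μ) (hST : ∀ ω, S (T ω) = T (S ω))
    (herg : ∀ A : Set Ω, MeasurableSet A → S ⁻¹' A = A → T ⁻¹' A = A → μ A = 0 ∨ μ A = 1)
    {h : Ω → ℝ} (hh : Measurable h) {C : ℝ} (hC : 0 ≤ C) (hhC : ∀ ω, |h ω| ≤ C) :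
    ∀ᵐ ω ∂μ, Tendsto (fun n : ℕ =>
      (∑ i ∈ Finset.range n, ∑ j ∈ Finset.range n, h (S^[i] (T^[j] ω))) / (n : ℝ) ^ 2) atTop
      (𝓝 (∫ ω, h ω ∂μ)) := by
  have hbL : ∀ ω, |bLim S h ω| ≤ C := fun ω => abs_le.mpr
    ⟨le_bLim hC hhC (fun ω => (abs_le.mp (hhC ω)).1) ω,
      bLim_le hC hhC (fun ω => (abs_le.mp (hhC ω)).2) ω⟩
  have hbLm := measurable_bLim hS.measurable hh
  set D : ℕ → Ω → ℝ := fun n ω => |birkhoffAverage ℝ S h n ω - bLim S h ω| with hD
  have hDm : ∀ n, Measurable (D n) := fun n =>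
    ((measurable_birkhoffAverage hS.measurable hh n).sub hbLm).abs
  have hD0 : ∀ n ω, 0 ≤ D n ω := fun n ω => abs_nonneg _
  have hDC : ∀ n ω, D n ω ≤ 2 * C := by
    intro n ω
    have h1 := abs_le.mp (abs_birkhoffAverage_le (S := S) hC hhC n ω)
    have h2 := abs_le.mp (hbL ω)
    simp only [hD, abs_le]
    constructor <;> linarith [h1.1, h1.2, h2.1, h2.2]
  have hDlim : ∀ᵐ ω ∂μ, Tendsto (fun n => D n ω) atTop (𝓝 0) := by
    filter_upwards [tendsto_bLim hS hh hC hhC] with ω hω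
    have := (hω.sub_const (bLim S h ω)).abs
    simpa using this
  have hmk := maker hT hDm (by linarith : 0 ≤ 2 * C) hD0 hDC hDlim
  set φ : Ω → ℝ := bLim S h with hφ
  have hφS : ∀ ω, φ (S ω) = φ ω := fun ω => bLim_comp hC hhC ω
  have hconst := bLim_const (μ := μ) hT (fun ω => (hST ω).symm)
    (fun A hA h1 h2 => herg A hA h2 h1) hbLm hC hbL hφS
  have hbk := tendsto_bLim (μ := μ) hT hbLm hC hbL
  filter_upwards [hmk, hconst, hbk] with ω h1 h2 h3
  rw [h2, integral_bLim hS hh hC hhC] at h3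
  have h4 : Tendsto (fun n : ℕ =>
      (∑ i ∈ Finset.range n, ∑ j ∈ Finset.range n, h (S^[i] (T^[j] ω))) / (n : ℝ) ^ 2 -
        birkhoffAverage ℝ T φ n ω) atTop (𝓝 0) := by
    apply squeeze_zero_norm' _ h1
    filter_upwards [eventually_gt_atTop 0] with n hn0
    have hn' : (0 : ℝ) < n := by exact_mod_cast hn0
    rw [Real.norm_eq_abs]
    have e1 : (∑ i ∈ Finset.range n, ∑ j ∈ Finset.range n, h (S^[i] (T^[j] ω))) / (n : ℝ) ^ 2 -
        birkhoffAverage ℝ T φ n ω =
        (n : ℝ)⁻¹ * ∑ j ∈ Finset.range n, (birkhoffAverage ℝ S h n (T^[j] ω) -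
          bLim S h (T^[j] ω)) := by
      rw [Finset.sum_comm]
      unfold birkhoffAverage birkhoffSum
      simp only [smul_eq_mul]
      rw [Finset.sum_sub_distrib, ← Finset.mul_sum, hφ]
      field_simp
    rw [e1, abs_mul, abs_of_pos (by positivity)]
    have e2 : birkhoffAverage ℝ T (D n) n ω = (n : ℝ)⁻¹ * ∑ j ∈ Finset.range n,
        |birkhoffAverage ℝ S h n (T^[j] ω) - bLim S h (T^[j] ω)| := rfl
    rw [e2]
    apply mul_le_mul_of_nonneg_left _ (by positivity)
    exact Finset.abs_sum_le_sum_abs _ _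
  have h5 := h4.add h3
  rw [zero_add] at h5
  refine h5.congr fun n => ?_
  ring

end Pool.Agent.MP_79d3d7_an
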