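import Mathlib
import Pool.Agent.MP_79d3d7_an.TwoDim

/-! Near minimisers of the scaling functional. -/

open MeasureTheory Filter Topology Function

namespace Pool.Agent.MP_79d3d7_an

variable {Ω : Type*} [MeasurableSpace Ω] {μ : Measure Ω}

/-- bounded, invariant, normalised scaling functions -/
structure Adm (μ : Measure Ω) (S : Ω → Ω) (g : Ω → ℝ) : Prop where
  meas : Measurable g
  inv : ∀ ω, g (S ω) = g ω
  bd : ∃ m M : ℝ, 0 < m ∧ ∀ ω, m ≤ g ω ∧ g ω ≤ M
  norm : ∫ ω, Real.log (g ω) ∂μ = 0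

lemma integrable_bdd [IsProbabilityMeasure μ] {u : Ω → ℝ} (hu : Measurable u) {C : ℝ}
    (hC : ∀ ω, |u ω| ≤ C) : Integrable u μ :=
  Integrable.of_bound hu.aestronglyMeasurable C
    (ae_of_all _ fun ω => by rw [Real.norm_eq_abs]; exact hC ω)

lemma jensen_exp [IsProbabilityMeasure μ] {u : Ω → ℝ} (hu : Measurable u) {C : ℝ}
    (hC : ∀ ω, |u ω| ≤ C) : Real.exp (∫ ω, u ω ∂μ) ≤ ∫ ω, Real.exp (u ω) ∂μ := by
  have h := ConvexOn.map_integral_le (μ := μ) (f := u) (g := Real.exp) (s := Set.univ)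
    convexOn_exp Real.continuous_exp.continuousOn isClosed_univ
    (ae_of_all _ fun _ => Set.mem_univ _) (integrable_bdd hu hC)
    (integrable_bdd (C := Real.exp C) (Real.measurable_exp.comp hu) (fun ω => by
      simp only [Function.comp_apply]
      rw [abs_of_pos (Real.exp_pos _)]
      exact Real.exp_le_exp.mpr ((le_abs_self _).trans (hC ω))))
  exact h

omit [MeasurableSpace Ω] in
lemma avg_mono {S : Ω → Ω} {u v : Ω → ℝ} (h : ∀ ω, u ω ≤ v ω) (n : ℕ) (ω : Ω) :
    birkhoffAverage ℝ S u n ω ≤ birkhoffAverage ℝ S v n ω := by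
  unfold birkhoffAverage birkhoffSum
  rw [smul_eq_mul, smul_eq_mul]
  exact mul_le_mul_of_nonneg_left (Finset.sum_le_sum fun k _ => h _) (by positivity)

omit [MeasurableSpace Ω] in
lemma avg_const_mul {S : Ω → Ω} {u : Ω → ℝ} (c : ℝ) (n : ℕ) (ω : Ω) :
    birkhoffAverage ℝ S (fun ω => c * u ω) n ω = c * birkhoffAverage ℝ S u n ω := by
  unfold birkhoffAverage birkhoffSum
  rw [smul_eq_mul, smul_eq_mul, ← Finset.mul_sum]
  ring

/-- One Sinkhorn step. -/
lemma improve [IsProbabilityMeasure μ] {S T : Ω → Ω}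
    (hT : MeasurePreserving T μ μ) (hST : ∀ ω, S (T ω) = T (S ω))
    (herg : ∀ A : Set Ω, MeasurableSet A → S ⁻¹' A = A → T ⁻¹' A = A → μ A = 0 ∨ μ A = 1)
    {f : Ω → ℝ} (hf : Measurable f) {Λ : ℝ}
    (hf1 : ∀ ω, Real.exp (-Λ) ≤ f ω) (hf2 : ∀ ω, f ω ≤ Real.exp Λ)
    {g₁ g₂ : Ω → ℝ} (h₁ : Adm μ S g₁) (h₂ : Adm μ T g₂) :
    ∃ g₂' : Ω → ℝ, Adm μ T g₂' ∧ (∀ ω, Real.exp (-(2 * Λ)) ≤ g₂' ω ∧ g₂' ω ≤ Real.exp (2 * Λ)) ∧
      ∫ ω, g₁ ω * f ω * g₂' ω ∂μ ≤ ∫ ω, g₁ ω * f ω * g₂ ω ∂μ := by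
  obtain ⟨m, M, hm, hmM⟩ := h₁.bd
  obtain ⟨m₂, M₂, hm₂, hmM₂⟩ := h₂.bd
  have hfpos : ∀ ω, 0 < f ω := fun ω => lt_of_lt_of_le (Real.exp_pos _) (hf1 ω)
  have hg1pos : ∀ ω, 0 < g₁ ω := fun ω => lt_of_lt_of_le hm (hmM ω).1
  have hg2pos : ∀ ω, 0 < g₂ ω := fun ω => lt_of_lt_of_le hm₂ (hmM₂ ω).1
  set h0 : Ω → ℝ := fun ω => g₁ ω * f ω with hh0
  have hh0m : Measurable h0 := h₁.meas.mul hf
  set C0 := |M| * Real.exp Λ with hC0
  have hC00 : 0 ≤ C0 := by positivity
  have hg1abs : ∀ ω, |g₁ ω| ≤ |M| := fun ω => by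
    rw [abs_of_pos (hg1pos ω)]; exact (hmM ω).2.trans (le_abs_self _)
  have hg2abs : ∀ ω, |g₂ ω| ≤ |M₂| := fun ω => by
    rw [abs_of_pos (hg2pos ω)]; exact (hmM₂ ω).2.trans (le_abs_self _)
  have hh0C : ∀ ω, |h0 ω| ≤ C0 := by
    intro ω
    simp only [hh0]
    rw [abs_mul, abs_of_pos (hfpos ω)]
    exact mul_le_mul (hg1abs ω) (hf2 ω) (hfpos ω).le (abs_nonneg _)
  set q : Ω → ℝ := bLim T h0 with hq
  have hqm : Measurable q := measurable_bLim hT.measurable hh0m
  have hqinv : ∀ ω, q (T ω) = q ω := bLim_comp hC00 hh0C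
  set I1 := ∫ ω, g₁ ω ∂μ with hI1
  have hg1i : Integrable g₁ μ := integrable_bdd h₁.meas hg1abs
  have hI1pos : 0 < I1 := by
    have : m ≤ I1 := by
      have h := integral_mono (μ := μ) (integrable_const m) hg1i (fun ω => (hmM ω).1)
      simpa using h
    linarith
  -- a.e. bounds on q
  have hqae : ∀ᵐ ω ∂μ, Real.exp (-Λ) * I1 ≤ q ω ∧ q ω ≤ Real.exp Λ * I1 := by
    have hc := bLim_const (μ := μ) hT (fun ω => (hST ω).symm)
      (fun A hA h1 h2 => herg A hA h2 h1) h₁.meas (abs_nonneg M) hg1abs h₁.inv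
    have hb1 := tendsto_bLim (μ := μ) hT h₁.meas (abs_nonneg M) hg1abs
    have hb2 := tendsto_bLim (μ := μ) hT hh0m hC00 hh0C
    filter_upwards [hc, hb1, hb2] with ω h3 h4 h5
    rw [h3] at h4
    constructor
    · apply le_of_tendsto_of_tendsto' (h4.const_mul (Real.exp (-Λ))) h5
      intro n
      rw [← avg_const_mul]
      apply avg_mono
      intro ω
      simp only [hh0]
      rw [mul_comm]
      exact mul_le_mul_of_nonneg_left (hf1 ω) (hg1pos ω).le
    · apply le_of_tendsto_of_tendsto' h5 (h4.const_mul (Real.exp Λ))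
      intro n
      rw [← avg_const_mul]
      apply avg_mono
      intro ω
      simp only [hh0]
      rw [mul_comm (Real.exp Λ)]
      exact mul_le_mul_of_nonneg_left (hf2 ω) (hg1pos ω).le
  have hΛ : Real.exp (-Λ) * I1 ≤ Real.exp Λ * I1 := by
    by_contra hcon
    push Not at hcon
    have : ∀ᵐ ω ∂μ, False := by
      filter_upwards [hqae] with ω hω
      linarith [hω.1, hω.2]
    rw [ae_iff] at this
    simp only [not_false_eq_true, Set.ofPred_true, measure_univ, one_ne_zero] at this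
  set q' : Ω → ℝ := fun ω => max (Real.exp (-Λ) * I1) (min (q ω) (Real.exp Λ * I1)) with hq'
  have hq'm : Measurable q' := measurable_const.max (hqm.min measurable_const)
  have hq'inv : ∀ ω, q' (T ω) = q' ω := fun ω => by simp only [hq', hqinv]
  have hq'1 : ∀ ω, Real.exp (-Λ) * I1 ≤ q' ω := fun ω => le_max_left _ _
  have hq'2 : ∀ ω, q' ω ≤ Real.exp Λ * I1 := fun ω => max_le hΛ (min_le_right _ _)
  have hq'pos : ∀ ω, 0 < q' ω := fun ω => lt_of_lt_of_le (by positivity) (hq'1 ω)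
  have hq'ae : q' =ᵐ[μ] q := by
    filter_upwards [hqae] with ω hω
    simp only [hq']
    rw [min_eq_left hω.2, max_eq_right hω.1]
  -- integral identity
  have hint : ∀ φ : Ω → ℝ, Measurable φ → (∀ ω, φ (T ω) = φ ω) → (∃ D, ∀ ω, |φ ω| ≤ D) →
      ∫ ω, g₁ ω * f ω * φ ω ∂μ = ∫ ω, φ ω * q' ω ∂μ := by
    intro φ hφm hφinv ⟨D, hD⟩
    have hne : Nonempty Ω := by
      by_contra hcon
      rw [not_nonempty_iff] at hcon
      have : μ Set.univ = 0 := by simp [Set.eq_empty_of_isEmpty]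
      rw [measure_univ] at this
      exact one_ne_zero this
    obtain ⟨ω0⟩ := hne
    have hD0 : 0 ≤ D := (abs_nonneg _).trans (hD ω0)
    have h3 := integral_mul_bLim (μ := μ) hT hh0m hC00 hh0C hφm hD0 hD hφinv
    have h4 : ∫ ω, g₁ ω * f ω * φ ω ∂μ = ∫ ω, φ ω * h0 ω ∂μ := by
      apply integral_congr_ae
      exact ae_of_all _ fun ω => by simp only [hh0]; ring
    rw [h4, ← h3]
    apply integral_congr_ae
    filter_upwards [hq'ae] with ω hω
    rw [hω]
  -- log bounds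
  have hlogq1 : ∀ ω, Real.log I1 - Λ ≤ Real.log (q' ω) := by
    intro ω
    have := Real.log_le_log (by positivity) (hq'1 ω)
    rw [Real.log_mul (Real.exp_pos _).ne' hI1pos.ne', Real.log_exp] at this
    linarith
  have hlogq2 : ∀ ω, Real.log (q' ω) ≤ Real.log I1 + Λ := by
    intro ω
    have := Real.log_le_log (hq'pos ω) (hq'2 ω)
    rw [Real.log_mul (Real.exp_pos _).ne' hI1pos.ne', Real.log_exp] at this
    linarith
  have hlogqm : Measurable (fun ω => Real.log (q' ω)) := hq'm.log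
  have hlogqb : ∀ ω, |Real.log (q' ω)| ≤ |Real.log I1| + |Λ| := by
    intro ω
    rw [abs_le]
    have h3 := hlogq1 ω
    have h4 := hlogq2 ω
    have h5 := neg_abs_le (Real.log I1)
    have h6 := le_abs_self (Real.log I1)
    have h7 := neg_abs_le Λ
    have h8 := le_abs_self Λ
    constructor <;> linarith
  have hlogqi := integrable_bdd (μ := μ) hlogqm hlogqb
  set E := ∫ ω, Real.log (q' ω) ∂μ with hE
  have hE1 : Real.log I1 - Λ ≤ E := by
    have h := integral_mono (μ := μ) (integrable_const (Real.log I1 - Λ)) hlogqi hlogq1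
    simpa using h
  have hE2 : E ≤ Real.log I1 + Λ := by
    have h := integral_mono (μ := μ) hlogqi (integrable_const (Real.log I1 + Λ)) hlogq2
    simpa using h
  -- the new function
  refine ⟨fun ω => Real.exp (E - Real.log (q' ω)), ⟨?_, ?_, ?_, ?_⟩, ?_, ?_⟩
  · exact Real.measurable_exp.comp (hlogqm.const_sub E)
  · intro ω
    simp only [hq'inv]
  · refine ⟨Real.exp (-(2 * Λ)), Real.exp (2 * Λ), Real.exp_pos _, fun ω => ?_⟩
    constructor
    · apply Real.exp_le_exp.mpr; linarith [hlogq2 ω]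
    · apply Real.exp_le_exp.mpr; linarith [hlogq1 ω]
  · simp only [Real.log_exp]
    rw [integral_sub (integrable_const E) hlogqi]
    simp [hE]
  · intro ω
    constructor
    · apply Real.exp_le_exp.mpr; linarith [hlogq2 ω]
    · apply Real.exp_le_exp.mpr; linarith [hlogq1 ω]
  · have h3 : ∫ ω, g₁ ω * f ω * Real.exp (E - Real.log (q' ω)) ∂μ = Real.exp E := by
      rw [hint (fun ω => Real.exp (E - Real.log (q' ω)))
        (Real.measurable_exp.comp (hlogqm.const_sub E)) (fun ω => by simp only [hq'inv])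
        ⟨Real.exp (2 * Λ), fun ω => by
          rw [abs_of_pos (Real.exp_pos _)]
          apply Real.exp_le_exp.mpr; linarith [hlogq1 ω]⟩]
      have : ∀ ω, Real.exp (E - Real.log (q' ω)) * q' ω = Real.exp E := by
        intro ω
        rw [Real.exp_sub, Real.exp_log (hq'pos ω)]
        field_simp [(hq'pos ω).ne']
      simp_rw [this]
      simp
    have h4 : Real.exp E ≤ ∫ ω, g₁ ω * f ω * g₂ ω ∂μ := by
      rw [hint g₂ h₂.meas h₂.inv ⟨|M₂|, hg2abs⟩]
      have hlogg2b : ∀ ω, |Real.log (g₂ ω)| ≤ |Real.log m₂| + |Real.log M₂| := by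
        intro ω
        have h5 := Real.log_le_log hm₂ (hmM₂ ω).1
        have h6 := Real.log_le_log (hg2pos ω) (hmM₂ ω).2
        rw [abs_le]
        have h7 := neg_abs_le (Real.log m₂)
        have h8 := le_abs_self (Real.log M₂)
        have h9 := abs_nonneg (Real.log m₂)
        have h10 := abs_nonneg (Real.log M₂)
        constructor <;> linarith
      have hlogg2i := integrable_bdd (μ := μ) h₂.meas.log hlogg2b
      have h5 := jensen_exp (μ := μ) (u := fun ω => Real.log (g₂ ω) + Real.log (q' ω))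
        (h₂.meas.log.add hlogqm)
        (C := (|Real.log m₂| + |Real.log M₂|) + (|Real.log I1| + |Λ|))
        (fun ω => (abs_add_le _ _).trans (add_le_add (hlogg2b ω) (hlogqb ω)))
      rw [integral_add hlogg2i hlogqi, h₂.norm, zero_add] at h5
      refine h5.trans (le_of_eq ?_)
      apply integral_congr_ae
      refine ae_of_all _ fun ω => ?_
      simp only
      rw [Real.exp_add, Real.exp_log (hg2pos ω), Real.exp_log (hq'pos ω)]
    rw [h3]
    exact h4

/-- Near minimisers are nearly doubly stochastic. -/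
lemma near_regular [IsProbabilityMeasure μ] {S : Ω → Ω} (hS : MeasurePreserving S μ μ)
    {F g : Ω → ℝ} (hF : Measurable F) {K : ℝ} (hF0 : ∀ ω, 0 ≤ F ω) (hFK : ∀ ω, F ω ≤ K)
    (hg : Adm μ S g) (s ε : ℝ) (hε : 0 < ε) (hε1 : ε ≤ 1)
    (hs : ∀ g' : Ω → ℝ, Adm μ S g' → s ≤ ∫ ω, g' ω * F ω ∂μ)
    (hc : ∫ ω, g ω * F ω ∂μ ≤ s + ε ^ 2) :
    ∫ ω, |bLim S (fun ω => g ω * F ω) ω - ∫ ω, g ω * F ω ∂μ| ∂μ ≤
      2 * ε * (1 + ∫ ω, g ω * F ω ∂μ) := by
  obtain ⟨m, M, hm, hmM⟩ := hg.bd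
  have hgpos : ∀ ω, 0 < g ω := fun ω => lt_of_lt_of_le hm (hmM ω).1
  have hgabs : ∀ ω, |g ω| ≤ |M| := fun ω => by
    rw [abs_of_pos (hgpos ω)]; exact (hmM ω).2.trans (le_abs_self _)
  set h : Ω → ℝ := fun ω => g ω * F ω with hh
  have hhm : Measurable h := hg.meas.mul hF
  have hh0 : ∀ ω, 0 ≤ h ω := fun ω => mul_nonneg (hgpos ω).le (hF0 ω)
  set C := |M| * |K| with hC
  have hC0 : 0 ≤ C := by positivity
  have hhC : ∀ ω, |h ω| ≤ C := by
    intro ω
    simp only [hh]
    rw [abs_mul]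
    exact mul_le_mul (hgabs ω) (by rw [abs_of_nonneg (hF0 ω)]; exact (hFK ω).trans (le_abs_self _))
      (abs_nonneg _) (abs_nonneg _)
  have hhi := integrable_bdd (μ := μ) hhm hhC
  set c := ∫ ω, h ω ∂μ with hcdef
  have hc0 : 0 ≤ c := integral_nonneg hh0
  set k : Ω → ℝ := fun ω => bLim S h ω - c with hk
  have hbLm : Measurable (bLim S h) := measurable_bLim hS.measurable hhm
  have hkm : Measurable k := hbLm.sub_const c
  have hkinv : ∀ ω, k (S ω) = k ω := fun ω => by simp only [hk]; rw [bLim_comp hC0 hhC]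
  set φ0 : Ω → ℝ := fun ω => if 0 ≤ k ω then 1 else -1 with hφ0
  have hφ0m : Measurable φ0 := Measurable.ite (measurableSet_le measurable_const hkm)
    measurable_const measurable_const
  have hφ0inv : ∀ ω, φ0 (S ω) = φ0 ω := fun ω => by simp only [hφ0, hkinv]
  have hφ0b : ∀ ω, |φ0 ω| ≤ 1 := fun ω => by
    simp only [hφ0]; split_ifs <;> simp
  have hφ0i := integrable_bdd (μ := μ) hφ0m hφ0b
  set m0 := ∫ ω, φ0 ω ∂μ with hm0
  have hm0b : |m0| ≤ 1 := by
    have h1 := norm_integral_le_of_norm_le_const (μ := μ) (f := φ0) (C := 1)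
      (ae_of_all _ fun ω => by rw [Real.norm_eq_abs]; exact hφ0b ω)
    simpa using h1
  set φ : Ω → ℝ := fun ω => m0 - φ0 ω with hφ
  have hφm : Measurable φ := hφ0m.const_sub m0
  have hφinv : ∀ ω, φ (S ω) = φ ω := fun ω => by simp only [hφ, hφ0inv]
  have hφb : ∀ ω, |φ ω| ≤ 2 := fun ω => by
    have h1 := abs_le.mp (hφ0b ω)
    have h2 := abs_le.mp hm0b
    simp only [hφ, abs_le]
    constructor <;> linarith [h1.1, h1.2, h2.1, h2.2]
  have hφint : ∫ ω, φ ω ∂μ = 0 := by
    simp only [hφ]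
    rw [integral_sub (integrable_const m0) hφ0i]
    simp [hm0]
  -- perturbation
  set t := ε / 2 with ht
  have htpos : 0 < t := by positivity
  have htφ : ∀ ω, |t * φ ω| ≤ 1 := fun ω => by
    rw [abs_mul, abs_of_pos htpos]
    calc t * |φ ω| ≤ t * 2 := mul_le_mul_of_nonneg_left (hφb ω) htpos.le
      _ = ε := by rw [ht]; ring
      _ ≤ 1 := hε1
  have hlogg : ∀ ω, |Real.log (g ω)| ≤ |Real.log m| + |Real.log M| := by
    intro ω
    have h5 := Real.log_le_log hm (hmM ω).1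
    have h6 := Real.log_le_log (hgpos ω) (hmM ω).2
    rw [abs_le]
    have h7 := neg_abs_le (Real.log m)
    have h8 := le_abs_self (Real.log M)
    have h9 := abs_nonneg (Real.log m)
    have h10 := abs_nonneg (Real.log M)
    constructor <;> linarith
  have hadm : Adm μ S (fun ω => g ω * Real.exp (t * φ ω)) := by
    refine ⟨?_, ?_, ?_, ?_⟩
    · exact hg.meas.mul (Real.measurable_exp.comp (hφm.const_mul t))
    · intro ω
      simp only [hg.inv, hφinv]
    · refine ⟨m * Real.exp (-1), |M| * Real.exp 1, by positivity, fun ω => ?_⟩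
      have h1 := abs_le.mp (htφ ω)
      constructor
      · exact mul_le_mul (hmM ω).1 (Real.exp_le_exp.mpr h1.1) (Real.exp_pos _).le (hgpos ω).le
      · exact mul_le_mul ((hmM ω).2.trans (le_abs_self _)) (Real.exp_le_exp.mpr h1.2)
          (Real.exp_pos _).le (abs_nonneg _)
    · have h1 : ∀ ω, Real.log (g ω * Real.exp (t * φ ω)) = Real.log (g ω) + t * φ ω := by
        intro ω
        rw [Real.log_mul (hgpos ω).ne' (Real.exp_pos _).ne', Real.log_exp]
      simp_rw [h1]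
      rw [integral_add (integrable_bdd hg.meas.log hlogg)
        ((integrable_bdd hφm hφb).const_mul t), hg.norm, integral_const_mul, hφint]
      simp
  have h1 := hs _ hadm
  -- second order bound
  have h2 : ∫ ω, g ω * Real.exp (t * φ ω) * F ω ∂μ ≤
      ∫ ω, ((1 + ε ^ 2) * h ω + t * (φ ω * h ω)) ∂μ := by
    apply integral_mono
    · apply integrable_bdd (C := |M| * Real.exp 1 * |K|) ((hg.meas.mul
        (Real.measurable_exp.comp (hφm.const_mul t))).mul hF)
      intro ω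
      rw [Pi.mul_apply, Pi.mul_apply, abs_mul, abs_mul]
      have h1 := abs_le.mp (htφ ω)
      apply mul_le_mul (mul_le_mul (hgabs ω) _ (abs_nonneg _) (abs_nonneg _)) _ (abs_nonneg _)
        (by positivity)
      · simp only [Function.comp_apply]
        rw [abs_of_pos (Real.exp_pos _)]; exact Real.exp_le_exp.mpr h1.2
      · rw [abs_of_nonneg (hF0 ω)]; exact (hFK ω).trans (le_abs_self _)
    · apply Integrable.add
      · exact hhi.const_mul _
      · apply Integrable.const_mul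
        apply integrable_bdd (C := 2 * C) (hφm.mul hhm)
        intro ω
        rw [Pi.mul_apply, abs_mul]
        exact mul_le_mul (hφb ω) (hhC ω) (abs_nonneg _) (by norm_num)
    · intro ω
      have h3 := Real.abs_exp_sub_one_sub_id_le (htφ ω)
      have h4 := (abs_le.mp h3).2
      have h5 : (t * φ ω) ^ 2 ≤ ε ^ 2 := by
        rw [← sq_abs (t * φ ω)]
        apply pow_le_pow_left₀ (abs_nonneg _)
        rw [abs_mul, abs_of_pos htpos]
        calc t * |φ ω| ≤ t * 2 := mul_le_mul_of_nonneg_left (hφb ω) htpos.le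
          _ = ε := by rw [ht]; ring
      have h6 : Real.exp (t * φ ω) ≤ 1 + ε ^ 2 + t * φ ω := by linarith
      simp only
      calc g ω * Real.exp (t * φ ω) * F ω = h ω * Real.exp (t * φ ω) := by
            simp only [hh]; ring
        _ ≤ h ω * (1 + ε ^ 2 + t * φ ω) := mul_le_mul_of_nonneg_left h6 (hh0 ω)
        _ = _ := by ring
  have h3 : ∫ ω, ((1 + ε ^ 2) * h ω + t * (φ ω * h ω)) ∂μ =
      (1 + ε ^ 2) * c + t * ∫ ω, φ ω * h ω ∂μ := by
    rw [integral_add, integral_const_mul, integral_const_mul]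
    · exact hhi.const_mul _
    · apply Integrable.const_mul
      apply integrable_bdd (C := 2 * C) (hφm.mul hhm)
      intro ω
      rw [Pi.mul_apply, abs_mul]
      exact mul_le_mul (hφb ω) (hhC ω) (abs_nonneg _) (by norm_num)
  have h4 : ∫ ω, φ ω * h ω ∂μ = - ∫ ω, |k ω| ∂μ := by
    have e1 := integral_mul_bLim (μ := μ) hS hhm hC0 hhC hφm (by norm_num : (0 : ℝ) ≤ 2) hφb hφinv
    rw [← e1]
    have hbLi : Integrable (bLim S h) μ := by
      apply integrable_bdd hbLm (C := C)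
      intro ω
      exact abs_le.mpr ⟨le_bLim hC0 hhC (fun ω => (abs_le.mp (hhC ω)).1) ω,
        bLim_le hC0 hhC (fun ω => (abs_le.mp (hhC ω)).2) ω⟩
    have hbb : ∀ ω, |bLim S h ω| ≤ C := fun ω => abs_le.mpr
      ⟨le_bLim hC0 hhC (fun ω => (abs_le.mp (hhC ω)).1) ω,
        bLim_le hC0 hhC (fun ω => (abs_le.mp (hhC ω)).2) ω⟩
    have e2 : ∫ ω, φ ω * bLim S h ω ∂μ = m0 * c - ∫ ω, φ0 ω * bLim S h ω ∂μ := by
      have e3 : ∫ ω, bLim S h ω ∂μ = c := integral_bLim hS hhm hC0 hhC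
      rw [← e3, ← integral_const_mul, ← integral_sub]
      · apply integral_congr_ae
        exact ae_of_all _ fun ω => by simp only [hφ]; ring
      · exact hbLi.const_mul _
      · apply integrable_bdd (hφ0m.mul hbLm) (C := 1 * C)
        intro ω
        rw [Pi.mul_apply, abs_mul]
        exact mul_le_mul (hφ0b ω) (hbb ω) (abs_nonneg _) (by norm_num)
    rw [e2]
    have e4 : ∫ ω, |k ω| ∂μ = ∫ ω, φ0 ω * bLim S h ω ∂μ - c * m0 := by
      rw [hm0, ← integral_const_mul, ← integral_sub]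
      · apply integral_congr_ae
        refine ae_of_all _ fun ω => ?_
        simp only [hφ0]
        split_ifs with h5
        · rw [abs_of_nonneg h5]; simp only [hk]; ring
        · rw [abs_of_neg (not_le.mp h5)]; simp only [hk]; ring
      · apply integrable_bdd (hφ0m.mul hbLm) (C := 1 * C)
        intro ω
        rw [Pi.mul_apply, abs_mul]
        exact mul_le_mul (hφ0b ω) (hbb ω) (abs_nonneg _) (by norm_num)
      · exact hφ0i.const_mul _
    rw [e4]
    ring
  rw [h4] at h3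
  rw [h3] at h2
  have h5 := h1.trans h2
  have h6 : t * ∫ ω, |k ω| ∂μ ≤ t * (2 * ε * (1 + c)) := by
    rw [ht]
    have : ε / 2 * (2 * ε * (1 + c)) = ε ^ 2 + ε ^ 2 * c := by ring
    rw [this]
    have h7 : t * -∫ ω, |k ω| ∂μ = - (ε / 2 * ∫ ω, |k ω| ∂μ) := by rw [ht]; ring
    rw [h7] at h5
    linarith
  exact le_of_mul_le_mul_left h6 htpos

end Pool.Agent.MP_79d3d7_an
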