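import Mathlib
import Pool.Agent.MP_79d3d7_an.MatrixBounds
import Pool.Agent.MP_79d3d7_an.Sink

/-! The law of large permanents for bounded functions, in terms of normalised bounded scalings. -/

open MeasureTheory Filter Topology Function

namespace Pool.Agent.MP_79d3d7_an

variable {Ω : Type*} [MeasurableSpace Ω] {μ : Measure Ω}

/-- The sampled matrix `(f (S^i T^j ω))`. -/
def sample (S T : Ω → Ω) (f : Ω → ℝ) (n : ℕ) (ω : Ω) : Matrix (Fin n) (Fin n) ℝ :=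
  fun i j => f (S^[i.val] (T^[j.val] ω))

lemma permanent_scale {n : ℕ} (A : Matrix (Fin n) (Fin n) ℝ) (x y : Fin n → ℝ) :
    Matrix.permanent (fun i j => x i * A i j * y j : Matrix (Fin n) (Fin n) ℝ) =
      (∏ i, x i) * (∏ j, y j) * A.permanent := by
  unfold Matrix.permanent
  rw [Finset.mul_sum]
  apply Finset.sum_congr rfl
  intro σ _
  rw [Finset.prod_mul_distrib, Finset.prod_mul_distrib, Equiv.prod_comp σ x]
  ring

lemma rpow_prod {n : ℕ} (hn : 0 < n) (x : Fin n → ℝ) (hx : ∀ i, 0 < x i) :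
    (∏ i, x i) ^ ((1 : ℝ) / n) = Real.exp (lmean x) := by
  have hn' : (0 : ℝ) < n := by exact_mod_cast hn
  have h1 : ∏ i, x i = Real.exp (∑ i, Real.log (x i)) := by
    rw [Real.exp_sum]
    exact Finset.prod_congr rfl fun i _ => (Real.exp_log (hx i)).symm
  rw [h1, ← Real.exp_mul]
  unfold lmean
  congr 1
  ring

lemma pmean_scale {n : ℕ} (hn : 0 < n) (A : Matrix (Fin n) (Fin n) ℝ) (hA : ∀ i j, 0 ≤ A i j)
    (x y : Fin n → ℝ) (hx : ∀ i, 0 < x i) (hy : ∀ j, 0 < y j) :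
    pmean (fun i j => x i * A i j * y j : Matrix (Fin n) (Fin n) ℝ) =
      Real.exp (lmean x) * Real.exp (lmean y) * pmean A := by
  unfold pmean
  rw [permanent_scale, mul_div_assoc, Real.mul_rpow, Real.mul_rpow, rpow_prod hn x hx,
    rpow_prod hn y hy]
  · exact Finset.prod_nonneg fun i _ => (hx i).le
  · exact Finset.prod_nonneg fun i _ => (hy i).le
  · exact mul_nonneg (Finset.prod_nonneg fun i _ => (hx i).le)
      (Finset.prod_nonneg fun i _ => (hy i).le)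
  · exact div_nonneg (permanent_nonneg A hA) (Nat.cast_nonneg _)

omit [MeasurableSpace Ω] in
lemma iterate_comm {S T : Ω → Ω} (hST : ∀ ω, S (T ω) = T (S ω)) (i j : ℕ) (ω : Ω) :
    S^[i] (T^[j] ω) = T^[j] (S^[i] ω) := by
  have h : Function.Commute S T := hST
  exact (h.iterate_iterate i j) ω

omit [MeasurableSpace Ω] in
lemma sample_scale {S T : Ω → Ω} (hST : ∀ ω, S (T ω) = T (S ω)) {f g₁ g₂ : Ω → ℝ}
    (h₁ : ∀ ω, g₁ (S ω) = g₁ ω) (h₂ : ∀ ω, g₂ (T ω) = g₂ ω) (n : ℕ) (ω : Ω) :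
    sample S T (fun ω => g₁ ω * f ω * g₂ ω) n ω =
      (fun i j => (fun i : Fin n => g₂ (S^[i.val] ω)) i * sample S T f n ω i j *
        (fun j : Fin n => g₁ (T^[j.val] ω)) j : Matrix (Fin n) (Fin n) ℝ) := by
  funext i j
  simp only [sample]
  rw [iterate_inv h₁, iterate_comm hST i.val j.val ω, iterate_inv h₂]
  ring

lemma log_bdd_of_adm {S : Ω → Ω} {g : Ω → ℝ} (hg : Adm μ S g) :
    ∃ C, 0 ≤ C ∧ ∀ ω, |Real.log (g ω)| ≤ C := by
  obtain ⟨m, M, hm, hmM⟩ := hg.bd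
  refine ⟨|Real.log m| + |Real.log M|, by positivity, fun ω => ?_⟩
  have hgpos : 0 < g ω := lt_of_lt_of_le hm (hmM ω).1
  have h5 := Real.log_le_log hm (hmM ω).1
  have h6 := Real.log_le_log hgpos (hmM ω).2
  rw [abs_le]
  have h7 := neg_abs_le (Real.log m)
  have h8 := le_abs_self (Real.log M)
  have h9 := abs_nonneg (Real.log m)
  have h10 := abs_nonneg (Real.log M)
  constructor <;> linarith

omit [MeasurableSpace Ω] in
lemma lmean_eq_avg (S : Ω → Ω) (g : Ω → ℝ) (n : ℕ) (ω : Ω) :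
    lmean (fun i : Fin n => g (S^[i.val] ω)) = birkhoffAverage ℝ S (fun ω => Real.log (g ω)) n ω := by
  unfold lmean birkhoffAverage birkhoffSum
  rw [smul_eq_mul, Finset.sum_range, div_eq_inv_mul]

/-- geometric means of invariant scalings along the orbit -/
lemma lmean_tendsto [IsProbabilityMeasure μ] {S T : Ω → Ω} (hS : MeasurePreserving S μ μ)
    (hST : ∀ ω, S (T ω) = T (S ω))
    (herg : ∀ A : Set Ω, MeasurableSet A → S ⁻¹' A = A → T ⁻¹' A = A → μ A = 0 ∨ μ A = 1)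
    {g : Ω → ℝ} (hg : Adm μ T g) :
    ∀ᵐ ω ∂μ, Tendsto (fun n => lmean (fun i : Fin n => g (S^[i.val] ω))) atTop (𝓝 0) := by
  obtain ⟨C, hC0, hC⟩ := log_bdd_of_adm hg
  have h1 := bLim_const (μ := μ) hS hST herg hg.meas.log hC0 hC (fun ω => by rw [hg.inv])
  have h2 := tendsto_bLim (μ := μ) hS hg.meas.log hC0 hC
  filter_upwards [h1, h2] with ω h3 h4
  rw [h3, hg.norm] at h4
  refine h4.congr fun n => ?_
  rw [lmean_eq_avg]

section pair

variable [IsProbabilityMeasure μ] {S T : Ω → Ω} (hS : MeasurePreserving S μ μ)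
    (hT : MeasurePreserving T μ μ) (hST : ∀ ω, S (T ω) = T (S ω))
    (herg : ∀ A : Set Ω, MeasurableSet A → S ⁻¹' A = A → T ⁻¹' A = A → μ A = 0 ∨ μ A = 1)
    {f : Ω → ℝ} (hf : Measurable f) {Λ : ℝ}
    (hf1 : ∀ ω, Real.exp (-Λ) ≤ f ω) (hf2 : ∀ ω, f ω ≤ Real.exp Λ)
    {g₁ g₂ : Ω → ℝ} (h₁ : Adm μ S g₁) (h₂ : Adm μ T g₂)

include hS hT hST herg hf hf1 hf2 h₁ h₂

/-- Upper bound from an admissible pair. -/
lemma upper_pair : ∀ᵐ ω ∂μ, ∀ δ > 0, ∀ᶠ n in atTop,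
    pmean (sample S T f n ω) ≤ (∫ ω, g₁ ω * f ω * g₂ ω ∂μ) + δ := by
  obtain ⟨m₁, M₁, hm₁, hmM₁⟩ := h₁.bd
  obtain ⟨m₂, M₂, hm₂, hmM₂⟩ := h₂.bd
  have hfpos : ∀ ω, 0 < f ω := fun ω => lt_of_lt_of_le (Real.exp_pos _) (hf1 ω)
  have hg1pos : ∀ ω, 0 < g₁ ω := fun ω => lt_of_lt_of_le hm₁ (hmM₁ ω).1
  have hg2pos : ∀ ω, 0 < g₂ ω := fun ω => lt_of_lt_of_le hm₂ (hmM₂ ω).1
  set h : Ω → ℝ := fun ω => g₁ ω * f ω * g₂ ω with hh
  set κ := m₁ * Real.exp (-Λ) * m₂ with hκ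
  set K := |M₁| * Real.exp Λ * |M₂| + κ with hK
  have hκpos : 0 < κ := by positivity
  have hhκ : ∀ ω, κ ≤ h ω := fun ω => by
    simp only [hh, hκ]
    exact mul_le_mul (mul_le_mul (hmM₁ ω).1 (hf1 ω) (Real.exp_pos _).le (hg1pos ω).le)
      (hmM₂ ω).1 hm₂.le (mul_nonneg (hg1pos ω).le (hfpos ω).le)
  have hhK : ∀ ω, h ω ≤ K := fun ω => by
    have : h ω ≤ |M₁| * Real.exp Λ * |M₂| := by
      simp only [hh]
      exact mul_le_mul (mul_le_mul ((hmM₁ ω).2.trans (le_abs_self _)) (hf2 ω) (hfpos ω).le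
        (abs_nonneg _)) ((hmM₂ ω).2.trans (le_abs_self _)) (hg2pos ω).le (by positivity)
    linarith
  have hK0 : 0 ≤ K := by positivity
  have hhabs : ∀ ω, |h ω| ≤ K := fun ω => by
    rw [abs_of_nonneg (hκpos.le.trans (hhκ ω))]; exact hhK ω
  have hhm : Measurable h := (h₁.meas.mul hf).mul h₂.meas
  have hκK : κ ≤ K := by rw [hK]; have : 0 ≤ |M₁| * Real.exp Λ * |M₂| := by positivity
                         linarith
  set c := ∫ ω, h ω ∂μ with hc
  have hc0 : 0 ≤ c := integral_nonneg fun ω => hκpos.le.trans (hhκ ω)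
  filter_upwards [square_avg hS hT hST herg hhm hK0 hhabs, lmean_tendsto hS hST herg h₂,
    lmean_tendsto hT (fun ω => (hST ω).symm) (fun A hA h1 h2 => herg A hA h2 h1) h₁]
    with ω havg hx hy
  intro δ hδ
  -- choose ε
  obtain ⟨ε, hε, hεc⟩ : ∃ ε > 0, (1 + ε) * c < c + δ := by
    refine ⟨δ / (2 * (c + 1)), by positivity, ?_⟩
    have : δ / (2 * (c + 1)) * c < δ := by
      rw [div_mul_eq_mul_div, div_lt_iff₀ (by positivity)]
      nlinarith
    linarith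
  obtain ⟨C', hC'0, hC'⟩ := pmean_upper κ K hκpos hκK ε hε
  have hlim : Tendsto (fun n : ℕ => Real.exp (-(lmean (fun i : Fin n => g₂ (S^[i.val] ω)) +
      lmean (fun j : Fin n => g₁ (T^[j.val] ω)))) * ((1 + ε) * (1 + C' / n) *
      ((∑ i ∈ Finset.range n, ∑ j ∈ Finset.range n, h (S^[i] (T^[j] ω))) / (n : ℝ) ^ 2)))
      atTop (𝓝 (1 * ((1 + ε) * (1 + 0) * c))) := by
    apply Tendsto.mul
    · have h1 := (hx.add hy).neg
      simp only [add_zero, neg_zero] at h1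
      have h2 := (Real.continuous_exp.tendsto 0).comp h1
      rw [Real.exp_zero] at h2
      exact h2
    · apply Tendsto.mul _ havg
      apply Tendsto.const_mul
      apply Tendsto.const_add
      exact tendsto_const_nhds.div_atTop tendsto_natCast_atTop_atTop
  have hlt : 1 * ((1 + ε) * (1 + 0) * c) < c + δ := by
    rw [one_mul, add_zero, mul_one]; exact hεc
  filter_upwards [hlim.eventually (gt_mem_nhds hlt), eventually_gt_atTop 0] with n hn hn0
  refine le_trans ?_ hn.le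
  have hA0 : ∀ i j, 0 ≤ sample S T f n ω i j := fun i j => (hfpos _).le
  have hsc := pmean_scale hn0 (sample S T f n ω) hA0 (fun i : Fin n => g₂ (S^[i.val] ω))
    (fun j : Fin n => g₁ (T^[j.val] ω)) (fun i => hg2pos _) (fun j => hg1pos _)
  rw [← sample_scale hST h₁.inv h₂.inv n ω] at hsc
  have hub := hC' n hn0 (sample S T h n ω) (fun i j => hhκ _) (fun i j => hhK _)
  rw [hsc] at hub
  have hsum : ∑ i, ∑ j, sample S T h n ω i j =
      ∑ i ∈ Finset.range n, ∑ j ∈ Finset.range n, h (S^[i] (T^[j] ω)) := by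
    rw [Finset.sum_range]
    apply Finset.sum_congr rfl
    intro i _
    rw [Finset.sum_range]
    rfl
  rw [hsum] at hub
  have h3 := mul_le_mul_of_nonneg_left hub
    (Real.exp_pos (-(lmean (fun i : Fin n => g₂ (S^[i.val] ω)) +
      lmean (fun j : Fin n => g₁ (T^[j.val] ω))))).le
  have h4 : Real.exp (-(lmean (fun i : Fin n => g₂ (S^[i.val] ω)) +
      lmean (fun j : Fin n => g₁ (T^[j.val] ω)))) *
      (Real.exp (lmean (fun i : Fin n => g₂ (S^[i.val] ω))) *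
        Real.exp (lmean (fun j : Fin n => g₁ (T^[j.val] ω))) * pmean (sample S T f n ω)) =
      pmean (sample S T f n ω) := by
    rw [← mul_assoc, ← Real.exp_add, ← Real.exp_add]
    simp
  rw [h4] at h3
  exact h3

/-- Lower bound from an admissible pair. -/
lemma lower_pair (κ K : ℝ) (hκ : 0 < κ) (hhκ : ∀ ω, κ ≤ g₁ ω * f ω * g₂ ω)
    (hhK : ∀ ω, g₁ ω * f ω * g₂ ω ≤ K) (η : ℝ)
    (hη1 : ∫ ω, |bLim S (fun ω => g₁ ω * f ω * g₂ ω) ω - ∫ ω, g₁ ω * f ω * g₂ ω ∂μ| ∂μ ≤ η)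
    (hη2 : ∫ ω, |bLim T (fun ω => g₁ ω * f ω * g₂ ω) ω - ∫ ω, g₁ ω * f ω * g₂ ω ∂μ| ∂μ ≤ η) :
    ∀ᵐ ω ∂μ, ∀ δ > 0, ∀ᶠ n in atTop,
    (∫ ω, g₁ ω * f ω * g₂ ω ∂μ) - Real.log (K / κ) * (2 * η) - δ ≤ pmean (sample S T f n ω) := by
  obtain ⟨m₁, M₁, hm₁, hmM₁⟩ := h₁.bd
  obtain ⟨m₂, M₂, hm₂, hmM₂⟩ := h₂.bd
  have hfpos : ∀ ω, 0 < f ω := fun ω => lt_of_lt_of_le (Real.exp_pos _) (hf1 ω)
  have hg1pos : ∀ ω, 0 < g₁ ω := fun ω => lt_of_lt_of_le hm₁ (hmM₁ ω).1
  have hg2pos : ∀ ω, 0 < g₂ ω := fun ω => lt_of_lt_of_le hm₂ (hmM₂ ω).1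
  set h : Ω → ℝ := fun ω => g₁ ω * f ω * g₂ ω with hh
  have hne : Nonempty Ω := by
    by_contra hcon
    rw [not_nonempty_iff] at hcon
    have : μ Set.univ = 0 := by simp [Set.eq_empty_of_isEmpty]
    rw [measure_univ] at this
    exact one_ne_zero this
  have hκK : κ ≤ K := by
    obtain ⟨ω0⟩ := hne
    exact (hhκ ω0).trans (hhK ω0)
  have hK0 : 0 ≤ K := hκ.le.trans hκK
  have hL0 : 0 ≤ Real.log (K / κ) := Real.log_nonneg (by rw [one_le_div hκ]; exact hκK)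
  set L := Real.log (K / κ) with hL
  have hhabs : ∀ ω, |h ω| ≤ K := fun ω => by
    rw [abs_of_nonneg (hκ.le.trans (hhκ ω))]; exact hhK ω
  have hhm : Measurable h := (h₁.meas.mul hf).mul h₂.meas
  set c := ∫ ω, h ω ∂μ with hc
  filter_upwards [square_avg hS hT hST herg hhm hK0 hhabs, lmean_tendsto hS hST herg h₂,
    lmean_tendsto hT (fun ω => (hST ω).symm) (fun A hA h1 h2 => herg A hA h2 h1) h₁,
    column_dev hS hT hST herg hhm hK0 hhabs c,
    column_dev hT hS (fun ω => (hST ω).symm) (fun A hA h1 h2 => herg A hA h2 h1) hhm hK0 hhabs c]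
    with ω havg hx hy hcol hrow
  intro δ hδ
  -- choose δ'
  set δ' := δ / (4 * (L + 1)) with hδ'
  have hδ'pos : 0 < δ' := by positivity
  have hLδ : L * (2 * δ') ≤ δ / 2 := by
    rw [hδ']
    have : L * (2 * (δ / (4 * (L + 1)))) = (L / (L + 1)) * (δ / 2) := by field_simp; ring
    rw [this]
    have h1 : L / (L + 1) ≤ 1 := by rw [div_le_one (by positivity)]; linarith
    calc L / (L + 1) * (δ / 2) ≤ 1 * (δ / 2) := by gcongr
      _ = δ / 2 := one_mul _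
  -- the limit of the lower bound
  have hlim : Tendsto (fun n : ℕ => Real.exp (-(lmean (fun i : Fin n => g₂ (S^[i.val] ω)) +
      lmean (fun j : Fin n => g₁ (T^[j.val] ω)))) * (Real.exp (-((1 + Real.log n) / n)) *
      ((∑ i ∈ Finset.range n, ∑ j ∈ Finset.range n, h (S^[i] (T^[j] ω))) / (n : ℝ) ^ 2 -
        L * (2 * (η + δ')))))
      atTop (𝓝 (1 * (1 * (c - L * (2 * (η + δ')))))) := by
    apply Tendsto.mul
    · have h1 := (hx.add hy).neg
      simp only [add_zero, neg_zero] at h1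
      have h2 := (Real.continuous_exp.tendsto 0).comp h1
      rw [Real.exp_zero] at h2
      exact h2
    · apply Tendsto.mul _ (havg.sub_const _)
      have h1 : Tendsto (fun x : ℝ => (1 + Real.log x) / x) Filter.atTop (nhds 0) := by
        have ha : Filter.Tendsto (fun x : ℝ => 1 / x) Filter.atTop (nhds 0) := by
          simpa using tendsto_inv_atTop_zero
        have hb : Filter.Tendsto (fun x : ℝ => Real.log x / x) Filter.atTop (nhds 0) :=
          Real.isLittleO_log_id_atTop.tendsto_div_nhds_zero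
        have := ha.add hb
        simp only [add_zero] at this
        refine this.congr (fun x => ?_)
        rw [← add_div]
      have h2 := (h1.comp tendsto_natCast_atTop_atTop).neg
      rw [neg_zero] at h2
      have h3 := (Real.continuous_exp.tendsto 0).comp h2
      rw [Real.exp_zero] at h3
      exact h3
  have hlt : c - L * (2 * η) - δ < 1 * (1 * (c - L * (2 * (η + δ')))) := by
    have : L * (2 * (η + δ')) = L * (2 * η) + L * (2 * δ') := by ring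
    rw [one_mul, one_mul, this]
    linarith
  filter_upwards [hlim.eventually (lt_mem_nhds hlt), eventually_gt_atTop 0, hcol δ' hδ'pos,
    hrow δ' hδ'pos] with n hn hn0 hcn hrn
  refine hn.le.trans ?_
  have hn' : (0 : ℝ) < n := by exact_mod_cast hn0
  have hA0 : ∀ i j, 0 ≤ sample S T f n ω i j := fun i j => (hfpos _).le
  have hsc := pmean_scale hn0 (sample S T f n ω) hA0 (fun i : Fin n => g₂ (S^[i.val] ω))
    (fun j : Fin n => g₁ (T^[j.val] ω)) (fun i => hg2pos _) (fun j => hg1pos _)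
  rw [← sample_scale hST h₁.inv h₂.inv n ω] at hsc
  have hlb := pmean_lower hn0 (sample S T h n ω) κ K hκ (fun i j => hhκ _) (fun i j => hhK _) c
  rw [hsc] at hlb
  have hsum : ∑ i, ∑ j, sample S T h n ω i j =
      ∑ i ∈ Finset.range n, ∑ j ∈ Finset.range n, h (S^[i] (T^[j] ω)) := by
    rw [Finset.sum_range]
    apply Finset.sum_congr rfl
    intro i _
    rw [Finset.sum_range]
    rfl
  have hcolsum : ∑ j, |(∑ i, sample S T h n ω i j) - n * c| =
      ∑ j ∈ Finset.range n, |(∑ i ∈ Finset.range n, h (S^[i] (T^[j] ω))) - n * c| := by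
    rw [Finset.sum_range]
    apply Finset.sum_congr rfl
    intro j _
    rw [Finset.sum_range]
    rfl
  have hrowsum : ∑ i, |(∑ j, sample S T h n ω i j) - n * c| =
      ∑ i ∈ Finset.range n, |(∑ j ∈ Finset.range n, h (T^[j] (S^[i] ω))) - n * c| := by
    rw [Finset.sum_range]
    apply Finset.sum_congr rfl
    intro i _
    rw [Finset.sum_range]
    congr 2
    apply Finset.sum_congr rfl
    intro j _
    simp only [sample]
    rw [iterate_comm hST]
  rw [hsum, hcolsum, hrowsum] at hlb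
  have h3 := mul_le_mul_of_nonneg_left hlb
    (Real.exp_pos (-(lmean (fun i : Fin n => g₂ (S^[i.val] ω)) +
      lmean (fun j : Fin n => g₁ (T^[j.val] ω))))).le
  have h4 : Real.exp (-(lmean (fun i : Fin n => g₂ (S^[i.val] ω)) +
      lmean (fun j : Fin n => g₁ (T^[j.val] ω)))) *
      (Real.exp (lmean (fun i : Fin n => g₂ (S^[i.val] ω))) *
        Real.exp (lmean (fun j : Fin n => g₁ (T^[j.val] ω))) * pmean (sample S T f n ω)) =
      pmean (sample S T f n ω) := by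
    rw [← mul_assoc, ← Real.exp_add, ← Real.exp_add]
    simp
  rw [h4] at h3
  refine le_trans ?_ h3
  apply mul_le_mul_of_nonneg_left _ (Real.exp_pos _).le
  apply mul_le_mul_of_nonneg_left _ (Real.exp_pos _).le
  rw [sub_div]
  apply sub_le_sub_left
  rw [mul_div_assoc]
  apply mul_le_mul_of_nonneg_left _ hL0
  rw [add_div]
  linarith

end pair

/-- the value of the normalised bounded scaling problem -/
noncomputable def bVal (μ : Measure Ω) (S T : Ω → Ω) (f : Ω → ℝ) : ℝ :=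
  sInf {x | ∃ g₁ g₂ : Ω → ℝ, Adm μ S g₁ ∧ Adm μ T g₂ ∧ x = ∫ ω, g₁ ω * f ω * g₂ ω ∂μ}

lemma adm_one [IsProbabilityMeasure μ] (S : Ω → Ω) : Adm μ S (fun _ => (1 : ℝ)) where
  meas := measurable_const
  inv := fun _ => rfl
  bd := ⟨1, 1, one_pos, fun _ => ⟨le_refl _, le_refl _⟩⟩
  norm := by simp

lemma adm_pos {S : Ω → Ω} {g : Ω → ℝ} (hg : Adm μ S g) (ω : Ω) : 0 < g ω := by
  obtain ⟨m, M, hm, hmM⟩ := hg.bd
  exact lt_of_lt_of_le hm (hmM ω).1

lemma bVal_le [IsProbabilityMeasure μ] {S T : Ω → Ω} {f : Ω → ℝ} (hf0 : ∀ ω, 0 ≤ f ω)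
    {g₁ g₂ : Ω → ℝ} (h₁ : Adm μ S g₁) (h₂ : Adm μ T g₂) :
    bVal μ S T f ≤ ∫ ω, g₁ ω * f ω * g₂ ω ∂μ := by
  apply csInf_le
  · refine ⟨0, ?_⟩
    rintro x ⟨a, b, ha, hb, rfl⟩
    exact integral_nonneg fun ω => mul_nonneg (mul_nonneg (adm_pos ha ω).le (hf0 ω))
      (adm_pos hb ω).le
  · exact ⟨g₁, g₂, h₁, h₂, rfl⟩

lemma bVal_nonneg [IsProbabilityMeasure μ] {S T : Ω → Ω} {f : Ω → ℝ} (hf0 : ∀ ω, 0 ≤ f ω) :
    0 ≤ bVal μ S T f := by
  apply Real.sInf_nonneg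
  rintro x ⟨a, b, ha, hb, rfl⟩
  exact integral_nonneg fun ω => mul_nonneg (mul_nonneg (adm_pos ha ω).le (hf0 ω))
    (adm_pos hb ω).le

/-- The law of large permanents for strictly bounded functions. -/
theorem core [IsProbabilityMeasure μ] {S T : Ω → Ω} (hS : MeasurePreserving S μ μ)
    (hT : MeasurePreserving T μ μ) (hST : ∀ ω, S (T ω) = T (S ω))
    (herg : ∀ A : Set Ω, MeasurableSet A → S ⁻¹' A = A → T ⁻¹' A = A → μ A = 0 ∨ μ A = 1)
    {f : Ω → ℝ} (hf : Measurable f) {Λ : ℝ}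
    (hf1 : ∀ ω, Real.exp (-Λ) ≤ f ω) (hf2 : ∀ ω, f ω ≤ Real.exp Λ) :
    ∀ᵐ ω ∂μ, Tendsto (fun n => pmean (sample S T f n ω)) atTop (𝓝 (bVal μ S T f)) := by
  have hfpos : ∀ ω, 0 < f ω := fun ω => lt_of_lt_of_le (Real.exp_pos _) (hf1 ω)
  have hf0 : ∀ ω, 0 ≤ f ω := fun ω => (hfpos ω).le
  have hne : Nonempty Ω := by
    by_contra hcon
    rw [not_nonempty_iff] at hcon
    have : μ Set.univ = 0 := by simp [Set.eq_empty_of_isEmpty]
    rw [measure_univ] at this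
    exact one_ne_zero this
  have hΛ : 0 ≤ Λ := by
    obtain ⟨ω0⟩ := hne
    have := (hf1 ω0).trans (hf2 ω0)
    have := Real.exp_le_exp.mp this
    linarith
  set s := bVal μ S T f with hs
  have hs0 : 0 ≤ s := bVal_nonneg hf0
  have herg' : ∀ A : Set Ω, MeasurableSet A → T ⁻¹' A = A → S ⁻¹' A = A → μ A = 0 ∨ μ A = 1 :=
    fun A hA h1 h2 => herg A hA h2 h1
  have hST' : ∀ ω, T (S ω) = S (T ω) := fun ω => (hST ω).symm
  -- near minimisers
  have hnear : ∀ δ > 0, ∃ g₁ g₂ : Ω → ℝ, Adm μ S g₁ ∧ Adm μ T g₂ ∧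
      (∀ ω, Real.exp (-(2 * Λ)) ≤ g₁ ω ∧ g₁ ω ≤ Real.exp (2 * Λ)) ∧
      (∀ ω, Real.exp (-(2 * Λ)) ≤ g₂ ω ∧ g₂ ω ≤ Real.exp (2 * Λ)) ∧
      ∫ ω, g₁ ω * f ω * g₂ ω ∂μ ≤ s + δ := by
    intro δ hδ
    have hnonempty : {x | ∃ g₁ g₂ : Ω → ℝ, Adm μ S g₁ ∧ Adm μ T g₂ ∧
        x = ∫ ω, g₁ ω * f ω * g₂ ω ∂μ}.Nonempty := ⟨_, _, _, adm_one S, adm_one T, rfl⟩
    obtain ⟨x, ⟨a, b, ha, hb, rfl⟩, hx⟩ := exists_lt_of_csInf_lt hnonempty
      (show s < s + δ by linarith)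
    obtain ⟨b', hb', hb'b, hJ1⟩ := improve hT hST herg hf hf1 hf2 ha hb
    obtain ⟨a', ha', ha'b, hJ2⟩ := improve hS hST' herg' hf hf1 hf2 hb' ha
    refine ⟨a', b', ha', hb', ha'b, hb'b, ?_⟩
    have e1 : ∫ ω, a' ω * f ω * b' ω ∂μ = ∫ ω, b' ω * f ω * a' ω ∂μ := by
      apply integral_congr_ae; exact ae_of_all _ fun ω => by simp only; ring
    have e2 : ∫ ω, b' ω * f ω * a ω ∂μ = ∫ ω, a ω * f ω * b' ω ∂μ := by
      apply integral_congr_ae; exact ae_of_all _ fun ω => by simp only; ring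
    rw [e1]
    rw [e2] at hJ2
    exact hJ2.trans (hJ1.trans hx.le)
  -- sequence
  have hseq : ∀ k : ℕ, ∃ g₁ g₂ : Ω → ℝ, Adm μ S g₁ ∧ Adm μ T g₂ ∧
      (∀ ω, Real.exp (-(2 * Λ)) ≤ g₁ ω ∧ g₁ ω ≤ Real.exp (2 * Λ)) ∧
      (∀ ω, Real.exp (-(2 * Λ)) ≤ g₂ ω ∧ g₂ ω ≤ Real.exp (2 * Λ)) ∧
      ∫ ω, g₁ ω * f ω * g₂ ω ∂μ ≤ s + (1 / ((k : ℝ) + 1)) ^ 2 := fun k =>
    hnear _ (by positivity)
  choose g₁ g₂ h₁ h₂ hb₁ hb₂ hJ using hseq
  set c : ℕ → ℝ := fun k => ∫ ω, g₁ k ω * f ω * g₂ k ω ∂μ with hc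
  set κ := Real.exp (-(5 * Λ)) with hκ
  set K := Real.exp (5 * Λ) with hK
  have hκpos : 0 < κ := Real.exp_pos _
  have hhκ : ∀ k ω, κ ≤ g₁ k ω * f ω * g₂ k ω := by
    intro k ω
    have : κ = Real.exp (-(2 * Λ)) * Real.exp (-Λ) * Real.exp (-(2 * Λ)) := by
      rw [hκ, ← Real.exp_add, ← Real.exp_add]; congr 1; ring
    rw [this]
    exact mul_le_mul (mul_le_mul (hb₁ k ω).1 (hf1 ω) (Real.exp_pos _).le
      (adm_pos (h₁ k) ω).le) (hb₂ k ω).1 (Real.exp_pos _).le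
      (mul_nonneg (adm_pos (h₁ k) ω).le (hf0 ω))
  have hhK : ∀ k ω, g₁ k ω * f ω * g₂ k ω ≤ K := by
    intro k ω
    have : K = Real.exp (2 * Λ) * Real.exp Λ * Real.exp (2 * Λ) := by
      rw [hK, ← Real.exp_add, ← Real.exp_add]; congr 1; ring
    rw [this]
    exact mul_le_mul (mul_le_mul (hb₁ k ω).2 (hf2 ω) (hf0 ω) (Real.exp_pos _).le)
      (hb₂ k ω).2 (adm_pos (h₂ k) ω).le (by positivity)
  have hL : Real.log (K / κ) = 10 * Λ := by
    rw [hK, hκ, ← Real.exp_sub, Real.log_exp]; ring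
  have hcs : ∀ k, s ≤ c k := fun k => bVal_le hf0 (h₁ k) (h₂ k)
  -- regularity
  have hreg1 : ∀ k, ∫ ω, |bLim S (fun ω => g₁ k ω * f ω * g₂ k ω) ω -
      ∫ ω, g₁ k ω * f ω * g₂ k ω ∂μ| ∂μ ≤ 2 * (1 / ((k : ℝ) + 1)) * (1 + c k) := by
    intro k
    have hk1 : 1 / ((k : ℝ) + 1) ≤ 1 := by
      rw [div_le_one (by positivity)]
      have : (0 : ℝ) ≤ k := Nat.cast_nonneg k
      linarith
    have e : (fun ω => g₁ k ω * f ω * g₂ k ω) = fun ω => g₁ k ω * (f ω * g₂ k ω) := by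
      funext ω; ring
    have := near_regular (μ := μ) hS (F := fun ω => f ω * g₂ k ω) (g := g₁ k)
      (hf.mul (h₂ k).meas) (K := Real.exp Λ * Real.exp (2 * Λ))
      (fun ω => mul_nonneg (hf0 ω) (adm_pos (h₂ k) ω).le)
      (fun ω => mul_le_mul (hf2 ω) (hb₂ k ω).2 (adm_pos (h₂ k) ω).le (Real.exp_pos _).le)
      (h₁ k) s (1 / ((k : ℝ) + 1)) (by positivity) hk1
      (fun g' hg' => by
        have h3 := bVal_le (μ := μ) (S := S) (T := T) hf0 hg' (h₂ k)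
        refine h3.trans (le_of_eq ?_)
        apply integral_congr_ae; exact ae_of_all _ fun ω => by simp only; ring)
      (by
        have h3 := hJ k
        refine le_trans (le_of_eq ?_) h3
        apply integral_congr_ae; exact ae_of_all _ fun ω => by simp only; ring)
    rw [← e] at this
    exact this
  have hreg2 : ∀ k, ∫ ω, |bLim T (fun ω => g₁ k ω * f ω * g₂ k ω) ω -
      ∫ ω, g₁ k ω * f ω * g₂ k ω ∂μ| ∂μ ≤ 2 * (1 / ((k : ℝ) + 1)) * (1 + c k) := by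
    intro k
    have hk1 : 1 / ((k : ℝ) + 1) ≤ 1 := by
      rw [div_le_one (by positivity)]
      have : (0 : ℝ) ≤ k := Nat.cast_nonneg k
      linarith
    have e : (fun ω => g₁ k ω * f ω * g₂ k ω) = fun ω => g₂ k ω * (g₁ k ω * f ω) := by
      funext ω; ring
    have := near_regular (μ := μ) hT (F := fun ω => g₁ k ω * f ω) (g := g₂ k)
      ((h₁ k).meas.mul hf) (K := Real.exp (2 * Λ) * Real.exp Λ)
      (fun ω => mul_nonneg (adm_pos (h₁ k) ω).le (hf0 ω))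
      (fun ω => mul_le_mul (hb₁ k ω).2 (hf2 ω) (hf0 ω) (Real.exp_pos _).le)
      (h₂ k) s (1 / ((k : ℝ) + 1)) (by positivity) hk1
      (fun g' hg' => by
        have h3 := bVal_le (μ := μ) (S := S) (T := T) hf0 (h₁ k) hg'
        refine h3.trans (le_of_eq ?_)
        apply integral_congr_ae; exact ae_of_all _ fun ω => by simp only; ring)
      (by
        have h3 := hJ k
        refine le_trans (le_of_eq ?_) h3
        apply integral_congr_ae; exact ae_of_all _ fun ω => by simp only; ring)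
    rw [← e] at this
    exact this
  have hup := fun k => upper_pair hS hT hST herg hf hf1 hf2 (h₁ k) (h₂ k)
  have hlow := fun k => lower_pair hS hT hST herg hf hf1 hf2 (h₁ k) (h₂ k) κ K hκpos (hhκ k)
    (hhK k) _ (hreg1 k) (hreg2 k)
  filter_upwards [ae_all_iff.mpr hup, ae_all_iff.mpr hlow] with ω hu hl
  rw [Metric.tendsto_atTop]
  intro η hη
  -- choose k
  obtain ⟨k, hk⟩ : ∃ k : ℕ, (1 / ((k : ℝ) + 1)) ^ 2 < η / 2 ∧
      (10 * Λ) * (2 * (2 * (1 / ((k : ℝ) + 1)) * (1 + (s + 1)))) < η / 2 := by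
    have h1 : Tendsto (fun k : ℕ => 1 / ((k : ℝ) + 1)) atTop (𝓝 0) :=
      tendsto_one_div_add_atTop_nhds_zero_nat
    have h2 : Tendsto (fun k : ℕ => (1 / ((k : ℝ) + 1)) ^ 2) atTop (𝓝 0) := by
      have := h1.pow 2
      simpa using this
    have h3 : Tendsto (fun k : ℕ => (10 * Λ) * (2 * (2 * (1 / ((k : ℝ) + 1)) * (1 + (s + 1)))))
        atTop (𝓝 0) := by
      have := (((h1.const_mul 2).mul_const (1 + (s + 1))).const_mul 2).const_mul (10 * Λ)
      simpa using this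
    exact ((h2.eventually (gt_mem_nhds (by linarith))).and
      (h3.eventually (gt_mem_nhds (by linarith)))).exists
  have hck : c k ≤ s + 1 := by
    have h1 := hJ k
    have h2 : (1 / ((k : ℝ) + 1)) ^ 2 ≤ 1 := by
      apply pow_le_one₀ (by positivity)
      rw [div_le_one (by positivity)]
      have : (0 : ℝ) ≤ k := Nat.cast_nonneg k
      linarith
    linarith
  have hev := (hu k (η / 4) (by linarith)).and (hl k (η / 4) (by linarith))
  obtain ⟨N, hN⟩ := eventually_atTop.mp hev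
  refine ⟨N, fun n hn => ?_⟩
  obtain ⟨h3, h4⟩ := hN n hn
  rw [hL] at h4
  have h5 := hJ k
  have h6 := hcs k
  have h7 : (10 * Λ) * (2 * (2 * (1 / ((k : ℝ) + 1)) * (1 + c k))) ≤
      (10 * Λ) * (2 * (2 * (1 / ((k : ℝ) + 1)) * (1 + (s + 1)))) := by
    gcongr
  rw [Real.dist_eq, abs_lt]
  constructor
  · have : c k - 10 * Λ * (2 * (2 * (1 / ((k : ℝ) + 1)) * (1 + c k))) - η / 4 ≤
        pmean (sample S T f n ω) := h4
    linarith [hk.2]
  · have : pmean (sample S T f n ω) ≤ c k + η / 4 := h3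
    linarith [hk.1]

end Pool.Agent.MP_79d3d7_an
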